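import Pool.Graph.R_pool_sql_team_seeded_843ab51a.V11309.KRec.Shape2

/-! Elementary inequalities for `a = -log p`, `b = -log (1 - p)`, `0 < p < 1/2`. -/

namespace Pool.Agent.H17.KU

open Real Set V11309.KRec

lemma hasDerivAt_E (κ : ℝ) {t : ℝ} (h0 : 0 < t) (h1 : t < 1) :
    HasDerivAt (fun t : ℝ => log (-log t) - log (-log (1 - t)) - κ * (-log t - -log (1 - t)))
      (-(phi t - κ) / (t * (1 - t))) t := by
  have ha := a_pos h0 h1
  have hb := b_pos h0 h1
  have d1 := (hasDerivAt_a h0).log ha.ne'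
  have d2 := (hasDerivAt_b h1).log hb.ne'
  have d3 := ((hasDerivAt_a h0).sub (hasDerivAt_b h1)).const_mul κ
  refine ((d1.sub d2).sub d3).congr_deriv ?_
  unfold phi
  have h1' : (1 - t) ≠ 0 := by linarith
  have h0' := h0.ne'
  have ha' := ha.ne'
  have hb' := hb.ne'
  generalize (-log t) = a at *
  generalize (-log (1 - t)) = b at *
  field_simp
  ring

/-- the value at `1/2` is zero. -/
lemma E_half (κ : ℝ) : log (-log (1 / 2 : ℝ)) - log (-log (1 - 1 / 2 : ℝ)) -
    κ * (-log (1 / 2 : ℝ) - -log (1 - 1 / 2 : ℝ)) = 0 := by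
  rw [show (1 : ℝ) - 1 / 2 = 1 / 2 by norm_num]
  ring

/-- (L2) -/
lemma phi_mul_le {p : ℝ} (h0 : 0 < p) (h1 : p < 1 / 2) :
    (-log p - -log (1 - p)) * phi p ≤ log (-log p) - log (-log (1 - p)) := by
  have hanti : AntitoneOn (fun t : ℝ => log (-log t) - log (-log (1 - t)) -
      phi p * (-log t - -log (1 - t))) (Icc p (1 / 2)) := by
    apply antitoneOn_of_deriv_nonpos (convex_Icc _ _)
    · intro t ht
      exact (hasDerivAt_E (phi p) (by linarith [ht.1]) (by linarith [ht.2])).continuousAt.continuousWithinAt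
    · intro t ht
      rw [interior_Icc] at ht
      exact (hasDerivAt_E (phi p) (by linarith [ht.1]) (by linarith [ht.2])).differentiableAt.differentiableWithinAt
    · intro t ht
      rw [interior_Icc] at ht
      have ht0 : 0 < t := by linarith [ht.1]
      have ht1 : 0 < 1 - t := by linarith [ht.2]
      rw [(hasDerivAt_E (phi p) ht0 (by linarith)).deriv]
      have h2 := phi_strictMonoOn ⟨h0, h1.le⟩ ⟨ht0, ht.2.le⟩ ht.1
      apply div_nonpos_of_nonpos_of_nonneg _ (by positivity)
      linarith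
  have h3 := hanti ⟨le_rfl, h1.le⟩ ⟨h1.le, le_rfl⟩ h1.le
  simp only at h3
  rw [E_half] at h3
  linarith

/-- (L3) -/
lemma log_ratio_le {p : ℝ} (h0 : 0 < p) (h1 : p < 1 / 2) :
    log (-log p) - log (-log (1 - p)) ≤ (1 / log 2) * (-log p - -log (1 - p)) := by
  have hmono : MonotoneOn (fun t : ℝ => log (-log t) - log (-log (1 - t)) -
      (1 / log 2) * (-log t - -log (1 - t))) (Icc p (1 / 2)) := by
    apply monotoneOn_of_deriv_nonneg (convex_Icc _ _)
    · intro t ht
      exact (hasDerivAt_E _ (by linarith [ht.1]) (by linarith [ht.2])).continuousAt.continuousWithinAt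
    · intro t ht
      rw [interior_Icc] at ht
      exact (hasDerivAt_E _ (by linarith [ht.1]) (by linarith [ht.2])).differentiableAt.differentiableWithinAt
    · intro t ht
      rw [interior_Icc] at ht
      have ht0 : 0 < t := by linarith [ht.1]
      have ht1 : 0 < 1 - t := by linarith [ht.2]
      rw [(hasDerivAt_E _ ht0 (by linarith)).deriv]
      have h2 := phi_strictMonoOn ⟨ht0, ht.2.le⟩ ⟨by norm_num, le_rfl⟩ ht.2
      rw [phi_half] at h2
      apply div_nonneg _ (by positivity)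
      linarith
  have h3 := hmono ⟨le_rfl, h1.le⟩ ⟨h1.le, le_rfl⟩ h1.le
  simp only at h3
  rw [E_half] at h3
  linarith

lemma b_le {p : ℝ} (h1 : p < 1) : -log (1 - p) ≤ p / (1 - p) := by
  have hq : 0 < 1 - p := by linarith
  have := Real.one_sub_inv_le_log_of_pos hq
  have e : p / (1 - p) = (1 - p)⁻¹ - 1 := by field_simp; ring
  linarith

lemma a_le {p : ℝ} (h0 : 0 < p) : -log p ≤ (1 - p) / p := by
  have := Real.one_sub_inv_le_log_of_pos h0
  have e : (1 - p) / p = p⁻¹ - 1 := by field_simp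
  linarith

/-- (L1) -/
lemma one_le_phi {p : ℝ} (h0 : 0 < p) (h1 : p < 1) : 1 ≤ phi p := by
  have ha := a_pos h0 h1
  have hb := b_pos h0 h1
  have hq : 0 < 1 - p := by linarith
  have e1 : p ≤ (1 - p) / (-log p) := by
    rw [le_div_iff₀ ha]
    have := mul_le_mul_of_nonneg_left (a_le h0) h0.le
    rwa [mul_div_cancel₀ _ h0.ne'] at this
  have e2 : 1 - p ≤ p / (-log (1 - p)) := by
    rw [le_div_iff₀ hb]
    have := mul_le_mul_of_nonneg_left (b_le h1) hq.le
    rwa [mul_div_cancel₀ _ hq.ne'] at this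
  unfold phi
  linarith

/-- (L4) -/
lemma ab_lt_one {p : ℝ} (h0 : 0 < p) (h1 : p < 1 / 2) : (-log p) * (-log (1 - p)) < 1 := by
  have ha := a_pos h0 (by linarith : p < 1)
  have hq : 0 < 1 - p := by linarith
  have hb2 : -log (1 - p) ≤ 2 * p := by
    refine (b_le (by linarith)).trans ?_
    rw [div_le_iff₀ hq]
    nlinarith
  -- a ≤ 1 / (p e)
  have he : 2.7 < exp 1 := by
    have := Real.exp_one_gt_d9
    linarith
  have ha2 : p * (-log p) * exp 1 ≤ 1 := by
    have h3 := Real.log_le_sub_one_of_pos (show 0 < 1 / (p * exp 1) by positivity)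
    rw [Real.log_div one_ne_zero (by positivity), Real.log_one, Real.log_mul h0.ne' (exp_pos 1).ne',
      Real.log_exp] at h3
    have h4 : -log p ≤ 1 / (p * exp 1) := by linarith
    have h5 := mul_le_mul_of_nonneg_left h4 (show 0 ≤ p * exp 1 by positivity)
    rw [mul_div_cancel₀ _ (show p * exp 1 ≠ 0 by positivity)] at h5
    nlinarith
  have h6 : (-log p) * (-log (1 - p)) ≤ (-log p) * (2 * p) := mul_le_mul_of_nonneg_left hb2 ha.le
  have h7 : 0 < p * (-log p) := by positivity
  nlinarith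

/-- (L8) -/
lemma h_le {p : ℝ} (h0 : 0 < p) (h1 : p < 1) :
    (-log p + -log (1 - p)) / 2 - log 2 ≤ ((-log p - -log (1 - p)) / 2) ^ 2 / 2 := by
  have hq : 0 < 1 - p := by linarith
  set a := -log p with ha
  set b := -log (1 - p) with hb
  have ea : exp (-a) = p := by rw [ha, neg_neg, exp_log h0]
  have eb : exp (-b) = 1 - p := by rw [hb, neg_neg, exp_log hq]
  have h2 := Real.cosh_le_exp_half_sq ((a - b) / 2)
  rw [Real.cosh_eq] at h2
  have h3 : exp (-((a + b) / 2)) * exp ((a - b) / 2) = exp (-b) := by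
    rw [← exp_add]; congr 1; ring
  have h4 : exp (-((a + b) / 2)) * exp (-((a - b) / 2)) = exp (-a) := by
    rw [← exp_add]; congr 1; ring
  have h5 := mul_le_mul_of_nonneg_left h2 (exp_pos (-((a + b) / 2))).le
  have h6 : exp (-((a + b) / 2)) * ((exp ((a - b) / 2) + exp (-((a - b) / 2))) / 2) = 1 / 2 := by
    rw [mul_div_assoc', mul_add, h3, h4, ea, eb]
    ring
  rw [h6, ← exp_add] at h5
  have h7 := Real.log_le_log (by norm_num) h5
  rw [Real.log_exp, one_div, Real.log_inv] at h7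
  linarith

/-- `log r ≤ (r - 1/r)/2`. -/
lemma log_le_half {r : ℝ} (hr : 1 ≤ r) : log r ≤ (r - r⁻¹) / 2 := by
  have h0 : 0 < r := by linarith
  have h1 := Real.self_le_sinh_iff.mpr (Real.log_nonneg hr)
  rwa [Real.sinh_log h0] at h1

lemma log_div_le {X Y : ℝ} (hY : 0 < Y) (hXY : Y ≤ X) :
    log X - log Y ≤ (X - Y) / 2 * (1 / X + 1 / Y) := by
  have hX : 0 < X := by linarith
  have h1 := log_le_half (r := X / Y) (by rw [le_div_iff₀ hY]; linarith)
  rw [Real.log_div hX.ne' hY.ne'] at h1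
  refine h1.trans (le_of_eq ?_)
  field_simp
  ring

/-- `log X - log Y ≥ 2 (X - Y) / (X + Y)`. -/
lemma le_log_div {X Y : ℝ} (hY : 0 < Y) (hXY : Y ≤ X) :
    2 * (X - Y) / (X + Y) ≤ log X - log Y := by
  have hX : 0 < X := by linarith
  have h1 := Real.le_log_one_add_of_nonneg (x := (X - Y) / Y) (by
    apply div_nonneg (by linarith) hY.le)
  have e : 1 + (X - Y) / Y = X / Y := by field_simp; ring
  have e2 : (X - Y) / Y + 2 = (X + Y) / Y := by field_simp; ring
  rw [e, e2, Real.log_div hX.ne' hY.ne', mul_div_assoc', div_div_div_cancel_right₀ hY.ne'] at h1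
  exact h1

/-- (L9) trapezoid inequality for one factor. -/
lemma trap {r a b t : ℝ} (hb : b ≤ a) (ha : a < r) (ht0 : 0 ≤ t) (ht : t ≤ 1 / 2) :
    log (r - b) - log (r - a) ≤ (a - b) * ((1 - t) * (1 / (r - a)) + t * (1 / (r - b))) := by
  have hY : 0 < r - a := by linarith
  have hX : 0 < r - b := by linarith
  have h1 := log_div_le hY (by linarith : r - a ≤ r - b)
  refine h1.trans ?_
  have h2 : 1 / (r - b) ≤ 1 / (r - a) := one_div_le_one_div_of_le hY (by linarith)
  have e : (r - b - (r - a)) = a - b := by ring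
  rw [e]
  have h3 : 0 ≤ a - b := by linarith
  have h4 : (1 / (r - b) + 1 / (r - a)) / 2 ≤ (1 - t) * (1 / (r - a)) + t * (1 / (r - b)) := by
    nlinarith
  have h5 := mul_le_mul_of_nonneg_left h4 h3
  linarith

end Pool.Agent.H17.KU
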