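import Pool.Agent.H17.KU.Ana1

/-! Second derivative of `SS` and the region where it is positive. -/

namespace Pool.Agent.H17.KU

open Real Set V11309.KRec

/-- the quadratic polynomial in `φ'' = φ Q / (w y)^2`. -/
noncomputable def QQ (n m w : ℝ) : ℝ := m * (m - 1) * w ^ 2 - n * (2 * m - 1) * w + n * (n - 1)

noncomputable def ddSA (N M : ℕ) (u : ℝ) : ℝ :=
  (-log u) ^ N * u ^ M * QQ ((N : ℝ) + 1) ((M : ℝ) + 1) (-log u) / ((-log u) * u)

lemma hasDerivAt_dSA (N M : ℕ) {u : ℝ} (h0 : 0 < u) (h1 : u < 1) :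
    HasDerivAt (dSA N M) (ddSA N M u) u := by
  have ha := a_pos h0 h1
  have d1 := ((hasDerivAt_a h0).pow N).mul (hasDerivAt_pow M u)
  have d2 := ((hasDerivAt_a h0).const_mul ((M : ℝ) + 1)).sub_const ((N : ℝ) + 1)
  refine (d1.mul d2).congr_deriv ?_
  unfold ddSA QQ
  simp only [Pi.mul_apply, Pi.pow_apply]
  have e1 : (N : ℝ) * (-log u) ^ (N - 1) = N * (-log u) ^ N / (-log u) := by
    rcases N with _ | N
    · simp
    · rw [Nat.add_sub_cancel, pow_succ]
      rw [mul_div_assoc, mul_div_cancel_right₀ _ ha.ne']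
  have e2 : (M : ℝ) * u ^ (M - 1) = M * u ^ M / u := by
    rcases M with _ | M
    · simp
    · rw [Nat.add_sub_cancel, pow_succ]
      rw [mul_div_assoc, mul_div_cancel_right₀ _ h0.ne']
  rw [e1, e2]
  have h0' := h0.ne'
  have ha' := ha.ne'
  generalize (-log u) = a at *
  field_simp
  ring

noncomputable def ddSS (N M : ℕ) (u : ℝ) : ℝ := ddSA N M u - ddSA N M (1 - u)

lemma dSS_eq (N M : ℕ) (u : ℝ) : dSS N M u = dSA N M u + dSA N M (1 - u) := by
  unfold dSS dSA
  ring

lemma hasDerivAt_dSS (N M : ℕ) {u : ℝ} (h0 : 0 < u) (h1 : u < 1) :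
    HasDerivAt (dSS N M) (ddSS N M u) u := by
  have h2 : HasDerivAt (fun u : ℝ => 1 - u) (-1) u := by
    simpa using (hasDerivAt_id u).const_sub 1
  have h3 : HasDerivAt (fun u => dSA N M (1 - u)) (ddSA N M (1 - u) * (-1)) u :=
    HasDerivAt.comp (h₂ := dSA N M) (h := fun u : ℝ => 1 - u) u
      (hasDerivAt_dSA N M (by linarith) (by linarith)) h2
  have h4 := (hasDerivAt_dSA N M h0 h1).add h3
  have e : dSS N M = fun u => dSA N M u + dSA N M (1 - u) := by
    ext v
    exact dSS_eq N M v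
  rw [e]
  refine HasDerivAt.congr_deriv h4 ?_
  unfold ddSS
  ring

/-- logarithm of `ddSA`. -/
lemma log_ddSA (N M : ℕ) {u : ℝ} (h0 : 0 < u) (h1 : u < 1) {Qa : ℝ}
    (hQ : Qa = QQ ((N : ℝ) + 1) ((M : ℝ) + 1) (-log u)) (hpos : 0 < Qa) :
    0 < ddSA N M u ∧ log (ddSA N M u) =
      ((N : ℝ) - 1) * log (-log u) - ((M : ℝ) - 1) * (-log u) + log Qa := by
  have ha := a_pos h0 h1
  have hx : 0 < (-log u) ^ N * u ^ M * Qa := by positivity
  have hy : 0 < (-log u) * u := by positivity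
  unfold ddSA
  rw [← hQ]
  refine ⟨by positivity, ?_⟩
  rw [Real.log_div hx.ne' hy.ne', Real.log_mul (by positivity) hpos.ne',
    Real.log_mul (by positivity) (by positivity), Real.log_pow, Real.log_pow,
    Real.log_mul ha.ne' h0.ne']
  ring

/-- Region A: where the quadratic polynomial is positive up to `a`, with the trapezoid property. -/
lemma regionA (N M : ℕ) (hN : 1 ≤ N) {p : ℝ} (h0 : 0 < p) (Qd : ℝ → ℝ)
    (hder : ∀ w, HasDerivAt (QQ ((N : ℝ) + 1) ((M : ℝ) + 1)) (Qd w) w)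
    (hpos : ∀ t, p ≤ t → t < 1 / 2 → 0 < QQ ((N : ℝ) + 1) ((M : ℝ) + 1) (-log t) ∧
      0 < QQ ((N : ℝ) + 1) ((M : ℝ) + 1) (-log (1 - t)))
    (htrap : ∀ t, p ≤ t → t < 1 / 2 → (-log t - -log (1 - t)) *
      ((1 - t) * (Qd (-log t) / QQ ((N : ℝ) + 1) ((M : ℝ) + 1) (-log t)) +
        t * (Qd (-log (1 - t)) / QQ ((N : ℝ) + 1) ((M : ℝ) + 1) (-log (1 - t)))) ≤
      log (QQ ((N : ℝ) + 1) ((M : ℝ) + 1) (-log t)) -
        log (QQ ((N : ℝ) + 1) ((M : ℝ) + 1) (-log (1 - t))))
    (hdd : 0 ≤ ddSS N M p) : ∀ t, p < t → t < 1 / 2 → 0 ≤ ddSS N M t := by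
  intro t hpt ht
  set Q := QQ ((N : ℝ) + 1) ((M : ℝ) + 1) with hQ
  -- the function M(t) / z(t)
  set F : ℝ → ℝ := fun v => (((N : ℝ) - 1) * (log (-log v) - log (-log (1 - v))) -
    ((M : ℝ) - 1) * (-log v - -log (1 - v)) + (log (Q (-log v)) - log (Q (-log (1 - v))))) /
    (-log v - -log (1 - v)) with hF
  have hFd : ∀ v, p ≤ v → v < 1 / 2 → ∃ d, 0 ≤ d ∧ HasDerivAt F d v := by
    intro v hv hv'
    have hv0 : 0 < v := by linarith
    have hv1 : v < 1 := by linarith
    have hq : 0 < 1 - v := by linarith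
    have ha := a_pos hv0 hv1
    have hb := b_pos hv0 hv1
    have hz : 0 < -log v - -log (1 - v) := by linarith [b_lt_a hv0 hv']
    obtain ⟨q1, q2⟩ := hpos v hv hv'
    have ht' := htrap v hv hv'
    have hG := phi_mul_le hv0 hv'
    have c1 : HasDerivAt (fun v : ℝ => Q (-log v)) (Qd (-log v) * (-v⁻¹)) v :=
      HasDerivAt.comp (h₂ := Q) (h := fun v : ℝ => -log v) v (hder _) (hasDerivAt_a hv0)
    have c2 : HasDerivAt (fun v : ℝ => Q (-log (1 - v))) (Qd (-log (1 - v)) * ((1 - v)⁻¹)) v :=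
      HasDerivAt.comp (h₂ := Q) (h := fun v : ℝ => -log (1 - v)) v (hder _) (hasDerivAt_b hv1)
    have d1 := (((hasDerivAt_a hv0).log ha.ne').sub ((hasDerivAt_b hv1).log hb.ne')).const_mul
      ((N : ℝ) - 1)
    have dz := (hasDerivAt_a hv0).sub (hasDerivAt_b hv1)
    have d2 := dz.const_mul ((M : ℝ) - 1)
    have d3 := (c1.log q1.ne').sub (c2.log q2.ne')
    have d4 := ((d1.sub d2).add d3).div dz hz.ne'
    refine ⟨_, ?_, d4⟩
    apply div_nonneg _ (by positivity)
    have hN' : (0 : ℝ) ≤ (N : ℝ) - 1 := by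
      have : (1 : ℝ) ≤ N := by exact_mod_cast hN
      linarith
    simp only [Pi.sub_apply, Pi.add_apply]
    unfold phi at hG
    have hv0' := hv0.ne'
    have hq' := hq.ne'
    have ha' := ha.ne'
    have hb' := hb.ne'
    have q1' := q1.ne'
    have q2' := q2.ne'
    generalize (log (Q (-log v)) - log (Q (-log (1 - v)))) = LQ at *
    generalize (log (-log v) - log (-log (1 - v))) = LL at *
    generalize (Qd (-log v)) = D1 at *
    generalize (Qd (-log (1 - v))) = D2 at *
    generalize (Q (-log v)) = Q1 at *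
    generalize (Q (-log (1 - v))) = Q2 at *
    generalize (-log v) = a at *
    generalize (-log (1 - v)) = b at *
    have key : 0 ≤ ((N : ℝ) - 1) * (LL - (a - b) * ((1 - v) / a + v / b)) +
        (LQ - (a - b) * ((1 - v) * (D1 / Q1) + v * (D2 / Q2))) := by
      have := mul_nonneg hN' (sub_nonneg.mpr hG)
      linarith
    have key2 : 0 ≤ (((N : ℝ) - 1) * (LL - (a - b) * ((1 - v) / a + v / b)) +
        (LQ - (a - b) * ((1 - v) * (D1 / Q1) + v * (D2 / Q2)))) / (v * (1 - v)) :=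
      div_nonneg key (by positivity)
    refine key2.trans (le_of_eq ?_)
    field_simp
    ring
  have hmono : MonotoneOn F (Icc p t) := by
    apply monotoneOn_of_deriv_nonneg (convex_Icc _ _)
    · intro v hv
      obtain ⟨d, _, hd⟩ := hFd v hv.1 (by linarith [hv.2])
      exact hd.continuousAt.continuousWithinAt
    · intro v hv
      rw [interior_Icc] at hv
      obtain ⟨d, _, hd⟩ := hFd v hv.1.le (by linarith [hv.2])
      exact hd.differentiableAt.differentiableWithinAt
    · intro v hv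
      rw [interior_Icc] at hv
      obtain ⟨d, hd0, hd⟩ := hFd v hv.1.le (by linarith [hv.2])
      rw [hd.deriv]
      exact hd0
  have hle := hmono ⟨le_rfl, hpt.le⟩ ⟨hpt.le, le_rfl⟩ hpt.le
  have hp1 : p < 1 / 2 := by linarith
  have ht0 : 0 < t := by linarith
  -- the relation with the second derivative
  have hrel : ∀ v, p ≤ v → v < 1 / 2 → (0 ≤ ddSS N M v ↔ 0 ≤ F v) := by
    intro v hv hv'
    have hv0 : 0 < v := by linarith
    have hz : 0 < -log v - -log (1 - v) := by linarith [b_lt_a hv0 hv']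
    obtain ⟨q1, q2⟩ := hpos v hv hv'
    obtain ⟨x1, x2⟩ := log_ddSA N M hv0 (by linarith) (Qa := Q (-log v)) (by rw [hQ]) q1
    obtain ⟨y1, y2⟩ := log_ddSA N M (u := 1 - v) (by linarith) (by linarith)
      (Qa := Q (-log (1 - v))) (by rw [hQ]) q2
    have e : F v = (log (ddSA N M v) - log (ddSA N M (1 - v))) / (-log v - -log (1 - v)) := by
      rw [x2, y2, hF]
      simp only
      congr 1
      ring
    rw [e]
    constructor
    · intro h
      apply div_nonneg _ hz.le
      have : ddSA N M (1 - v) ≤ ddSA N M v := by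
        unfold ddSS at h
        linarith
      have := Real.log_le_log y1 this
      linarith
    · intro h
      have h2 : 0 ≤ log (ddSA N M v) - log (ddSA N M (1 - v)) := by
        by_contra hcon
        push Not at hcon
        have := div_neg_of_neg_of_pos hcon hz
        linarith
      have h3 := (Real.log_le_log_iff y1 x1).mp (by linarith)
      unfold ddSS
      linarith
  exact (hrel t hpt.le ht).mpr (((hrel p le_rfl hp1).mp hdd).trans hle)

end Pool.Agent.H17.KU
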