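import Pool.Agent.H17.KU.Ana2

/-! The second derivative is negative outside of region A. -/

namespace Pool.Agent.H17.KU

open Real Set V11309.KRec

lemma log2_bounds : 0.6931471803 < log 2 ∧ log 2 < 0.6931471808 :=
  ⟨Real.log_two_gt_d9, Real.log_two_lt_d9⟩

/-- the identity behind case 2. -/
lemma ident {n m a b c : ℝ} (hm : m ≠ 0) (hc : c = n / m) :
    (1 - (c - b)) * (-QQ n m a) - (1 + (a - c)) * (-QQ n m b) =
      m * (m - 1) * (a - b) * (((a - b) / 2) ^ 2 - ((a + b) / 2 - c) ^ 2 - 2 * ((a + b) / 2 - c)) := by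
  have hn : n = c * m := by rw [hc]; field_simp
  unfold QQ
  rw [hn]
  ring

/-- case 3. -/
lemma alg3 {p a b n m X Y Qa Qb : ℝ} (h0 : 0 < p) (h1 : p < 1 / 2) (hb : 0 < b) (hba : b < a)
    (hn : 0 < n) (hm : 0 < m) (han : n < m * a) (hbn : m * b < n) (hX : 0 < X) (hY : 0 < Y)
    (hS : Y * (b * (1 - p)) < X * (a * p)) (hd : X * (m * a - n) < Y * (n - m * b))
    (hE : (p * a) ^ 2 - ((1 - p) * b) ^ 2 < p * (1 - p) * (a * b) * (a - b))
    (hQa : Qa = QQ n m a) (hQb : Qb = QQ n m b) (hpos : 0 < Qa) :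
    X * Qa / (a * p) < Y * Qb / (b * (1 - p)) := by
  have hq : 0 < 1 - p := by linarith
  have ha : 0 < a := by linarith
  have hab : 0 < a - b := by linarith
  have hpq : (1 - p) + p = 1 := by ring
  have hp' : p = 1 - (1 - p) := by ring
  set q := 1 - p with hqdef
  set h := p * a + q * b with hh
  have hhpos : 0 < h := by positivity
  have d1 : 0 < m * a - n := by linarith
  have d2 : 0 < n - m * b := by linarith
  -- (II)
  have hII : m * (a * b) < n * h := by
    have s3 : (b * q) * (X * (m * a - n)) < (b * q) * (Y * (n - m * b)) :=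
      mul_lt_mul_of_pos_left hd (by positivity)
    have s4 : (Y * (b * q)) * (n - m * b) < (X * (a * p)) * (n - m * b) :=
      mul_lt_mul_of_pos_right hS d2
    have s5 : X * (b * q * (m * a - n)) < X * (a * p * (n - m * b)) := by nlinarith
    have s6 := lt_of_mul_lt_mul_left s5 hX.le
    have : q * (m * (a * b)) + p * (m * (a * b)) = m * (a * b) := by
      rw [← add_mul, hpq, one_mul]
    nlinarith
  have e1 : (m * a - n) * h ≤ m * a * p * (a - b) := by
    have : m * a * p * (a - b) = m * a * h - m * (a * b) := by rw [hh, hqdef]; ring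
    rw [this]
    nlinarith
  have e2 : m * b * q * (a - b) ≤ (n - m * b) * h := by
    have : m * b * q * (a - b) = m * (a * b) - m * b * h := by rw [hh, hqdef]; ring
    rw [this]
    nlinarith
  have f1 : q * h / (a * p * (a - b)) ≤ m * q / (m * a - n) := by
    rw [div_le_div_iff₀ (by positivity) d1]
    have := mul_le_mul_of_nonneg_left e1 hq.le
    nlinarith
  have f2 : m * p / (n - m * b) ≤ p * h / (b * q * (a - b)) := by
    rw [div_le_div_iff₀ d2 (by positivity)]
    have := mul_le_mul_of_nonneg_left e2 h0.le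
    nlinarith
  have f3 : h / (a * b) - 1 < q * h / (a * p * (a - b)) - p * h / (b * q * (a - b)) := by
    have g1 : q * h / (a * p * (a - b)) - p * h / (b * q * (a - b)) - (h / (a * b) - 1) =
        (p * q * (a * b) * (a - b) - ((p * a) ^ 2 - (q * b) ^ 2)) / (p * q * (a * b) * (a - b)) := by
      rw [hh]
      have hab' := hab.ne'
      have h0' := h0.ne'
      field_simp
      rw [hp']
      ring
    have g2 : 0 < (p * q * (a * b) * (a - b) - ((p * a) ^ 2 - (q * b) ^ 2)) /
        (p * q * (a * b) * (a - b)) := by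
      apply div_pos (by linarith) (by positivity)
    linarith
  have f4 : m < n * (h / (a * b)) := by
    rw [← mul_div_assoc, lt_div_iff₀ (by positivity)]
    exact hII
  have f5 : 0 < (n - 1) * (h / (a * b)) - (m - 1) + m * q / (m * a - n) - m * p / (n - m * b) := by
    linarith
  -- multiply out
  have f6 : (n - m * b) * (b * q) * Qa < (m * a - n) * (a * p) * Qb := by
    have e : (m * a - n) * (a * p) * Qb - (n - m * b) * (b * q) * Qa =
        ((m * a - n) * (n - m * b) * (a * b)) *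
        ((n - 1) * (h / (a * b)) - (m - 1) + m * q / (m * a - n) - m * p / (n - m * b)) := by
      rw [hQa, hQb, hh]
      unfold QQ
      have d1' := d1.ne'
      have d2' := d2.ne'
      field_simp
      rw [hp']
      ring
    have : 0 < ((m * a - n) * (n - m * b) * (a * b)) *
        ((n - 1) * (h / (a * b)) - (m - 1) + m * q / (m * a - n) - m * p / (n - m * b)) :=
      mul_pos (by positivity) f5
    linarith
  rw [div_lt_div_iff₀ (by positivity) (by positivity)]
  have g1 : (X * (m * a - n)) * (Qa * (b * q)) < (Y * (n - m * b)) * (Qa * (b * q)) :=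
    mul_lt_mul_of_pos_right hd (by positivity)
  have g2 : Y * ((n - m * b) * (b * q) * Qa) < Y * ((m * a - n) * (a * p) * Qb) :=
    mul_lt_mul_of_pos_left f6 hY
  have g3 : (m * a - n) * (X * Qa * (b * q)) < (m * a - n) * (Y * Qb * (a * p)) := by nlinarith
  exact lt_of_mul_lt_mul_left g3 d1.le

/-- bound from the non-degeneracy. -/
lemma nz_bound (N M : ℕ) (hnz : (((M : ℝ) + 2) / ((M : ℝ) + 3)) ^ (N + 2) < 1 / 2) (hM : 9 ≤ M) :
    (0.0246 : ℝ) ≤ ((N : ℝ) + 1) - ((M : ℝ) + 1) * log 2 := by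
  have hM' : (9 : ℝ) ≤ M := by exact_mod_cast hM
  obtain ⟨hL1, hL2⟩ := log2_bounds
  have hr : (1 : ℝ) ≤ ((M : ℝ) + 3) / ((M : ℝ) + 2) := by
    rw [le_div_iff₀ (by positivity)]
    linarith
  have h1 := log_le_half hr
  have h2 := Real.log_lt_log (by positivity) hnz
  rw [Real.log_pow, one_div, Real.log_inv] at h2
  have e1 : log (((M : ℝ) + 2) / ((M : ℝ) + 3)) = - log (((M : ℝ) + 3) / ((M : ℝ) + 2)) := by
    rw [← Real.log_inv, inv_div]
  rw [e1] at h2
  have e2 : (((M : ℝ) + 3) / ((M : ℝ) + 2) - (((M : ℝ) + 3) / ((M : ℝ) + 2))⁻¹) / 2 =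
      (2 * M + 5) / (2 * ((M : ℝ) + 2) * ((M : ℝ) + 3)) := by
    rw [inv_div]
    field_simp
    ring
  rw [e2] at h1
  have h3 : log 2 < ((N : ℝ) + 2) * ((2 * M + 5) / (2 * ((M : ℝ) + 2) * ((M : ℝ) + 3))) := by
    have h4 : ((N : ℝ) + 2) * log (((M : ℝ) + 3) / ((M : ℝ) + 2)) ≤
      ((N : ℝ) + 2) * ((2 * M + 5) / (2 * ((M : ℝ) + 2) * ((M : ℝ) + 3))) :=
      mul_le_mul_of_nonneg_left h1 (by positivity)
    push_cast at h2
    linarith
  rw [← mul_div_assoc, lt_div_iff₀ (by positivity)] at h3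
  nlinarith

/-- the numerical inequality for `n < m`. -/
lemma num_lt (N M : ℕ) (hNM : ((M : ℝ) + 1) * log 2 < (N : ℝ) + 1) (hlt : N < M)
    (hnz : (((M : ℝ) + 2) / ((M : ℝ) + 3)) ^ (N + 2) < 1 / 2) :
    3 ≤ M ∧ 64 / 81 * (((N : ℝ) + 1) / ((M : ℝ) + 1)) ^ 2 <
      (((N : ℝ) + 1) - ((M : ℝ) + 1) * log 2) *
        (2 * ((M : ℝ) + 1) - (((N : ℝ) + 1) - ((M : ℝ) + 1) * log 2)) := by
  obtain ⟨hL1, hL2⟩ := log2_bounds
  have hlt' : (N : ℝ) + 1 ≤ M := by exact_mod_cast hlt
  have hM3 : 3 ≤ M := by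
    by_contra hcon
    push Not at hcon
    have : (M : ℝ) ≤ 2 := by exact_mod_cast (by omega : M ≤ 2)
    nlinarith
  refine ⟨hM3, ?_⟩
  set n : ℝ := (N : ℝ) + 1 with hn
  set m : ℝ := (M : ℝ) + 1 with hm
  have hn0 : 0 < n := by positivity
  have hm0 : 0 < m := by positivity
  have hM3' : (3 : ℝ) ≤ M := by exact_mod_cast hM3
  set d := n - m * log 2 with hd
  have hd0 : 0 < d := by rw [hd]; linarith
  have hd1 : d ≤ 0.3069 * m := by rw [hd]; nlinarith
  have hc1 : (n / m) ^ 2 ≤ 1 := by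
    have h1 : n / m ≤ 1 := by rw [div_le_one hm0]; linarith
    have h2 : 0 ≤ n / m := by positivity
    nlinarith
  have hR : 1.69 * m * d ≤ d * (2 * m - d) := by nlinarith
  refine lt_of_lt_of_le ?_ hR
  rcases Nat.lt_or_ge M 9 with hM9 | hM9
  · -- m * d ≥ 0.9
    have key : 0.9 ≤ m * d := by
      rw [hd, hm, hn]
      rw [hn, hm] at hNM
      have hN : N < M := hlt
      interval_cases M <;> interval_cases N <;>
        first
        | (exfalso; norm_num at hNM; linarith)
        | (norm_num; nlinarith)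
    nlinarith
  · have hdb : 0.0246 ≤ d := nz_bound N M hnz hM9
    have hM9' : (9 : ℝ) ≤ M := by exact_mod_cast hM9
    have hm10 : 10 ≤ m := by rw [hm]; linarith
    have ec : n / m = log 2 + d / m := by
      rw [hd]
      field_simp
      ring
    have ht : d / m ≤ d / 10 := div_le_div_of_nonneg_left hd0.le (by norm_num) hm10
    have ht0 : 0 ≤ d / m := by positivity
    have ht2 : d / m ≤ 0.3069 := by rw [div_le_iff₀ hm0]; exact hd1
    rw [ec]
    set t := d / m with htdef
    have h1 : (log 2 + t) ^ 2 ≤ 0.48046 + 1.6934 * t := by nlinarith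
    have h2 : 16.9 * d ≤ 1.69 * m * d := by nlinarith
    linarith

/-- `ζ ≤ 1/2`. -/
lemma zeta_le {p c m : ℝ} (h0 : 0 < p) (h1 : p < 1 / 2) (hm : 4 ≤ m) (hc : log 2 < c)
    (hQ : m * (c - -log (1 - p)) ^ 2 ≤ c - -log (1 - p) * (c - -log (1 - p))) :
    -log p - -log (1 - p) ≤ 1 := by
  by_contra hcon
  push Not at hcon
  obtain ⟨hL1, hL2⟩ := log2_bounds
  have hq : 0 < 1 - p := by linarith
  have hb := b_pos h0 (by linarith : p < 1)
  set a := -log p with ha'
  set b := -log (1 - p) with hb'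
  have ea : exp (-a) = p := by rw [ha', neg_neg, exp_log h0]
  have eb : exp (-b) = 1 - p := by rw [hb', neg_neg, exp_log hq]
  have h2 : exp (-a) < exp (-b) * exp (-1) := by
    rw [← exp_add]
    exact exp_lt_exp.mpr (by linarith)
  have h3 : 1 < exp (-b) * (1 + exp (-1)) := by
    have : exp (-a) + exp (-b) = 1 := by rw [ea, eb]; ring
    linarith
  have h4 : exp b < 1 + exp (-1) := by
    have h5 := mul_lt_mul_of_pos_left h3 (exp_pos b)
    rw [← mul_assoc, ← exp_add, add_neg_cancel, exp_zero, one_mul, mul_one] at h5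
    exact h5
  have h6 : exp (-1) < 0.3678794412 := Real.exp_neg_one_lt_d9
  have h7 : 1.3679 ≤ exp 0.3133 := by
    have := Real.sum_le_exp_of_nonneg (show (0 : ℝ) ≤ 0.3133 by norm_num) 5
    refine le_trans ?_ this
    norm_num [Finset.sum_range_succ, Nat.factorial]
  have h8 : b < 0.3133 := exp_lt_exp.mp (by linarith)
  set y := c - b with hy
  have hy0 : 0.3798 ≤ y := by rw [hy]; linarith
  have hc' : c = b + y := by rw [hy]; ring
  have h9 : 4 * y ^ 2 ≤ c - b * y := by nlinarith [sq_nonneg y]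
  rw [hc'] at h9
  nlinarith

end Pool.Agent.H17.KU
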