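import Pool.Agent.H17.KU.Ana3

/-! The second derivative is negative outside of region A: assembly. -/

namespace Pool.Agent.H17.KU

open Real Set V11309.KRec

lemma log_gen (N M : ℕ) {u Qa : ℝ} (h0 : 0 < u) (h1 : u < 1) (hpos : 0 < Qa) :
    0 < (-log u) ^ N * u ^ M * Qa / ((-log u) * u) ∧
    log ((-log u) ^ N * u ^ M * Qa / ((-log u) * u)) =
      ((N : ℝ) - 1) * log (-log u) - ((M : ℝ) - 1) * (-log u) + log Qa := by
  have ha := a_pos h0 h1
  have hx : 0 < (-log u) ^ N * u ^ M * Qa := by positivity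
  have hy : 0 < (-log u) * u := by positivity
  refine ⟨by positivity, ?_⟩
  rw [Real.log_div hx.ne' hy.ne', Real.log_mul (by positivity) hpos.ne',
    Real.log_mul (by positivity) (by positivity), Real.log_pow, Real.log_pow,
    Real.log_mul ha.ne' h0.ne']
  ring

lemma QQ_rel {n m c b : ℝ} (hm : m ≠ 0) (hc : c = n / m) :
    QQ n m b = m * (m * (c - b) ^ 2 - (c - b * (c - b))) := by
  have hn : n = c * m := by rw [hc]; field_simp
  unfold QQ
  rw [hn]
  ring

/-- `SS > 0` in logarithmic form. -/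
lemma SS_pos_log {N M : ℕ} {p : ℝ} (h0 : 0 < p) (h1 : p < 1) (hS : 0 < SS N M p) :
    ((M : ℝ) + 1) * (-log p - -log (1 - p)) <
      ((N : ℝ) + 1) * (log (-log p) - log (-log (1 - p))) := by
  have hq : 0 < 1 - p := by linarith
  have ha := a_pos h0 h1
  have hb := b_pos h0 h1
  unfold SS SA at hS
  have h2 : (-log (1 - p)) ^ (N + 1) * (1 - p) ^ (M + 1) < (-log p) ^ (N + 1) * p ^ (M + 1) := by
    linarith
  have h3 := Real.log_lt_log (by positivity) h2
  rw [Real.log_mul (by positivity) (by positivity), Real.log_mul (by positivity) (by positivity),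
    Real.log_pow, Real.log_pow, Real.log_pow, Real.log_pow] at h3
  push_cast at h3
  linarith

lemma aux_y {ζ h ε : ℝ} (h0 : 0 ≤ ζ) (h1 : ζ ≤ 1 / 2) (hh : h ≤ ζ ^ 2 / 2) (hε : 0 ≤ ε) :
    3 / 4 * ζ ≤ ε + ζ - h := by
  have : ζ ^ 2 ≤ 1 / 2 * ζ := by nlinarith
  linarith

lemma aux_E1 {ζ h ε m c y : ℝ} (hm : 0 < m) (h0 : 0 ≤ ζ) (hh : h ≤ ζ ^ 2 / 2)
    (hε0 : 0 ≤ ε) (hε1 : ε < 0.307) (hh0 : -0.35 ≤ h) (hyc : m * y ^ 2 ≤ c)
    (hy : 3 / 4 * ζ ≤ y) (hnum : 64 / 81 * c ^ 2 < m ^ 2 * (2 * ε - ε ^ 2)) :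
    (1 + (h - ε)) ^ 2 < 1 + ζ ^ 2 := by
  have hy2 : 9 / 16 * ζ ^ 2 ≤ y ^ 2 := by
    have := pow_le_pow_left₀ (by positivity) hy 2
    have e : (3 / 4 * ζ) ^ 2 = 9 / 16 * ζ ^ 2 := by ring
    rwa [e] at this
  have hζ4 : m ^ 2 * ζ ^ 4 ≤ 256 / 81 * c ^ 2 := by
    have h5 : 9 / 16 * (m * ζ ^ 2) ≤ c := by
      have := mul_le_mul_of_nonneg_left hy2 hm.le
      linarith
    have h6 : 0 ≤ 9 / 16 * (m * ζ ^ 2) := by positivity
    have h7 : (9 / 16 * (m * ζ ^ 2)) ^ 2 ≤ c ^ 2 := pow_le_pow_left₀ h6 h5 2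
    have h8 : (9 / 16 * (m * ζ ^ 2)) ^ 2 = 81 / 256 * (m ^ 2 * ζ ^ 4) := by ring
    rw [h8] at h7
    linarith
  have hm2pos : 0 < m ^ 2 := by positivity
  have h9 : ζ ^ 4 / 4 < 2 * ε - ε ^ 2 := by
    have : m ^ 2 * (ζ ^ 4 / 4) < m ^ 2 * (2 * ε - ε ^ 2) := by linarith
    exact lt_of_mul_lt_mul_left this hm2pos.le
  have h10 : 1 + (h - ε) ≤ 1 + ζ ^ 2 / 2 - ε := by linarith
  have h11 : 0 ≤ 1 + (h - ε) := by linarith
  have h12 : (1 + (h - ε)) ^ 2 ≤ (1 + ζ ^ 2 / 2 - ε) ^ 2 := pow_le_pow_left₀ h11 h10 2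
  have h13 : 0 ≤ ε * ζ ^ 2 := by positivity
  have h14 : (1 + ζ ^ 2 / 2 - ε) ^ 2 = 1 + ζ ^ 2 + ζ ^ 4 / 4 - 2 * ε + ε ^ 2 - ε * ζ ^ 2 := by ring
  linarith

lemma aux_c2 {b c m : ℝ} (hm : 2 ≤ m) (hb : 0 < b) (hb1 : b < 0.7)
    (hyQ : m * (c - b) ^ 2 ≤ c - b * (c - b)) (hc2 : 2 ≤ c) : False := by
  have h2 : 2 * (c - b) ^ 2 ≤ c - b * (c - b) := by
    have := mul_le_mul_of_nonneg_right hm (sq_nonneg (c - b))
    linarith
  have hy : 1.3 ≤ c - b := by linarith
  nlinarith

lemma aux_y1 {b c m : ℝ} (hm : 2 ≤ m) (hb : 0 < b)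
    (hyQ : m * (c - b) ^ 2 ≤ c - b * (c - b)) (hc : b < c) : 0 < 1 - (c - b) := by
  by_contra hcon
  push Not at hcon
  have h2 : 2 * (c - b) ^ 2 ≤ c - b * (c - b) := by
    have := mul_le_mul_of_nonneg_right hm (sq_nonneg (c - b))
    linarith
  set y := c - b with hy
  have h3 : c = b + y := by rw [hy]; ring
  rw [h3] at h2
  nlinarith

lemma aux_ge {a b c : ℝ} (hb : 0 < b) (ha : 0.69 < a) (hab : a * b < 1) (hc1 : 1 ≤ c)
    (hc2 : c < 2) : (1 + ((a + b) / 2 - c)) ^ 2 < 1 + ((a - b) / 2) ^ 2 := by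
  have h3 : ((a + b) / 2) ^ 2 = ((a - b) / 2) ^ 2 + a * b := by ring
  rcases le_or_gt 0 (1 + ((a + b) / 2 - c)) with h4 | h4
  · have h5 : (1 + ((a + b) / 2 - c)) ^ 2 ≤ ((a + b) / 2) ^ 2 :=
      pow_le_pow_left₀ h4 (by linarith) 2
    linarith
  · have h5 : -(0.7 : ℝ) ≤ 1 + ((a + b) / 2 - c) := by linarith
    have h6 : (1 + ((a + b) / 2 - c)) ^ 2 ≤ 0.49 := by nlinarith
    have := sq_nonneg ((a - b) / 2)
    linarith

/-- case 2: `Q(b) ≤ 0`. -/
lemma case2 (N M : ℕ) (hM : 1 ≤ M) {p : ℝ} (h0 : 0 < p) (h1 : p < 1 / 2)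
    (hNM : ((M : ℝ) + 1) * log 2 < (N : ℝ) + 1)
    (hnz : (((M : ℝ) + 2) / ((M : ℝ) + 3)) ^ (N + 2) < 1 / 2)
    (hS : 0 < SS N M p)
    (hQb : QQ ((N : ℝ) + 1) ((M : ℝ) + 1) (-log (1 - p)) ≤ 0) : ddSS N M p < 0 := by
  obtain ⟨hL1, hL2⟩ := log2_bounds
  have hq : 0 < 1 - p := by linarith
  have hp1 : p < 1 := by linarith
  have ha := a_pos h0 hp1
  have hb := b_pos h0 hp1
  have hM' : (1 : ℝ) ≤ M := by exact_mod_cast hM
  have hN1 : 1 ≤ N := by
    by_contra hcon
    have : N = 0 := by omega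
    rw [this] at hNM
    push_cast at hNM
    nlinarith
  have hN1' : (1 : ℝ) ≤ N := by exact_mod_cast hN1
  have hba := b_lt_a h0 h1
  have hbL := b_lt_log2 h0 h1
  have haL := log2_lt_a h0 h1
  have hG := phi_mul_le h0 h1
  have hphi := one_le_phi h0 hp1
  have hL3 := log_ratio_le h0 h1
  have hab1 := ab_lt_one h0 h1
  have hh := h_le h0 hp1
  have hSl := SS_pos_log h0 hp1 hS
  -- goal in terms of X, Y
  have hgoal : ddSS N M p = (-log p) ^ N * p ^ M * QQ ((N : ℝ) + 1) ((M : ℝ) + 1) (-log p) /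
      ((-log p) * p) - (-log (1 - p)) ^ N * (1 - p) ^ M *
        QQ ((N : ℝ) + 1) ((M : ℝ) + 1) (-log (1 - p)) / ((-log (1 - p)) * (1 - p)) := rfl
  rw [hgoal]
  set n : ℝ := (N : ℝ) + 1 with hn
  set m : ℝ := (M : ℝ) + 1 with hm
  have hn0 : 0 < n := by positivity
  have hm0 : 0 < m := by positivity
  have hm2 : 2 ≤ m := by rw [hm]; linarith
  set c := n / m with hc
  have hcL : log 2 < c := by
    rw [hc, lt_div_iff₀ hm0]
    linarith
  have hid := ident (n := n) (m := m) (a := -log p) (b := -log (1 - p)) hm0.ne' hc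
  have hrel := QQ_rel (n := n) (m := m) (b := -log (1 - p)) hm0.ne' hc
  have hyQ : m * (c - -log (1 - p)) ^ 2 ≤ c - -log (1 - p) * (c - -log (1 - p)) := by
    rw [hrel] at hQb
    have := nonpos_of_mul_nonpos_right hQb hm0
    linarith
  -- the key estimate
  have hE1 : (1 + ((-log p + -log (1 - p)) / 2 - c)) ^ 2 < 1 + ((-log p - -log (1 - p)) / 2) ^ 2 ∧
      (N < M → 1 + ((-log p + -log (1 - p)) / 2 - c) ≤ 9 / 8) := by
    rcases Nat.lt_or_ge N M with hlt | hge
    · obtain ⟨hM3, hnum⟩ := num_lt N M hNM hlt hnz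
      rw [← hn, ← hm] at hnum
      have hm4 : 4 ≤ m := by
        have : (3 : ℝ) ≤ M := by exact_mod_cast hM3
        rw [hm]; linarith
      have hz := zeta_le h0 h1 hm4 hcL hyQ
      have hc1 : c < 1 := by
        rw [hc, div_lt_one hm0, hn, hm]
        have : (N : ℝ) < M := by exact_mod_cast hlt
        linarith
      rw [← hc] at hnum
      have hcm : n = c * m := by rw [hc]; field_simp
      have hz' : 0 ≤ (-log p - -log (1 - p)) / 2 := by linarith
      have hε0 : 0 < c - log 2 := by linarith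
      have he : (-log p + -log (1 - p)) / 2 - c =
        ((-log p + -log (1 - p)) / 2 - log 2) - (c - log 2) := by ring
      have hnum2 : 64 / 81 * c ^ 2 < m ^ 2 * (2 * (c - log 2) - (c - log 2) ^ 2) := by
        have e1 : (n - m * log 2) * (2 * m - (n - m * log 2)) =
            m ^ 2 * (2 * (c - log 2) - (c - log 2) ^ 2) := by
          rw [hcm]; ring
        rw [← e1]
        exact hnum
      have hy := aux_y hz' (by linarith) hh hε0.le
      have hy' : 3 / 4 * ((-log p - -log (1 - p)) / 2) ≤ c - -log (1 - p) := by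
        have e : c - log 2 + (-log p - -log (1 - p)) / 2 -
          ((-log p + -log (1 - p)) / 2 - log 2) = c - -log (1 - p) := by ring
        rw [e] at hy
        exact hy
      have hyc : m * (c - -log (1 - p)) ^ 2 ≤ c := by
        have : 0 < -log (1 - p) * (c - -log (1 - p)) := mul_pos hb (by linarith)
        linarith
      rw [he]
      refine ⟨aux_E1 hm0 hz' hh hε0.le (by linarith) (by linarith) hyc hy' hnum2, fun _ => ?_⟩
      have h8 : ((-log p - -log (1 - p)) / 2) ^ 2 ≤ 1 / 4 := by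
        have := pow_le_pow_left₀ hz' (show (-log p - -log (1 - p)) / 2 ≤ 1 / 2 by linarith) 2
        norm_num at this ⊢
        exact this
      linarith
    · refine ⟨?_, fun h => absurd h (not_lt.mpr hge)⟩
      have hc1 : 1 ≤ c := by
        rw [hc, le_div_iff₀ hm0, hn, hm]
        have : (M : ℝ) ≤ N := by exact_mod_cast hge
        linarith
      have hc2 : c < 2 := by
        by_contra hcon
        push Not at hcon
        exact aux_c2 hm2 hb (by linarith) hyQ hcon
      exact aux_ge hb (by linarith) hab1 hc1 hc2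
  obtain ⟨hE1, hE2⟩ := hE1
  -- 1 - y > 0
  have hy1 : 0 < 1 - (c - -log (1 - p)) := aux_y1 hm2 hb hyQ (by linarith)
  have hs1 : 0 < 1 + (-log p - c) := by linarith
  have hz : 0 < -log p - -log (1 - p) := by linarith
  have hpos2 : 0 < m * (m - 1) * (-log p - -log (1 - p)) *
      (((-log p - -log (1 - p)) / 2) ^ 2 - ((-log p + -log (1 - p)) / 2 - c) ^ 2 -
        2 * ((-log p + -log (1 - p)) / 2 - c)) := by
    have h5 : 0 < m - 1 := by linarith
    apply mul_pos (by positivity)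
    nlinarith
  have hQa : 0 < -QQ n m (-log p) := by
    have h6 : 0 ≤ (1 + (-log p - c)) * (-QQ n m (-log (1 - p))) := mul_nonneg hs1.le (by linarith)
    have h7 : 0 < (1 - (c - -log (1 - p))) * (-QQ n m (-log p)) := by linarith
    exact pos_of_mul_pos_right h7 hy1.le
  obtain ⟨x1, x2⟩ := log_gen N M h0 hp1 hQa
  rcases hQb.eq_or_lt with hQb0 | hQb0
  · rw [hQb0]
    have e : (-log p) ^ N * p ^ M * QQ n m (-log p) / ((-log p) * p) =
      - ((-log p) ^ N * p ^ M * (-QQ n m (-log p)) / ((-log p) * p)) := by ring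
    rw [e]
    simp only [mul_zero, zero_div, sub_zero]
    linarith
  · have hQb' : 0 < -QQ n m (-log (1 - p)) := by linarith
    obtain ⟨y1, y2⟩ := log_gen N M hq (by linarith : 1 - p < 1) hQb'
    have hlogs : log (1 + (-log p - c)) - log (1 - (c - -log (1 - p))) ≤
        log (-QQ n m (-log p)) - log (-QQ n m (-log (1 - p))) := by
      have h8 : (1 + (-log p - c)) * (-QQ n m (-log (1 - p))) ≤
          (1 - (c - -log (1 - p))) * (-QQ n m (-log p)) := by linarith
      have h9 := Real.log_le_log (by positivity) h8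
      rw [Real.log_mul hs1.ne' hQb'.ne', Real.log_mul hy1.ne' hQa.ne'] at h9
      linarith
    have hT : 0 < ((N : ℝ) - 1) * (log (-log p) - log (-log (1 - p))) -
        ((M : ℝ) - 1) * (-log p - -log (1 - p)) +
        (log (-QQ n m (-log p)) - log (-QQ n m (-log (1 - p)))) := by
      rcases Nat.lt_or_ge N M with hlt | hge
      · have h10 := hE2 hlt
        have h11 := le_log_div hy1 (X := 1 + (-log p - c)) (by linarith)
        have e1 : (1 + (-log p - c)) - (1 - (c - -log (1 - p))) = -log p - -log (1 - p) := by ring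
        have e2 : (1 + (-log p - c)) + (1 - (c - -log (1 - p))) =
          2 * (1 + ((-log p + -log (1 - p)) / 2 - c)) := by ring
        rw [e1, e2] at h11
        have h12 : 0 < 1 + ((-log p + -log (1 - p)) / 2 - c) := by
          have : 0 < (1 + (-log p - c)) + (1 - (c - -log (1 - p))) := by linarith
          linarith
        have h13 : 8 / 9 * (-log p - -log (1 - p)) ≤
            2 * (-log p - -log (1 - p)) / (2 * (1 + ((-log p + -log (1 - p)) / 2 - c))) := by
          rw [le_div_iff₀ (by positivity)]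
          nlinarith
        have h14 : 1 / log 2 ≤ 1.4427 := by
          rw [div_le_iff₀ (by linarith)]
          linarith
        have h15 : log (-log p) - log (-log (1 - p)) ≤ 1.4427 * (-log p - -log (1 - p)) :=
          hL3.trans (mul_le_mul_of_nonneg_right h14 hz.le)
        rw [hn, hm] at hSl
        nlinarith
      · have h10 : log (1 - (c - -log (1 - p))) < log (1 + (-log p - c)) :=
          Real.log_lt_log hy1 (by linarith)
        have h11 : -log p - -log (1 - p) ≤ log (-log p) - log (-log (1 - p)) := by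
          refine le_trans ?_ hG
          nlinarith
        have h12 : (M : ℝ) - 1 ≤ (N : ℝ) - 1 := by
          have : (M : ℝ) ≤ N := by exact_mod_cast hge
          linarith
        have h13 : ((M : ℝ) - 1) * (-log p - -log (1 - p)) ≤
            ((N : ℝ) - 1) * (log (-log p) - log (-log (1 - p))) :=
          mul_le_mul h12 h11 hz.le (by linarith)
        linarith
    have h16 := (Real.log_lt_log_iff y1 x1).mp (by rw [x2, y2]; linarith)
    have e : ∀ X Q Y : ℝ, X * Q / Y = -(X * (-Q) / Y) := by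
      intro X Q Y
      ring
    rw [e _ (QQ n m (-log p)), e _ (QQ n m (-log (1 - p)))]
    linarith

end Pool.Agent.H17.KU
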