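import Pool.Agent.H17.KU.Ana4

/-! Propagation of convexity. -/

namespace Pool.Agent.H17.KU

open Real Set V11309.KRec

lemma ddSS_def (N M : ℕ) (p : ℝ) : ddSS N M p =
    (-log p) ^ N * p ^ M * QQ ((N : ℝ) + 1) ((M : ℝ) + 1) (-log p) / ((-log p) * p) -
    (-log (1 - p)) ^ N * (1 - p) ^ M * QQ ((N : ℝ) + 1) ((M : ℝ) + 1) (-log (1 - p)) /
      ((-log (1 - p)) * (1 - p)) := rfl

lemma ddSS_neg_of_signs (N M : ℕ) {p : ℝ} (h0 : 0 < p) (h1 : p < 1)
    (ha : QQ ((N : ℝ) + 1) ((M : ℝ) + 1) (-log p) ≤ 0)
    (hb : 0 < QQ ((N : ℝ) + 1) ((M : ℝ) + 1) (-log (1 - p))) : ddSS N M p < 0 := by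
  have hq : 0 < 1 - p := by linarith
  have ha' := a_pos h0 h1
  have hb' := b_pos h0 h1
  rw [ddSS_def]
  have t1 : (-log p) ^ N * p ^ M * QQ ((N : ℝ) + 1) ((M : ℝ) + 1) (-log p) / ((-log p) * p) ≤ 0 := by
    apply div_nonpos_of_nonpos_of_nonneg _ (by positivity)
    exact mul_nonpos_of_nonneg_of_nonpos (by positivity) ha
  have t2 : 0 < (-log (1 - p)) ^ N * (1 - p) ^ M * QQ ((N : ℝ) + 1) ((M : ℝ) + 1) (-log (1 - p)) /
      ((-log (1 - p)) * (1 - p)) := by positivity
  linarith

lemma loga_mono {p t : ℝ} (h0 : 0 < p) (h : p ≤ t) : -log t ≤ -log p := by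
  have := Real.log_le_log h0 h
  linarith

/-- the case `m = 1`. -/
lemma propagate_one (N : ℕ) {p : ℝ} (h0 : 0 < p) (h1 : p < 1 / 2)
    (hdd : 0 ≤ ddSS N 0 p) : ∀ t, p < t → t < 1 / 2 → 0 ≤ ddSS N 0 t := by
  obtain ⟨hL1, hL2⟩ := log2_bounds
  have hq : 0 < 1 - p := by linarith
  have hQ : ∀ w, QQ ((N : ℝ) + 1) (((0 : ℕ) : ℝ) + 1) w = ((N : ℝ) + 1) * (N - w) := by
    intro w
    unfold QQ
    push_cast
    ring
  rcases Nat.eq_zero_or_pos N with hN0 | hN
  · exfalso
    subst hN0
    rw [ddSS_def, hQ, hQ] at hdd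
    have ha := (a_pos h0 (by linarith : p < 1)).ne'
    have hb := (b_pos h0 (by linarith : p < 1)).ne'
    have e : (-log p) ^ 0 * p ^ 0 * ((((0 : ℕ) : ℝ) + 1) * (((0 : ℕ) : ℝ) - -log p)) / ((-log p) * p) -
      (-log (1 - p)) ^ 0 * (1 - p) ^ 0 * ((((0 : ℕ) : ℝ) + 1) * (((0 : ℕ) : ℝ) - -log (1 - p))) /
        ((-log (1 - p)) * (1 - p)) = 1 / (1 - p) - 1 / p := by
      have h0' := h0.ne'
      have hq' := hq.ne'
      generalize (-log p) = a at *
      generalize (-log (1 - p)) = b at *
      push_cast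
      field_simp
      ring
    rw [e] at hdd
    have : 1 / (1 - p) < 1 / p := one_div_lt_one_div_of_lt h0 (by linarith)
    linarith
  · have hN' : (1 : ℝ) ≤ N := by exact_mod_cast hN
    have hbN : ∀ t, 0 < t → t < 1 / 2 → -log (1 - t) < N := by
      intro t ht ht'
      have := b_lt_log2 ht ht'
      linarith
    have haN : -log p < N := by
      by_contra hcon
      push Not at hcon
      have := ddSS_neg_of_signs N 0 h0 (by linarith) (by
        rw [hQ]
        apply mul_nonpos_of_nonneg_of_nonpos (by positivity)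
        linarith) (by
        rw [hQ]
        apply mul_pos (by positivity)
        linarith [hbN p h0 h1])
      linarith
    have hn1 : (0 : ℝ) < (N : ℝ) + 1 := by positivity
    refine regionA N 0 hN h0 (fun _ => -((N : ℝ) + 1)) ?_ ?_ ?_ hdd
    · intro w
      have h2 : HasDerivAt (fun w : ℝ => ((N : ℝ) + 1) * (N - w)) (-((N : ℝ) + 1)) w := by
        have := ((hasDerivAt_id w).const_sub (N : ℝ)).const_mul ((N : ℝ) + 1)
        refine this.congr_deriv (by ring)
      have e : QQ ((N : ℝ) + 1) (((0 : ℕ) : ℝ) + 1) = fun w : ℝ => ((N : ℝ) + 1) * (N - w) := by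
        ext w
        exact hQ w
      rw [e]
      exact h2
    · intro t hpt ht
      have := loga_mono h0 hpt
      have h3 := hbN t (by linarith) ht
      rw [hQ, hQ]
      exact ⟨mul_pos hn1 (by linarith), mul_pos hn1 (by linarith)⟩
    · intro t hpt ht
      have ht0 : 0 < t := by linarith
      have hla := loga_mono h0 hpt
      have h3 := hbN t ht0 ht
      have hba := b_lt_a ht0 ht
      have hY : 0 < (N : ℝ) - -log t := by linarith
      have hX : 0 < (N : ℝ) - -log (1 - t) := by linarith
      have h4 := trap (r := (N : ℝ)) hba.le (by linarith : -log t < N) ht0.le ht.le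
      rw [hQ, hQ, Real.log_mul hn1.ne' hY.ne', Real.log_mul hn1.ne' hX.ne']
      have e : (-log t - -log (1 - t)) * ((1 - t) * (-((N : ℝ) + 1) / (((N : ℝ) + 1) *
          ((N : ℝ) - -log t))) + t * (-((N : ℝ) + 1) / (((N : ℝ) + 1) * ((N : ℝ) - -log (1 - t))))) =
          - ((-log t - -log (1 - t)) * ((1 - t) * (1 / ((N : ℝ) - -log t)) +
            t * (1 / ((N : ℝ) - -log (1 - t))))) := by
        have e1 : ∀ X : ℝ, -((N : ℝ) + 1) / (((N : ℝ) + 1) * X) = -(1 / X) := by
          intro X
          rw [neg_div, div_mul_eq_div_div, div_self hn1.ne']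
        rw [e1, e1]
        ring
      rw [e]
      linarith

theorem propagate (N M : ℕ) (hNM : ((M : ℝ) + 1) * log 2 < (N : ℝ) + 1)
    (hnz : (((M : ℝ) + 2) / ((M : ℝ) + 3)) ^ (N + 2) < 1 / 2) {p : ℝ} (h0 : 0 < p) (h1 : p < 1 / 2)
    (hS : 0 < SS N M p) (hd : dSS N M p < 0) (hdd : 0 ≤ ddSS N M p) :
    ∀ t, p < t → t < 1 / 2 → 0 ≤ ddSS N M t := by
  rcases Nat.eq_zero_or_pos M with hM0 | hM
  · subst hM0
    exact propagate_one N h0 h1 hdd
  obtain ⟨hL1, hL2⟩ := log2_bounds
  have hM' : (1 : ℝ) ≤ M := by exact_mod_cast hM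
  have hN1 : 1 ≤ N := by
    by_contra hcon
    have : N = 0 := by omega
    rw [this] at hNM
    push_cast at hNM
    nlinarith
  have hq : 0 < 1 - p := by linarith
  have hp1 : p < 1 := by linarith
  have ha := a_pos h0 hp1
  have hb := b_pos h0 hp1
  have hba := b_lt_a h0 h1
  have hbL := b_lt_log2 h0 h1
  set n : ℝ := (N : ℝ) + 1 with hn
  set m : ℝ := (M : ℝ) + 1 with hm
  have hn0 : 0 < n := by positivity
  have hm0 : 0 < m := by positivity
  have hm1 : 0 < m - 1 := by rw [hm]; linarith
  -- roots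
  set D := n ^ 2 + 4 * m * (m - 1) * n with hD
  have hDpos : 0 < D := by positivity
  have hsq : √D ^ 2 = D := Real.sq_sqrt hDpos.le
  have hsqpos : 0 < √D := Real.sqrt_pos.mpr hDpos
  set r1 := (n * (2 * m - 1) - √D) / (2 * m * (m - 1)) with hr1
  set r2 := (n * (2 * m - 1) + √D) / (2 * m * (m - 1)) with hr2
  have hfac : ∀ w, QQ n m w = m * (m - 1) * ((r1 - w) * (r2 - w)) := by
    intro w
    have e1 : r1 + r2 = n * (2 * m - 1) / (m * (m - 1)) := by
      rw [hr1, hr2]
      field_simp
      ring
    have e2 : r1 * r2 = n * (n - 1) / (m * (m - 1)) := by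
      rw [hr1, hr2, div_mul_div_comm]
      have : (n * (2 * m - 1) - √D) * (n * (2 * m - 1) + √D) = 4 * m * (m - 1) * (n * (n - 1)) := by
        have : (n * (2 * m - 1) - √D) * (n * (2 * m - 1) + √D) = (n * (2 * m - 1)) ^ 2 - √D ^ 2 := by
          ring
        rw [this, hsq, hD]
        ring
      rw [this]
      field_simp
      ring
    have e3 : (r1 - w) * (r2 - w) = w ^ 2 - (r1 + r2) * w + r1 * r2 := by ring
    rw [e3, e1, e2]
    unfold QQ
    field_simp
  have hr12 : r1 < r2 := by
    rw [hr1, hr2]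
    apply div_lt_div_of_pos_right _ (by positivity)
    linarith
  have hmm : 0 < m * (m - 1) := by positivity
  have hc : (r1 - n / m) * (r2 - n / m) < 0 := by
    have h2 := hfac (n / m)
    have h3 : QQ n m (n / m) = -n := by
      unfold QQ
      field_simp
      ring
    rw [h3] at h2
    by_contra hcon
    push Not at hcon
    have := mul_nonneg hmm.le hcon
    linarith
  have hcr : r1 < n / m ∧ n / m < r2 := by
    rcases mul_neg_iff.mp hc with ⟨h2, h3⟩ | ⟨h2, h3⟩
    · exfalso
      linarith
    · exact ⟨by linarith, by linarith⟩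
  have hcL : log 2 < n / m := by
    rw [lt_div_iff₀ hm0]
    linarith
  rcases lt_or_ge (-log p) r1 with hA | hA
  · -- region A
    refine regionA N M hN1 h0 (fun w => m * (m - 1) * ((w - r1) + (w - r2))) ?_ ?_ ?_ hdd
    · intro w
      have e : QQ ((N : ℝ) + 1) ((M : ℝ) + 1) = fun w : ℝ => m * (m - 1) * ((r1 - w) * (r2 - w)) := by
        ext w
        exact hfac w
      rw [e]
      have h2 := (((hasDerivAt_id w).const_sub r1).mul ((hasDerivAt_id w).const_sub r2)).const_mul
        (m * (m - 1))
      refine h2.congr_deriv ?_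
      simp only [id]
      ring
    · intro t hpt ht
      have h2 := loga_mono h0 hpt
      have h3 := b_lt_a (by linarith : 0 < t) ht
      rw [← hn, ← hm, hfac, hfac]
      constructor
      · apply mul_pos hmm
        apply mul_pos <;> linarith
      · apply mul_pos hmm
        apply mul_pos <;> linarith
    · intro t hpt ht
      have ht0 : 0 < t := by linarith
      have h2 := loga_mono h0 hpt
      have h3 := b_lt_a ht0 ht
      rw [← hn, ← hm, hfac, hfac]
      have p1 : 0 < r1 - -log t := by linarith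
      have p2 : 0 < r2 - -log t := by linarith
      have p3 : 0 < r1 - -log (1 - t) := by linarith
      have p4 : 0 < r2 - -log (1 - t) := by linarith
      rw [Real.log_mul hmm.ne' (mul_pos p1 p2).ne', Real.log_mul p1.ne' p2.ne',
        Real.log_mul hmm.ne' (mul_pos p3 p4).ne', Real.log_mul p3.ne' p4.ne']
      have t1 := trap (r := r1) h3.le (by linarith) ht0.le ht.le
      have t2 := trap (r := r2) h3.le (by linarith) ht0.le ht.le
      have e1 : ∀ w, 0 < r1 - w → 0 < r2 - w → m * (m - 1) * ((w - r1) + (w - r2)) /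
          (m * (m - 1) * ((r1 - w) * (r2 - w))) = -(1 / (r1 - w)) - 1 / (r2 - w) := by
        intro w h5 h6
        have h5' := h5.ne'
        have h6' := h6.ne'
        field_simp
        ring
      rw [e1 _ p1 p2, e1 _ p3 p4]
      linarith
  · exfalso
    rcases le_or_gt (QQ n m (-log (1 - p))) 0 with hQb | hQb
    · have := case2 N M hM h0 h1 hNM hnz hS hQb
      linarith
    · rcases le_or_gt (QQ n m (-log p)) 0 with hQa | hQa
      · have := ddSS_neg_of_signs N M h0 hp1 hQa hQb
        linarith
      · -- a > r2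
        have har : n / m < -log p := by
          rw [hfac] at hQa
          have h2 : 0 < (r1 - -log p) * (r2 - -log p) := pos_of_mul_pos_right hQa hmm.le
          by_contra hcon
          push Not at hcon
          have h3 : 0 < r2 - -log p := by linarith
          have h4 : r1 - -log p ≤ 0 := by linarith
          have := mul_nonpos_of_nonpos_of_nonneg h4 h3.le
          linarith
        have han : n < m * (-log p) := by
          rw [div_lt_iff₀ hm0] at har
          linarith
        have hbn : m * (-log (1 - p)) < n := by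
          have := mul_lt_mul_of_pos_left hbL hm0
          linarith
        have hS' : (-log (1 - p)) ^ N * (1 - p) ^ M * (-log (1 - p) * (1 - p)) <
            (-log p) ^ N * p ^ M * (-log p * p) := by
          unfold SS SA at hS
          have e1 : (-log (1 - p)) ^ N * (1 - p) ^ M * (-log (1 - p) * (1 - p)) =
            (-log (1 - p)) ^ (N + 1) * (1 - p) ^ (M + 1) := by ring
          have e2 : (-log p) ^ N * p ^ M * (-log p * p) = (-log p) ^ (N + 1) * p ^ (M + 1) := by ring
          rw [e1, e2]
          linarith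
        have hd' : (-log p) ^ N * p ^ M * (m * (-log p) - n) <
            (-log (1 - p)) ^ N * (1 - p) ^ M * (n - m * (-log (1 - p))) := by
          unfold dSS at hd
          rw [← hn, ← hm] at hd
          linarith
        have := alg3 h0 h1 hb hba hn0 hm0 han hbn (by positivity) (by positivity) hS' hd'
          (keyE h0 h1) rfl rfl hQa
        rw [ddSS_def] at hdd
        linarith

end Pool.Agent.H17.KU
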