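import Pool.Agent.H17.KU.Opt3

/-! Existence of the breaking point, and the upper bound. -/

namespace Pool.Agent.H17.KU

open MeasureTheory Set Filter Topology
open V11309.KRec (Neg Hump pattern lemM)

variable {s : ℝ → ℝ} {xi z : ℝ}

lemma toIoo {b : ℝ} (hb : b ≤ 1) (f : ℝ → ℝ) : ∫ x in b..1, f x = ∫ x in Ioo b 1, f x := by
  rw [intervalIntegral.integral_of_le hb, integral_Ioc_eq_integral_Ioo]

lemma io_of_cont {f : ℝ → ℝ} (hf : ContinuousOn f (Icc 0 1)) {b : ℝ} (hb : 0 ≤ b) :
    IntegrableOn f (Ioo b 1) := by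
  have hsub' : Ioo b 1 ⊆ Icc 0 1 := fun x hx => ⟨by linarith [hx.1], hx.2.le⟩
  exact hf.integrableOn_Icc.mono_set hsub'

theorem exists_b (H : Shp s xi z) (hM : 0 < ∫ x in (1 / 2)..1, (x - 1 / 2) * s x)
    (hΦ : 0 < Phi s (1 / 2)) :
    ∃ b, 1 / 2 < b ∧ b ≤ xi ∧ Phi s b = 0 ∧ ∀ x, 1 / 2 ≤ x → x < b → 0 < Phi s x := by
  have hx1 : xi < 1 := H.hxz.trans_lt H.hz2
  have hc : ContinuousOn (Phi s) (Icc (1 / 2) xi) :=
    (cont_Phi H.cont).mono (Icc_subset_Icc (by norm_num) hx1.le)
  have hcl : ∀ β γ c : ℝ, ContinuousOn (fun x => s x - (β + γ * (x - c))) (Icc 0 1) :=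
    fun β γ c => H.cont.sub (by fun_prop)
  by_cases hall : ∀ x ∈ Icc (1 / 2) xi, 0 < Phi s x
  · exfalso
    rcases le_or_gt 0 (lam s xi) with hl | hl
    · have h1 := int_h0_lam H.cont (b := xi) (by linarith [H.hxi]) hx1
      have h2 := int_h1_lam H.cont (b := xi) (by linarith [H.hxi]) hx1
      rw [toIoo hx1.le] at h1 h2
      have h3 : ∫ x in Ioo xi 1, (x - xi) * (s x - (s xi + lam s xi * (x - xi))) ≤ 0 := by
        apply lemM (g := fun x => x - xi) (h := fun x => s x - (s xi + lam s xi * (x - xi)))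
        · intro x _ y _ hxy
          simp only
          linarith
        · intro x hx
          linarith [hx.1]
        · exact H.pat hl
        · exact io_of_cont (hcl _ _ _) (by linarith [H.hxi])
        · exact io_of_cont ((by fun_prop : ContinuousOn (fun x : ℝ => x - xi) (Icc 0 1)).mul
            (hcl _ _ _)) (by linarith [H.hxi])
        · exact h1.le
      have := hall xi ⟨H.hxi, le_rfl⟩
      linarith
    · -- `I0 (1/2) > 0`
      have h0 : 0 < ∫ x in (1 / 2)..1, s x := by
        by_contra hcon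
        push Not at hcon
        rw [toIoo (by norm_num)] at hcon hM
        have h3 : ∫ x in Ioo (1 / 2) 1, (x - 1 / 2) * s x ≤ 0 := by
          apply lemM (g := fun x => x - 1 / 2) (h := s)
          · intro x _ y _ hxy
            simp only
            linarith
          · intro x hx
            linarith [hx.1]
          · have := pattern H.shape le_rfl H.half.ge
            simp only [H.half, sub_zero] at this
            exact this
          · exact io_of_cont H.cont (by norm_num)
          · exact io_of_cont ((by fun_prop : ContinuousOn (fun x : ℝ => x - 1 / 2) (Icc 0 1)).mul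
              H.cont) (by norm_num)
          · exact hcon
        linarith
      have hlh : 0 < lam s (1 / 2) := by
        unfold lam
        rw [H.half, mul_zero, sub_zero]
        positivity
      have hcl' : ContinuousOn (lam s) (Icc (1 / 2) xi) := by
        apply (cont_lam H.cont).mono
        intro x hx
        exact ⟨by linarith [hx.1], by linarith [hx.2]⟩
      obtain ⟨b, hb, hb0⟩ := intermediate_value_Ioo' H.hxi hcl' ⟨hl, hlh⟩
      have hb1 : b < 1 := by linarith [hb.2]
      have hbh : 1 / 2 ≤ b := hb.1.le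
      have h1 := int_h0_lam H.cont (b := b) (by linarith) hb1
      have h2 := int_h1_lam H.cont (b := b) (by linarith) hb1
      rw [toIoo hb1.le] at h1 h2
      simp only [hb0, zero_mul, add_zero] at h1 h2
      have hcc : ContinuousOn (fun x => s x - s b) (Icc 0 1) := H.cont.sub continuousOn_const
      have h3 : ∫ x in Ioo b 1, (x - b) * (s x - s b) ≤ 0 := by
        apply lemM (g := fun x => x - b) (h := fun x => s x - s b)
        · intro x _ y _ hxy
          simp only
          linarith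
        · intro x hx
          linarith [hx.1]
        · exact pattern H.shape hbh (H.nonneg hbh (by linarith [hb.2, H.hxz]))
        · exact io_of_cont hcc (by linarith)
        · exact io_of_cont ((by fun_prop : ContinuousOn (fun x : ℝ => x - b) (Icc 0 1)).mul hcc)
            (by linarith)
        · exact h1.le
      have := hall b ⟨hbh, hb.2.le⟩
      linarith
  · push Not at hall
    obtain ⟨x0, hx0, hx0'⟩ := hall
    set T := Icc (1 / 2) xi ∩ Phi s ⁻¹' Iic 0 with hT
    have hTc : IsCompact T :=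
      isCompact_Icc.of_isClosed_subset (hc.preimage_isClosed_of_isClosed isClosed_Icc isClosed_Iic)
        inter_subset_left
    have hTne : T.Nonempty := ⟨x0, hx0, hx0'⟩
    have hmem : sInf T ∈ T := hTc.sInf_mem hTne
    set b := sInf T with hb
    have hbdd : BddBelow T := hTc.bddBelow
    have hlt : ∀ x, 1 / 2 ≤ x → x < b → 0 < Phi s x := by
      intro x hx hxb
      by_contra hcon
      push Not at hcon
      have : b ≤ x := csInf_le hbdd ⟨⟨hx, hxb.le.trans hmem.1.2⟩, hcon⟩
      linarith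
    have hb12 : 1 / 2 < b := by
      rcases hmem.1.1.eq_or_lt with h | h
      · have h2 : Phi s b ≤ 0 := hmem.2
        rw [← h] at h2
        linarith
      · exact h
    refine ⟨b, hb12, hmem.1.2, ?_, hlt⟩
    apply le_antisymm hmem.2
    by_contra hcon
    push Not at hcon
    obtain ⟨w, hw, hw0⟩ := intermediate_value_Ioo' hb12.le (hc.mono (Icc_subset_Icc le_rfl hmem.1.2))
      ⟨hcon, hΦ⟩
    have := hlt w hw.1.le hw.2
    linarith

/-- the optimal quantile function on `[1/2, 1)`: equal to `s` up to `b`, then affine. -/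
noncomputable def gz (s : ℝ → ℝ) (b γ x : ℝ) : ℝ := if x ≤ b then s x else s b + γ * (x - b)

lemma cont_gz (hs : ContinuousOn s (Icc 0 1)) {b γ : ℝ} (hb0 : 0 ≤ b) (_hb1 : b ≤ 1) :
    ContinuousOn (gz s b γ) (Icc 0 1) := by
  have h : ∀ x ∈ Icc (0 : ℝ) 1, gz s b γ x = s (min x b) + γ * (max x b - b) := by
    intro x hx
    unfold gz
    split_ifs with h
    · rw [min_eq_left h, max_eq_right h]
      ring
    · push Not at h
      rw [min_eq_right h.le, max_eq_left h.le]
  have h2 : ContinuousOn (fun x => s (min x b) + γ * (max x b - b)) (Icc 0 1) := by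
    apply ContinuousOn.add
    · apply hs.comp (by fun_prop)
      intro u hu
      exact ⟨le_min hu.1 hb0, (min_le_left _ _).trans hu.2⟩
    · fun_prop
  exact h2.congr h

/-- integrability of products -/
lemma int_mul {g f : ℝ → ℝ} (hg : MemLp g 2 (volume.restrict (Ioo (1 / 2) 1)))
    (hf : ContinuousOn f (Icc 0 1)) : IntegrableOn (fun u => g u * f u) (Ioo (1 / 2) 1) := by
  have hgi : Integrable g (volume.restrict (Ioo (1 / 2) 1)) := hg.integrable (by norm_num)
  obtain ⟨C, hC⟩ := isCompact_Icc.exists_bound_of_continuousOn hf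
  have hsub : Ioo (1 / 2 : ℝ) 1 ⊆ Icc 0 1 := fun x hx => ⟨by linarith [hx.1], hx.2.le⟩
  apply hgi.mul_bdd (c := C) ((hf.mono hsub).aestronglyMeasurable measurableSet_Ioo)
  have h3 : ∀ᵐ u ∂(volume.restrict (Ioo (1 / 2 : ℝ) 1)), u ∈ Ioo (1 / 2 : ℝ) 1 :=
    ae_restrict_mem measurableSet_Ioo
  filter_upwards [h3] with u hu
  exact hC u (hsub hu)

/-- splitting off the affine part. -/
lemma split_gz (hs : ContinuousOn s (Icc 0 1)) {b γ : ℝ} (h1 : 1 / 2 ≤ b) (hb1 : b < 1) {g : ℝ → ℝ}
    (hg : MemLp g 2 (volume.restrict (Ioo (1 / 2) 1))) :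
    ∫ u in Ioo (1 / 2 : ℝ) 1, g u * s u = (∫ u in Ioo (1 / 2 : ℝ) 1, g u * gz s b γ u) +
      ∫ u in Ioo b 1, g u * (s u - (s b + γ * (u - b))) := by
  have e1 : ∫ u in Ioo b 1, g u * (s u - (s b + γ * (u - b))) =
      ∫ u in Ioo (1 / 2 : ℝ) 1,
        (Ioo b 1).indicator (fun u => g u * (s u - (s b + γ * (u - b)))) u := by
    rw [setIntegral_indicator measurableSet_Ioo]
    congr 2
    ext x
    simp only [mem_inter_iff, mem_Ioo]
    constructor
    · rintro ⟨a, b⟩
      exact ⟨⟨by linarith, b⟩, a, b⟩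
    · rintro ⟨_, b⟩
      exact b
  have e2 : ∫ u in Ioo (1 / 2 : ℝ) 1,
      (Ioo b 1).indicator (fun u => g u * (s u - (s b + γ * (u - b)))) u =
      ∫ u in Ioo (1 / 2 : ℝ) 1, (g u * s u - g u * gz s b γ u) := by
    apply setIntegral_congr_fun measurableSet_Ioo
    intro u hu
    simp only
    rcases le_or_gt u b with h | h
    · have hn : u ∉ Ioo b 1 := fun hh => by linarith [hh.1]
      rw [indicator_of_notMem hn, gz, if_pos h, sub_self]
    · have hn : u ∈ Ioo b 1 := ⟨h, hu.2⟩
      rw [indicator_of_mem hn, gz, if_neg (not_le.mpr h)]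
      ring
  rw [e1, e2, integral_sub (int_mul hg hs) (int_mul hg (cont_gz hs (by linarith) hb1.le))]
  ring

/-- The basic inequality: convex `g` correlate at least as much with `gz`. -/
theorem upper_gen (H : Shp s xi z) {b γ : ℝ} (h1 : 1 / 2 ≤ b) (h2 : b ≤ xi) (hγ : 0 ≤ γ)
    (hpos : 0 < s b + γ * (1 - b)) (hI0 : 0 ≤ ∫ x in b..1, (s x - (s b + γ * (x - b))))
    (hI1 : ∫ x in b..1, (x - b) * (s x - (s b + γ * (x - b))) = 0) {g : ℝ → ℝ}
    (hconv : ConvexOn ℝ (Ico b 1) g) (hg : MemLp g 2 (volume.restrict (Ioo (1 / 2) 1)))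
    (hgb : g b * ∫ x in b..1, (s x - (s b + γ * (x - b))) ≤ 0) :
    ∫ u in Ioo (1 / 2 : ℝ) 1, g u * s u ≤ ∫ u in Ioo (1 / 2 : ℝ) 1, g u * gz s b γ u := by
  have hb1 : b < 1 := (h2.trans H.hxz).trans_lt H.hz2
  rw [split_gz H.cont (γ := γ) h1 hb1 hg]
  rw [toIoo hb1.le] at hI0 hI1 hgb
  have hcl : ContinuousOn (fun x => s x - (s b + γ * (x - b))) (Icc 0 1) :=
    H.cont.sub (by fun_prop)
  have hsub : Ioo b 1 ⊆ Icc 0 1 := fun x hx => ⟨by linarith [hx.1], hx.2.le⟩
  have h3 : ∫ u in Ioo b 1, g u * (s u - (s b + γ * (u - b))) ≤ 0 := by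
    apply twoCross hb1 hconv (hcl.mono hsub) (H.ord h1 h2 hγ) _ (io_of_cont hcl (by linarith))
      ((int_mul hg hcl).mono_set (Ioo_subset_Ioo h1 le_rfl)) _ hI0 hgb hI1
    · obtain ⟨d0, hd0, hd0'⟩ := H.end_neg (β := s b - γ * b) (γ := γ) (by linarith)
      refine ⟨d0, hd0, fun x hx1 hx2 => ?_⟩
      have := hd0' x hx1 hx2
      have e : s x - (s b + γ * (x - b)) = s x - (s b - γ * b + γ * x) := by ring
      rw [e]
      exact this
    · exact io_of_cont ((by fun_prop : ContinuousOn (fun x : ℝ => x - b) (Icc 0 1)).mul hcl)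
        (by linarith)
  linarith

/-- self-correlation of `gz` -/
lemma self_gz (hs : ContinuousOn s (Icc 0 1)) {b γ : ℝ} (h1 : 1 / 2 ≤ b) (hb1 : b < 1)
    (hI0 : s b * ∫ x in b..1, (s x - (s b + γ * (x - b))) = 0)
    (hI1 : ∫ x in b..1, (x - b) * (s x - (s b + γ * (x - b))) = 0) :
    ∫ u in Ioo (1 / 2 : ℝ) 1, gz s b γ u * s u = ∫ u in Ioo (1 / 2 : ℝ) 1, gz s b γ u ^ 2 := by
  have hc := cont_gz (γ := γ) hs (by linarith : 0 ≤ b) hb1.le
  have hsub' : Ioo (1 / 2 : ℝ) 1 ⊆ Icc 0 1 := fun x hx => ⟨by linarith [hx.1], hx.2.le⟩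
  have hPLp : MemLp (gz s b γ) 2 (volume.restrict (Ioo (1 / 2) 1)) := by
    obtain ⟨C, hC⟩ := isCompact_Icc.exists_bound_of_continuousOn hc
    apply MemLp.of_bound ((hc.mono hsub').aestronglyMeasurable measurableSet_Ioo) C
    have h3 : ∀ᵐ u ∂(volume.restrict (Ioo (1 / 2 : ℝ) 1)), u ∈ Ioo (1 / 2 : ℝ) 1 :=
      ae_restrict_mem measurableSet_Ioo
    filter_upwards [h3] with u hu
    exact hC u (hsub' hu)
  rw [split_gz hs (γ := γ) h1 hb1 hPLp]
  have hcl : ContinuousOn (fun x => s x - (s b + γ * (x - b))) (Icc 0 1) :=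
    hs.sub (by fun_prop)
  have e1 : ∫ u in Ioo b 1, gz s b γ u * (s u - (s b + γ * (u - b))) = 0 := by
    have e2 : ∫ u in Ioo b 1, gz s b γ u * (s u - (s b + γ * (u - b))) =
        ∫ u in Ioo b 1, (s b * (s u - (s b + γ * (u - b))) +
          γ * ((u - b) * (s u - (s b + γ * (u - b))))) := by
      apply setIntegral_congr_fun measurableSet_Ioo
      intro u hu
      simp only
      rw [gz, if_neg (not_le.mpr hu.1)]
      ring
    have i1 : IntegrableOn (fun u => s b * (s u - (s b + γ * (u - b)))) (Ioo b 1) :=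
      (io_of_cont hcl (by linarith)).const_mul _
    have i2 : IntegrableOn (fun u => γ * ((u - b) * (s u - (s b + γ * (u - b))))) (Ioo b 1) :=
      (io_of_cont ((by fun_prop : ContinuousOn (fun x : ℝ => x - b) (Icc 0 1)).mul hcl)
        (by linarith)).const_mul _
    rw [e2, integral_add i1 i2, integral_const_mul, integral_const_mul, ← toIoo hb1.le,
      ← toIoo hb1.le, hI0, hI1]
    ring
  rw [e1, add_zero]
  apply setIntegral_congr_fun measurableSet_Ioo
  intro u _
  simp only
  ring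

/-- value of the squared norm of `gz` -/
lemma norm_gz (hs : ContinuousOn s (Icc 0 1)) {b γ : ℝ} (h1 : 1 / 2 ≤ b) (hb1 : b < 1) :
    ∫ u in Ioo (1 / 2 : ℝ) 1, gz s b γ u ^ 2 =
      (∫ x in (1 / 2)..b, s x ^ 2) + ∫ x in b..1, (s b + γ * (x - b)) ^ 2 := by
  have hc : ContinuousOn (fun u => gz s b γ u ^ 2) (Icc 0 1) :=
    (cont_gz (γ := γ) hs (by linarith : 0 ≤ b) hb1.le).pow 2
  rw [← toIoo (by norm_num), ← intervalIntegral.integral_add_adjacent_intervals
      (ii_of_cont (a := 1 / 2) (b := b) hc ⟨by norm_num, by norm_num⟩ ⟨by linarith, hb1.le⟩)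
      (ii_of_cont (a := b) (b := 1) hc ⟨by linarith, hb1.le⟩ ⟨by norm_num, le_rfl⟩)]
  congr 1
  · apply intervalIntegral.integral_congr
    intro u hu
    rw [uIcc_of_le h1] at hu
    simp only
    rw [gz, if_pos hu.2]
  · apply intervalIntegral.integral_congr
    intro u hu
    rw [uIcc_of_le hb1.le] at hu
    simp only
    unfold gz
    split_ifs with h
    · have : u = b := le_antisymm h hu.1
      rw [this]
      ring
    · rfl

end Pool.Agent.H17.KU
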