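import Pool.Graph.R_pool_sql_team_seeded_843ab51a.V11309.KRec.Integ
import Pool.Graph.R_pool_sql_team_seeded_843ab51a.V11309.KRec.Quant
import Pool.Agent.H17.KU.Ana5
import Pool.Agent.H17.KU.Opt4

/-! The shape of `s` when the first moment is positive. -/

namespace Pool.Agent.H17.KU

open MeasureTheory Set Filter Topology
open V11309.KRec

/-- first moment of `s`. -/
lemma M1_eq (N M : ℕ) : ∫ x in (1 / 2 : ℝ)..1, (x - 1 / 2) * sfun (M + 2) (N + 1) x =
    1 / 2 - (((M : ℝ) + 2) / (M + 3)) ^ (N + 2) := by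
  have hc := continuousOn_dens N M
  have hG : IntervalIntegrable (fun x => (x - 1 / 2) * dens (M + 2) (N + 1) x) volume 0 1 :=
    ii_of_cont ((by fun_prop : ContinuousOn (fun x : ℝ => x - 1 / 2) (Icc 0 1)).mul hc)
      ⟨le_rfl, zero_le_one⟩ ⟨zero_le_one, le_rfl⟩
  have h1 := hhalf _ hG
  have h2 : ∫ x in (1 / 2 : ℝ)..1, (x - 1 / 2) * sfun (M + 2) (N + 1) x =
      ∫ u in (1 / 2 : ℝ)..1, ((u - 1 / 2) * dens (M + 2) (N + 1) u +
        (1 - u - 1 / 2) * dens (M + 2) (N + 1) (1 - u)) := by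
    apply intervalIntegral.integral_congr
    intro u _
    simp only
    unfold sfun
    ring
  rw [h2, ← h1]
  have e : ∀ x, (x - 1 / 2) * dens (M + 2) (N + 1) x =
      1 / 2 * dens (M + 2) (N + 1) x -
        (((M : ℝ) + 2) / (M + 3)) ^ (N + 2) * dens ((M + 1) + 2) (N + 1) x := by
    intro x
    have e1 : (((M : ℝ) + 2) / (M + 3)) ^ (N + 2) * dens ((M + 1) + 2) (N + 1) x =
        (1 - x) * dens (M + 2) (N + 1) x := by
      unfold dens
      rw [show M + 1 + 2 - 1 = M + 2 by omega, show M + 2 - 1 = M + 1 by omega, div_pow]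
      have h3 : ((M : ℝ) + 3) ≠ 0 := by positivity
      have h4 : ((N + 1).factorial : ℝ) ≠ 0 := by positivity
      push_cast
      rw [show (M : ℝ) + 1 + 2 = M + 3 by ring]
      field_simp
      ring
    rw [e1]
    ring
  simp only [e]
  rw [intervalIntegral.integral_sub, intervalIntegral.integral_const_mul,
    intervalIntegral.integral_const_mul, integral_dens_one, integral_dens_one]
  · ring
  · exact (ii_of_cont hc ⟨le_rfl, zero_le_one⟩ ⟨zero_le_one, le_rfl⟩).const_mul _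
  · exact (ii_of_cont (continuousOn_dens N (M + 1)) ⟨le_rfl, zero_le_one⟩
      ⟨zero_le_one, le_rfl⟩).const_mul _

/-- positive first moment forces the hump shape. -/
lemma hNM_of (N M : ℕ) (hnz : (((M : ℝ) + 2) / (M + 3)) ^ (N + 2) < 1 / 2) :
    ((M : ℝ) + 1) * Real.log 2 < N + 1 := by
  by_contra hcon
  push Not at hcon
  have h1 := M1_eq N M
  have h2 : ∫ x in (1 / 2 : ℝ)..1, (x - 1 / 2) * sfun (M + 2) (N + 1) x ≤ 0 := by
    rw [toIoo (by norm_num)]
    apply setIntegral_nonpos measurableSet_Ioo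
    intro x hx
    apply mul_nonpos_of_nonneg_of_nonpos (by linarith [hx.1])
    rw [sfun_eq]
    exact (mul_neg_of_pos_of_neg (cst_pos N M)
      (shapeA N M hcon (by linarith [hx.2]) (by linarith [hx.1]))).le
  linarith

/-- derivative of `s`. -/
noncomputable def dsf (N M : ℕ) (x : ℝ) : ℝ :=
  (((M + 2 : ℕ) : ℝ) ^ (N + 2) / ((N + 1).factorial : ℝ)) * (-dSS N M (1 - x))

lemma hasDerivAt_sfun (N M : ℕ) {x : ℝ} (h0 : 0 < x) (h1 : x < 1) :
    HasDerivAt (sfun (M + 2) (N + 1)) (dsf N M x) x := by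
  have h2 : HasDerivAt (fun u : ℝ => 1 - u) (-1) x := by
    simpa using (hasDerivAt_id x).const_sub 1
  have h3 : HasDerivAt (fun u => SS N M (1 - u)) (dSS N M (1 - x) * (-1)) x :=
    HasDerivAt.comp (h₂ := SS N M) (h := fun u : ℝ => 1 - u) x
      (hasDerivAt_SS N M (by linarith) (by linarith)) h2
  have h4 := h3.const_mul (((M + 2 : ℕ) : ℝ) ^ (N + 2) / ((N + 1).factorial : ℝ))
  have h5 : sfun (M + 2) (N + 1) = fun x =>
      (((M + 2 : ℕ) : ℝ) ^ (N + 2) / ((N + 1).factorial : ℝ)) * SS N M (1 - x) := by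
    ext y
    exact sfun_eq N M y
  rw [h5]
  refine h4.congr_deriv ?_
  unfold dsf
  ring

lemma hasDerivAt_dsf (N M : ℕ) {x : ℝ} (h0 : 0 < x) (h1 : x < 1) :
    HasDerivAt (dsf N M) ((((M + 2 : ℕ) : ℝ) ^ (N + 2) / ((N + 1).factorial : ℝ)) *
      ddSS N M (1 - x)) x := by
  have h2 : HasDerivAt (fun u : ℝ => 1 - u) (-1) x := by
    simpa using (hasDerivAt_id x).const_sub 1
  have h3 : HasDerivAt (fun u => dSS N M (1 - u)) (ddSS N M (1 - x) * (-1)) x :=
    HasDerivAt.comp (h₂ := dSS N M) (h := fun u : ℝ => 1 - u) x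
      (hasDerivAt_dSS N M (by linarith) (by linarith)) h2
  have h4 := h3.neg.const_mul (((M + 2 : ℕ) : ℝ) ^ (N + 2) / ((N + 1).factorial : ℝ))
  refine h4.congr_deriv ?_
  ring

/-- derivative data. -/
structure ShpD (s ds : ℝ → ℝ) (xi z : ℝ) : Prop where
  hd : ∀ x, 0 < x → x < 1 → HasDerivAt s (ds x) x
  dpos : ∀ x, 1 / 2 ≤ x → x < z → 0 < ds x
  dmono : MonotoneOn ds (Icc (1 / 2) xi)

theorem shp (N M : ℕ) (hnz : (((M : ℝ) + 2) / (M + 3)) ^ (N + 2) < 1 / 2) :
    ∃ xi z, Shp (sfun (M + 2) (N + 1)) xi z ∧ ShpD (sfun (M + 2) (N + 1)) (dsf N M) xi z := by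
  have hNM := hNM_of N M hnz
  have hcst := cst_pos N M
  obtain ⟨ζ, hζ0, hζ1, hanti, hleft⟩ := shapeB N M hNM
  have hSζ : ∀ p, ζ ≤ p → p < 1 / 2 → 0 < SS N M p := by
    intro p hp hp2
    have := hanti ⟨hp, hp2.le⟩ ⟨hζ1.le, le_rfl⟩ hp2
    rw [SS_half] at this
    exact this
  have hdζ : dSS N M ζ ≤ 0 := by
    by_contra hcon
    push Not at hcon
    obtain ⟨w, w1, w2, w3⟩ := exists_right (hasDerivAt_SS N M hζ0 (by linarith)) hcon hζ1
    have := hanti ⟨le_rfl, hζ1.le⟩ ⟨w1.le, w2.le⟩ w1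
    linarith
  have hdneg : ∀ u, ζ < u → u < 1 / 2 → dSS N M u < 0 :=
    lemK N M hζ0 (hSζ ζ le_rfl hζ1).le hdζ hNM
  have hdhalf : dSS N M (1 / 2) < 0 := by
    unfold dSS
    have h2 : (0 : ℝ) < Real.log 2 := Real.log_pos (by norm_num)
    have h3 : -Real.log (1 / 2 : ℝ) = Real.log 2 := by rw [one_div, Real.log_inv, neg_neg]
    rw [show (1 : ℝ) - 1 / 2 = 1 / 2 by norm_num, h3]
    have h4 : 0 < Real.log 2 ^ N * (1 / 2) ^ M := by positivity
    have h5 := mul_lt_mul_of_pos_left hNM h4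
    nlinarith
  -- the inflection point
  obtain ⟨p0, hp1, hp2, hge, hlt⟩ : ∃ p0, ζ ≤ p0 ∧ p0 ≤ 1 / 2 ∧
      (∀ t, p0 < t → t < 1 / 2 → 0 ≤ ddSS N M t) ∧
      (∀ t, ζ < t → t < p0 → ddSS N M t ≤ 0) := by
    by_cases hT : ∃ p, ζ < p ∧ p < 1 / 2 ∧ 0 ≤ ddSS N M p
    · obtain ⟨q, hq⟩ := hT
      set T := {p | ζ < p ∧ p < 1 / 2 ∧ 0 ≤ ddSS N M p} with hTdef
      have hqT : q ∈ T := hq
      have hbdd : BddBelow T := ⟨ζ, fun p hp => hp.1.le⟩
      refine ⟨sInf T, le_csInf ⟨q, hqT⟩ fun p hp => hp.1.le,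
        (csInf_le hbdd hqT).trans hq.2.1.le, ?_, ?_⟩
      · intro t ht ht2
        obtain ⟨p, hp, hpt⟩ := exists_lt_of_csInf_lt ⟨q, hqT⟩ ht
        exact propagate N M hNM hnz (hζ0.trans hp.1) hp.2.1 (hSζ p hp.1.le hp.2.1)
          (hdneg p hp.1 hp.2.1) hp.2.2 t hpt ht2
      · intro t ht ht2
        by_contra hcon
        push Not at hcon
        have h3 : sInf T ≤ 1 / 2 := (csInf_le hbdd hqT).trans hq.2.1.le
        have : t ∈ T := ⟨ht, by linarith, hcon.le⟩
        have := csInf_le hbdd this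
        linarith
    · push Not at hT
      exact ⟨1 / 2, hζ1.le, le_rfl, fun t h1 h2 => by linarith, fun t h1 h2 => (hT t h1 h2).le⟩
  have hder : ∀ x, 0 < x → x < 1 → HasDerivAt (sfun (M + 2) (N + 1)) (dsf N M x) x :=
    fun x h0 h1 => hasDerivAt_sfun N M h0 h1
  have hder2 : ∀ x, 0 < x → x < 1 → HasDerivAt (dsf N M)
      ((((M + 2 : ℕ) : ℝ) ^ (N + 2) / ((N + 1).factorial : ℝ)) * ddSS N M (1 - x)) x :=
    fun x h0 h1 => hasDerivAt_dsf N M h0 h1
  have hcs := continuousOn_sfun N M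
  refine ⟨1 - p0, 1 - ζ, ⟨hcs, sfun_half N M, sfun_one N M, by linarith, by linarith, by linarith,
    by linarith, ?_, ?_, ?_, ?_⟩, ⟨hder, ?_, ?_⟩⟩
  · intro x hx y hy hxy
    simp only [sfun_eq]
    apply mul_lt_mul_of_pos_left _ hcst
    exact hanti ⟨by linarith [hy.2], by linarith [hy.1]⟩ ⟨by linarith [hx.2], by linarith [hx.1]⟩
      (by linarith)
  · intro x y hx hxy hy hs
    simp only [sfun_eq] at hs ⊢
    apply mul_lt_mul_of_pos_left _ hcst
    apply hleft (1 - y) (1 - x) (by linarith) (by linarith) (by linarith)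
    exact nonneg_of_mul_nonneg_right hs hcst
  · apply convexOn_of_hasDerivWithinAt2_nonneg (convex_Icc _ _)
      (f' := dsf N M) (f'' := fun x => (((M + 2 : ℕ) : ℝ) ^ (N + 2) / ((N + 1).factorial : ℝ)) *
        ddSS N M (1 - x))
    · exact hcs.mono (Icc_subset_Icc (by norm_num) (by linarith))
    · intro x hx
      rw [interior_Icc] at hx ⊢
      exact (hder x (by linarith [hx.1]) (by linarith [hx.2])).hasDerivWithinAt
    · intro x hx
      rw [interior_Icc] at hx ⊢
      exact (hder2 x (by linarith [hx.1]) (by linarith [hx.2])).hasDerivWithinAt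
    · intro x hx
      rw [interior_Icc] at hx
      exact mul_nonneg hcst.le (hge (1 - x) (by linarith [hx.2]) (by linarith [hx.1]))
  · apply concaveOn_of_hasDerivWithinAt2_nonpos (convex_Icc _ _)
      (f' := dsf N M) (f'' := fun x => (((M + 2 : ℕ) : ℝ) ^ (N + 2) / ((N + 1).factorial : ℝ)) *
        ddSS N M (1 - x))
    · exact hcs.mono (Icc_subset_Icc (by linarith) (by linarith))
    · intro x hx
      rw [interior_Icc] at hx ⊢
      exact (hder x (by linarith [hx.1]) (by linarith [hx.2])).hasDerivWithinAt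
    · intro x hx
      rw [interior_Icc] at hx ⊢
      exact (hder2 x (by linarith [hx.1]) (by linarith [hx.2])).hasDerivWithinAt
    · intro x hx
      rw [interior_Icc] at hx
      exact mul_nonpos_of_nonneg_of_nonpos hcst.le
        (hlt (1 - x) (by linarith [hx.2]) (by linarith [hx.1]))
  · intro x hx hxz
    unfold dsf
    apply mul_pos hcst
    rcases hx.eq_or_lt with h | h
    · rw [← h, show (1 : ℝ) - 1 / 2 = 1 / 2 by norm_num]
      linarith
    · have := hdneg (1 - x) (by linarith) (by linarith)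
      linarith
  · apply monotoneOn_of_deriv_nonneg (convex_Icc _ _)
    · intro x hx
      exact (hder2 x (by linarith [hx.1]) (by linarith [hx.2])).continuousAt.continuousWithinAt
    · intro x hx
      rw [interior_Icc] at hx
      exact (hder2 x (by linarith [hx.1]) (by linarith [hx.2])).differentiableAt.differentiableWithinAt
    · intro x hx
      rw [interior_Icc] at hx
      rw [(hder2 x (by linarith [hx.1]) (by linarith [hx.2])).deriv]
      exact mul_nonneg hcst.le (hge (1 - x) (by linarith [hx.2]) (by linarith [hx.1]))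

end Pool.Agent.H17.KU
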