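import Pool.Agent.H17.KU.Rlz
import Pool.Agent.H17.KU.Shp
import Pool.Graph.R_pool_sql_team_seeded_843ab51a.V11309.KRec.Final

/-! The bound is attained: laws with quantile function `s` up to `b`, affine afterwards. -/

namespace Pool.Agent.H17.KU

open MeasureTheory ProbabilityTheory Set Filter Topology
open V11309.KRec

/-- clamping to `[1-b, b]`. -/
noncomputable def cl (b u : ℝ) : ℝ := max (1 - b) (min u b)

/-- the full quantile function. -/
noncomputable def gf (s : ℝ → ℝ) (b γ u : ℝ) : ℝ := s (cl b u) + γ * (u - cl b u)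

lemma cl_symm {b : ℝ} (h1 : 1 / 2 ≤ b) (u : ℝ) : cl b (1 - u) = 1 - cl b u := by
  unfold cl
  rcases le_total u b with h | h
  · rcases le_total (1 - u) b with h' | h'
    · rw [min_eq_left h, min_eq_left h', max_eq_right (by linarith), max_eq_right (by linarith)]
    · rw [min_eq_left h, min_eq_right h', max_eq_right (by linarith), max_eq_left (by linarith)]
      ring
  · rw [min_eq_right h, min_eq_left (by linarith), max_eq_left (by linarith),
      max_eq_right (by linarith)]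

lemma cl_mem {b : ℝ} (h1 : 1 / 2 ≤ b) (u : ℝ) : cl b u ∈ Icc (1 - b) b :=
  ⟨le_max_left _ _, max_le (by linarith) (min_le_right _ _)⟩

lemma cl_low {b u : ℝ} (h1 : 1 / 2 ≤ b) (hu : u ≤ 1 - b) : cl b u = 1 - b := by
  unfold cl
  rw [min_eq_left (by linarith), max_eq_left hu]

lemma cl_mid {b u : ℝ} (hu : 1 - b ≤ u) (hu2 : u ≤ b) : cl b u = u := by
  unfold cl
  rw [min_eq_left hu2, max_eq_right hu]

lemma cl_high {b u : ℝ} (h1 : 1 / 2 ≤ b) (hu : b ≤ u) : cl b u = b := by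
  unfold cl
  rw [min_eq_right hu, max_eq_right (by linarith)]

lemma cl_mono {b u v : ℝ} (h : u ≤ v) : cl b u ≤ cl b v :=
  max_le_max le_rfl (min_le_min h le_rfl)

lemma cl_sub {b u v : ℝ} (h1 : 1 / 2 ≤ b) (h : u ≤ v) : u - cl b u ≤ v - cl b v := by
  rcases le_total u (1 - b) with h2 | h2
  · rw [cl_low h1 h2]
    rcases le_total v (1 - b) with h3 | h3
    · rw [cl_low h1 h3]
      linarith
    · rcases le_total v b with h4 | h4
      · rw [cl_mid h3 h4]
        linarith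
      · rw [cl_high h1 h4]
        linarith
  · rcases le_total u b with h5 | h5
    · rw [cl_mid h2 h5]
      rcases le_total v b with h4 | h4
      · rw [cl_mid (by linarith) h4]
        linarith
      · rw [cl_high h1 h4]
        linarith
    · rw [cl_high h1 h5, cl_high h1 (by linarith)]
      linarith

variable {s ds : ℝ → ℝ} {xi z : ℝ}

lemma strict_full (hsym : ∀ x, s (1 - x) = - s x) {b : ℝ} (h1 : 1 / 2 ≤ b)
    (hm : StrictMonoOn s (Icc (1 / 2) b)) (h0 : s (1 / 2) = 0) :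
    StrictMonoOn s (Icc (1 - b) b) := by
  have hpos : ∀ x ∈ Icc (1 / 2) b, 0 ≤ s x := by
    intro x hx
    have := hm.monotoneOn ⟨le_rfl, h1⟩ hx hx.1
    linarith
  have hpos' : ∀ x ∈ Icc (1 / 2) b, 1 / 2 < x → 0 < s x := by
    intro x hx hx2
    have := hm ⟨le_rfl, h1⟩ hx hx2
    linarith
  intro x hx y hy hxy
  rcases le_total (1 / 2) x with hx2 | hx2
  · exact hm ⟨hx2, hx.2⟩ ⟨by linarith, hy.2⟩ hxy
  · have ex : s x = - s (1 - x) := by
      have := hsym x
      linarith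
    rcases le_total (1 / 2) y with hy2 | hy2
    · rcases hx2.eq_or_lt with h | h
      · have p1 : s x = 0 := by rw [h, h0]
        have p2 := hpos' y ⟨hy2, hy.2⟩ (by linarith)
        linarith
      · have p1 := hpos' (1 - x) ⟨by linarith, by linarith [hx.1]⟩ (by linarith)
        have p2 := hpos y ⟨hy2, hy.2⟩
        linarith
    · have ey : s y = - s (1 - y) := by
        have := hsym y
        linarith
      have := hm (a := 1 - y) (b := 1 - x) ⟨by linarith, by linarith [hy.1]⟩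
        ⟨by linarith, by linarith [hx.1]⟩ (by linarith)
      linarith

lemma memLp_cont {f : ℝ → ℝ} (hf : ContinuousOn f (Icc 0 1)) : MemLp f 2 UU := by
  obtain ⟨C, hC⟩ := isCompact_Icc.exists_bound_of_continuousOn hf
  apply MemLp.of_bound ((hf.mono Ioo_subset_Icc_self).aestronglyMeasurable measurableSet_Ioo) C
  have h3 : ∀ᵐ u ∂UU, u ∈ Ioo (0 : ℝ) 1 := ae_restrict_mem measurableSet_Ioo
  filter_upwards [h3] with u hu
  exact hC u ⟨hu.1.le, hu.2.le⟩

lemma memLp_half {f : ℝ → ℝ} (hf : MemLp f 2 UU) :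
    MemLp f 2 (volume.restrict (Ioo (1 / 2) 1)) :=
  hf.mono_measure (Measure.restrict_mono (Ioo_subset_Ioo (by norm_num) le_rfl) le_rfl)

/-- Attainment. -/
theorem attain (H : Shp s xi z) (HD : ShpD s ds xi z) (hsym : ∀ x, s (1 - x) = - s x)
    (hdm : Measurable ds) (hdsym : ∀ x, ds (1 - x) = ds x) {b γ : ℝ} (h1 : 1 / 2 ≤ b)
    (h2 : b ≤ xi) (hbz : b < z) (hγ : 0 < γ) (hle : ∀ u, 1 / 2 < u → u ≤ b → ds u ≤ γ)
    {f : ℝ → ℝ} (hf : MemLp f 2 UU) (hfs : ∀ u, f u - f (1 - u) = s u)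
    (hI0 : s b * ∫ x in b..1, (s x - (s b + γ * (x - b))) = 0)
    (hI1 : ∫ x in b..1, (x - b) * (s x - (s b + γ * (x - b))) = 0)
    (hQ : 0 < ∫ u in Ioo (1 / 2 : ℝ) 1, gz s b γ u ^ 2) :
    ∃ ν : Measure ℝ, UniParent ν ∧
      ((∫ u in (0 : ℝ)..1, quant ν u * f u) - mean ν) / √(var ν) =
        √((∫ u in Ioo (1 / 2 : ℝ) 1, gz s b γ u ^ 2) / 2) := by
  have hb1 : b < 1 := hbz.trans H.hz2
  have hgz : ∀ u ∈ Ioo (1 / 2 : ℝ) 1, gf s b γ u = gz s b γ u := by
    intro u hu
    unfold gf gz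
    split_ifs with h
    · rw [cl_mid (by linarith [hu.1]) h]
      ring
    · push Not at h
      rw [cl_high h1 h.le]
  have hsq : ∫ u in Ioo (1 / 2 : ℝ) 1, gf s b γ u ^ 2 =
      ∫ u in Ioo (1 / 2 : ℝ) 1, gz s b γ u ^ 2 := by
    apply setIntegral_congr_fun measurableSet_Ioo
    intro u hu
    simp only [hgz u hu]
  have hcc : ContinuousOn (gf s b γ) (Icc 0 1) := by
    have hclc : Continuous (cl b) := by
      unfold cl
      fun_prop
    apply ContinuousOn.add
    · apply H.cont.comp hclc.continuousOn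
      intro u _
      have := cl_mem h1 u
      exact ⟨by linarith [this.1], by linarith [this.2]⟩
    · exact (continuous_const.mul (continuous_id.sub hclc)).continuousOn
  have hsm : StrictMonoOn s (Icc (1 - b) b) :=
    strict_full hsym h1 (H.mono.mono (Icc_subset_Icc le_rfl hbz.le)) H.half
  have k1 : StrictMonoOn (gf s b γ) (Ioo 0 1) := by
    intro u _ v _ huv
    unfold gf
    have m1 := cl_mono (b := b) huv.le
    have m2 := cl_sub h1 huv.le
    rcases m1.eq_or_lt with h | h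
    · rw [h]
      have : γ * (u - cl b v) < γ * (v - cl b v) := mul_lt_mul_of_pos_left (by linarith) hγ
      linarith
    · have m3 := hsm (cl_mem h1 u) (cl_mem h1 v) h
      have m4 := mul_le_mul_of_nonneg_left m2 hγ.le
      linarith
  have k2 : ∀ u ∈ Ioo (0 : ℝ) 1, gf s b γ (1 - u) = - gf s b γ u := by
    intro u _
    unfold gf
    rw [cl_symm h1, hsym]
    ring
  set G' : ℝ → ℝ := fun u => if u ∈ Icc (1 - b) b then ds u else γ with hG'
  have k3 : ∀ u ∈ Ioo (0 : ℝ) 1, u ∉ ({1 / 2, b, 1 - b} : Set ℝ) →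
      HasDerivAt (gf s b γ) (G' u) u := by
    intro u hu huF
    simp only [mem_insert_iff, mem_singleton_iff, not_or] at huF
    obtain ⟨hu1, hu2, hu3⟩ := huF
    have hlin : ∀ c β : ℝ, HasDerivAt (fun u : ℝ => β + γ * (u - c)) γ u := by
      intro c β
      have := (((hasDerivAt_id u).sub_const c).const_mul γ).const_add β
      simpa using this
    simp only [hG']
    rcases lt_or_gt_of_ne hu3 with h3 | h3
    · rw [if_neg (fun hh => by linarith [hh.1])]
      apply (hlin (1 - b) (s (1 - b))).congr_of_eventuallyEq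
      filter_upwards [Iio_mem_nhds h3] with v hv
      unfold gf
      rw [cl_low h1 (le_of_lt hv)]
    · rcases lt_or_gt_of_ne hu2 with h4 | h4
      · rw [if_pos ⟨h3.le, h4.le⟩]
        apply (HD.hd u hu.1 hu.2).congr_of_eventuallyEq
        filter_upwards [Ioo_mem_nhds h3 h4] with v hv
        unfold gf
        rw [cl_mid hv.1.le hv.2.le]
        ring
      · rw [if_neg (fun hh => by linarith [hh.2])]
        apply (hlin b (s b)).congr_of_eventuallyEq
        filter_upwards [Ioi_mem_nhds h4] with v hv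
        unfold gf
        rw [cl_high h1 (le_of_lt hv)]
  have k4 : Measurable G' := Measurable.ite measurableSet_Icc hdm measurable_const
  have k5 : ∀ u ∈ Ioo (1 / 2 : ℝ) 1, 0 < G' u := by
    intro u hu
    simp only [hG']
    split_ifs with h
    · exact HD.dpos u hu.1.le (by linarith [h.2])
    · exact hγ
  have k6 : 0 ≤ G' (1 / 2) := by
    simp only [hG']
    rw [if_pos ⟨by linarith, h1⟩]
    exact (HD.dpos (1 / 2) le_rfl H.hz1).le
  have k7 : ∀ u ∈ Ioo (0 : ℝ) 1, G' (1 - u) = G' u := by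
    intro u _
    simp only [hG']
    by_cases h : u ∈ Icc (1 - b) b
    · have h' : 1 - u ∈ Icc (1 - b) b := ⟨by linarith [h.2], by linarith [h.1]⟩
      rw [if_pos h, if_pos h', hdsym]
    · have h' : 1 - u ∉ Icc (1 - b) b := by
        intro hh
        exact h ⟨by linarith [hh.2], by linarith [hh.1]⟩
      rw [if_neg h, if_neg h']
  have k8 : MonotoneOn G' (Ioo (1 / 2) 1) := by
    intro u hu v hv huv
    simp only [hG']
    by_cases hv' : v ≤ b
    · have p1 : u ∈ Icc (1 - b) b := ⟨by linarith [hu.1], by linarith⟩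
      have p2 : v ∈ Icc (1 - b) b := ⟨by linarith [hv.1], hv'⟩
      rw [if_pos p1, if_pos p2]
      exact HD.dmono ⟨hu.1.le, by linarith⟩ ⟨hv.1.le, by linarith⟩ huv
    · rw [if_neg (fun hh : v ∈ Icc (1 - b) b => hv' hh.2)]
      split_ifs with h
      · exact hle u hu.1 h.2
      · exact le_rfl
  obtain ⟨ν, n1, n2, n3, n4⟩ := realizeU (g := gf s b γ) (G' := G') (f := f)
    (F := {1 / 2, b, 1 - b}) (by simp) k1 (hcc.mono Ioo_subset_Icc_self) k2 (memLp_cont hcc) k3
    (by simp) k4 k5 k6 k7 k8 hf (by rw [hsq]; exact hQ)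
  refine ⟨ν, n1, ?_⟩
  rw [n4, n2, n3, hsq, sub_zero]
  have e1 : ∫ u in Ioo (1 / 2 : ℝ) 1, gf s b γ u * (f u - f (1 - u)) =
      ∫ u in Ioo (1 / 2 : ℝ) 1, gz s b γ u * s u := by
    apply setIntegral_congr_fun measurableSet_Ioo
    intro u hu
    simp only [hgz u hu, hfs u]
  rw [e1, self_gz H.cont h1 hb1 hI0 hI1]
  set Q := ∫ u in Ioo (1 / 2 : ℝ) 1, gz s b γ u ^ 2
  rw [div_eq_iff (Real.sqrt_pos.mpr (by positivity)).ne', ← Real.sqrt_mul (by positivity)]
  have e6 : Q / 2 * (2 * Q) = Q ^ 2 := by ring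
  rw [e6, Real.sqrt_sq hQ.le]

/-- Upper bound for all ratios from a correlation inequality. -/
theorem ratio_le {f P s : ℝ → ℝ} (hf : MemLp f 2 UU) (hf1 : ∫ x in (0 : ℝ)..1, f x = 1)
    (hfs : ∀ u, f u - f (1 - u) = s u) (hP : MemLp P 2 (volume.restrict (Ioo (1 / 2) 1)))
    (hQ : 0 < ∫ u in Ioo (1 / 2 : ℝ) 1, P u ^ 2)
    (hcor : ∀ g : ℝ → ℝ, ConvexOn ℝ (Ico (1 / 2) 1) g → g (1 / 2) = 0 →
      (∀ u ∈ Ioo (1 / 2 : ℝ) 1, 0 ≤ g u) → MemLp g 2 (volume.restrict (Ioo (1 / 2) 1)) →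
      ∫ u in Ioo (1 / 2 : ℝ) 1, g u * s u ≤ ∫ u in Ioo (1 / 2 : ℝ) 1, g u * P u)
    {ν : Measure ℝ} (hν : UniParent ν) :
    ((∫ u in (0 : ℝ)..1, quant ν u * f u) - mean ν) / √(var ν) ≤
      √((∫ u in Ioo (1 / 2 : ℝ) 1, P u ^ 2) / 2) := by
  obtain ⟨g, g1, g2, g3, g4, g5, g6⟩ := reduceU hν hf hf1
  have hvp := hν.var_pos
  have e1 : ∫ u in Ioo (1 / 2 : ℝ) 1, g u * (f u - f (1 - u)) =
      ∫ u in Ioo (1 / 2 : ℝ) 1, g u * s u := by
    apply setIntegral_congr_fun measurableSet_Ioo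
    intro u _
    simp only [hfs u]
  rw [g6, e1, div_le_iff₀ (Real.sqrt_pos.mpr hvp), ← Real.sqrt_mul (by positivity), g5]
  refine (hcor g g1 g2 g3 g4).trans ((cs_aux g4 hP hQ).trans (le_of_eq ?_))
  congr 1
  ring

end Pool.Agent.H17.KU
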