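import Pool.Graph.R_pool_sql_team_seeded_843ab51a.V11309.KRec.Quant

/-! Symmetric unimodal parents. -/

namespace Pool.Agent.H17.KU

open MeasureTheory ProbabilityTheory Set Filter Topology
open V11309.KRec

/-- The class `𝒮𝒰`: members of `𝒮` with a density that is nondecreasing to the left of the mean and
nonincreasing to the right of it. -/
structure UniParent (ν : Measure ℝ) : Prop extends SymParent ν where
  unimodal : ∃ p : ℝ → ℝ, Measurable p ∧ (∀ x, 0 ≤ p x) ∧
    ν = volume.withDensity (fun x => ENNReal.ofReal (p x)) ∧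
    MonotoneOn p (Iio (mean ν)) ∧ AntitoneOn p (Ioi (mean ν))

/-- The numbers `(E_F R - μ_F) / σ_F`, `F ∈ 𝒮𝒰`. -/
def uratios (k n : ℕ) : Set ℝ :=
  {r | ∃ ν : Measure ℝ, UniParent ν ∧ r = (recMean k n ν - mean ν) / √(var ν)}

lemma meas_Ioc (ν : Measure ℝ) [IsProbabilityMeasure ν] (x y : ℝ) :
    ν (Ioc x y) = ENNReal.ofReal (cdf ν y - cdf ν x) := by
  have h := StieltjesFunction.measure_Ioc (cdf ν) x y
  rwa [measure_cdf] at h

lemma cdf_concave {ν : Measure ℝ} (h : UniParent ν) : ConcaveOn ℝ (Ici (mean ν)) (cdf ν) := by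
  have := h.prob
  obtain ⟨p, hpm, hp0, hν, -, hanti⟩ := h.unimodal
  have hdens : ∀ x y, ν (Ioc x y) = ∫⁻ t in Ioc x y, ENNReal.ofReal (p t) := by
    intro x y
    conv_lhs => rw [hν]
    rw [withDensity_apply _ measurableSet_Ioc]
  apply concaveOn_of_slope_anti_adjacent (convex_Ici _)
  intro x y w hx hw hxy hyw
  have hx' : mean ν ≤ x := hx
  have hF1 : cdf ν x ≤ cdf ν y := monotone_cdf ν hxy.le
  have hF2 : cdf ν y ≤ cdf ν w := monotone_cdf ν hyw.le
  have h1 : p y * (y - x) ≤ cdf ν y - cdf ν x := by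
    have h2 : ENNReal.ofReal (p y * (y - x)) ≤ ENNReal.ofReal (cdf ν y - cdf ν x) := by
      rw [← meas_Ioc, hdens, ENNReal.ofReal_mul (hp0 y), ← Real.volume_Ioc,
        ← setLIntegral_const]
      apply setLIntegral_mono' measurableSet_Ioc
      intro t ht
      apply ENNReal.ofReal_le_ofReal
      exact hanti (show mean ν < t by linarith [ht.1]) (show mean ν < y by linarith) ht.2
    rwa [ENNReal.ofReal_le_ofReal_iff (by linarith)] at h2
  have h3 : cdf ν w - cdf ν y ≤ p y * (w - y) := by
    have h2 : ENNReal.ofReal (cdf ν w - cdf ν y) ≤ ENNReal.ofReal (p y * (w - y)) := by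
      rw [← meas_Ioc, hdens, ENNReal.ofReal_mul (hp0 y), ← Real.volume_Ioc,
        ← setLIntegral_const]
      apply setLIntegral_mono' measurableSet_Ioc
      intro t ht
      apply ENNReal.ofReal_le_ofReal
      exact hanti (show mean ν < y by linarith) (show mean ν < t by linarith [ht.1]) ht.1.le
    rwa [ENNReal.ofReal_le_ofReal_iff (mul_nonneg (hp0 y) (by linarith))] at h2
  have h4 : (cdf ν w - cdf ν y) / (w - y) ≤ p y := by
    rw [div_le_iff₀ (by linarith)]
    exact h3
  have h5 : p y ≤ (cdf ν y - cdf ν x) / (y - x) := by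
    rw [le_div_iff₀ (by linarith)]
    exact h1
  exact h4.trans h5

/-- Reduction of the functionals to the half interval. -/
theorem reduceU {ν : Measure ℝ} (h : UniParent ν) {f : ℝ → ℝ} (hf : MemLp f 2 UU)
    (hf1 : ∫ x in (0 : ℝ)..1, f x = 1) :
    ∃ g : ℝ → ℝ, ConvexOn ℝ (Ico (1 / 2) 1) g ∧ g (1 / 2) = 0 ∧
      (∀ u ∈ Ioo (1 / 2 : ℝ) 1, 0 ≤ g u) ∧
      MemLp g 2 (volume.restrict (Ioo (1 / 2) 1)) ∧
      var ν = 2 * ∫ u in Ioo (1 / 2 : ℝ) 1, g u ^ 2 ∧
      (∫ u in (0 : ℝ)..1, quant ν u * f u) - mean ν =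
        ∫ u in Ioo (1 / 2 : ℝ) 1, g u * (f u - f (1 - u)) := by
  have := h.prob
  have hc := h.cont
  have hmeas := aemeas_quant hc
  have hmap := map_quant hc
  have hconc := cdf_concave h
  set μ := mean ν with hμ
  set g : ℝ → ℝ := fun u => quant ν u - μ with hg
  have hLp : MemLp (quant ν) 2 UU := by
    have h1 : MemLp (id : ℝ → ℝ) 2 ν := by
      rw [memLp_two_iff_integrable_sq aestronglyMeasurable_id]
      exact h.sq
    rw [← hmap] at h1
    exact (memLp_map_measure_iff aestronglyMeasurable_id hmeas).mp h1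
  have hgLp : MemLp g 2 UU := hLp.sub (memLp_const μ)
  have hgint : Integrable g UU := hgLp.integrable (by norm_num)
  have hint : Integrable (quant ν) UU := hLp.integrable (by norm_num)
  -- mean
  have hmean : ∫ u, quant ν u ∂UU = μ := by
    rw [hμ, mean]
    conv_rhs => rw [← hmap]
    exact (integral_map hmeas (f := fun x => x) aestronglyMeasurable_id).symm
  have hgmean : ∫ u, g u ∂UU = 0 := by
    rw [hg, integral_sub hint (integrable_const μ), hmean]
    simp
  -- variance
  have hvar : var ν = ∫ u, g u ^ 2 ∂UU := by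
    rw [var]
    conv_lhs => rw [← hmap]
    rw [integral_map hmeas (by fun_prop)]
    simp only [hmap]
    rfl
  -- antisymmetry
  have hle : ∀ u ∈ Ioo (0 : ℝ) 1, g u + g (1 - u) ≤ 0 := by
    intro u hu
    have h1 := h.symm (quant ν u - μ)
    rw [← hμ, add_sub_cancel, cdf_quant hc hu.1 hu.2] at h1
    have h2 : quant ν (1 - u) ≤ μ - (quant ν u - μ) := by
      rw [quant_le_iff hc (by linarith [hu.2]) (by linarith [hu.1])]
      linarith
    simp only [hg]
    linarith
  have hII : IntervalIntegrable g volume 0 1 := by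
    rw [intervalIntegrable_iff_integrableOn_Ioo_of_le zero_le_one]
    exact hgint
  have hII' : IntervalIntegrable (fun u => g (1 - u)) volume 0 1 := by
    have := (hII.comp_sub_left 1).symm
    simpa using this
  have hanti : ∀ᵐ u ∂UU, g (1 - u) = - g u := by
    have h1 : Integrable (fun u => -(g u + g (1 - u))) UU := by
      have h2 := (hII.add hII').neg
      rw [intervalIntegrable_iff_integrableOn_Ioo_of_le zero_le_one] at h2
      exact h2
    have h2 : 0 ≤ᵐ[UU] fun u => -(g u + g (1 - u)) := by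
      have h3 : ∀ᵐ u ∂UU, u ∈ Ioo (0 : ℝ) 1 := ae_restrict_mem measurableSet_Ioo
      filter_upwards [h3] with u hu
      have := hle u hu
      simp only [Pi.zero_apply]
      linarith
    have h3 : ∫ u, -(g u + g (1 - u)) ∂UU = 0 := by
      rw [integral_neg, neg_eq_zero]
      have e1 : ∫ u, (g u + g (1 - u)) ∂UU = ∫ u in (0 : ℝ)..1, (g u + g (1 - u)) := by
        rw [intervalIntegral.integral_of_le zero_le_one, integral_Ioc_eq_integral_Ioo]
      rw [e1, intervalIntegral.integral_add hII hII', intervalIntegral.integral_comp_sub_left]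
      have e2 : ∫ u in (0 : ℝ)..1, g u = 0 := by
        rw [intervalIntegral.integral_of_le zero_le_one, integral_Ioc_eq_integral_Ioo]
        exact hgmean
      simp [e2]
    have h4 := (integral_eq_zero_iff_of_nonneg_ae h2 h1).mp h3
    filter_upwards [h4] with u hu
    simp only [Pi.zero_apply] at hu
    linarith
  -- restriction to the upper half
  have hsub : Ioo (1 / 2 : ℝ) 1 ⊆ Ioo 0 1 := Ioo_subset_Ioo (by norm_num) le_rfl
  have hae : ∀ᵐ u ∂(volume.restrict (Ioo (1 / 2 : ℝ) 1)), g (1 - u) = - g u :=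
    ae_restrict_of_ae_restrict_of_subset hsub hanti
  have toInt : ∀ G H : ℝ → ℝ, (∀ᵐ u ∂(volume.restrict (Ioo (1 / 2 : ℝ) 1)), G u = H u) →
      ∫ u in (1 / 2 : ℝ)..1, G u = ∫ u in Ioo (1 / 2 : ℝ) 1, H u := by
    intro G H hGH
    rw [intervalIntegral.integral_of_le (by norm_num), integral_Ioc_eq_integral_Ioo]
    exact integral_congr_ae hGH
  have hgf : Integrable (fun u => g u * f u) UU := hgLp.integrable_mul hf
  have hqf : Integrable (fun u => quant ν u * f u) UU := hLp.integrable_mul hf
  have hfi : IntervalIntegrable f volume 0 1 := by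
    rw [intervalIntegrable_iff_integrableOn_Ioo_of_le zero_le_one]
    exact hf.integrable (by norm_num)
  -- nonnegativity
  have hF12 : cdf ν μ = 1 / 2 := by
    have h1 := h.symm 0
    rw [add_zero, sub_zero, ← hμ] at h1
    linarith
  have hnn : ∀ u ∈ Ioo (1 / 2 : ℝ) 1, 0 ≤ g u := by
    intro u hu
    by_contra hcon
    push Not at hcon
    have h2 := monotone_cdf ν (show quant ν u ≤ μ by simp only [hg] at hcon; linarith)
    rw [cdf_quant hc (hsub hu).1 (hsub hu).2] at h2
    linarith [hu.1]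
  -- the modified function
  set G : ℝ → ℝ := fun u => if u ≤ 1 / 2 then 0 else g u with hG
  have hGg : ∀ u ∈ Ioo (1 / 2 : ℝ) 1, G u = g u := by
    intro u hu
    simp only [hG]
    rw [if_neg (not_le.mpr hu.1)]
  have hGae : G =ᵐ[volume.restrict (Ioo (1 / 2 : ℝ) 1)] g := by
    have h3 : ∀ᵐ u ∂(volume.restrict (Ioo (1 / 2 : ℝ) 1)), u ∈ Ioo (1 / 2 : ℝ) 1 :=
      ae_restrict_mem measurableSet_Ioo
    filter_upwards [h3] with u hu
    exact hGg u hu
  have hG0 : ∀ u ∈ Ico (1 / 2 : ℝ) 1, 0 ≤ G u := by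
    intro u hu
    rcases hu.1.eq_or_lt with h' | h'
    · simp only [hG]
      rw [if_pos h'.ge]
    · rw [hGg u ⟨h', hu.2⟩]
      exact hnn u ⟨h', hu.2⟩
  have hFG : ∀ u ∈ Ico (1 / 2 : ℝ) 1, cdf ν (G u + μ) = u := by
    intro u hu
    rcases hu.1.eq_or_lt with h' | h'
    · simp only [hG]
      rw [if_pos h'.ge, zero_add, hF12, h']
    · rw [hGg u ⟨h', hu.2⟩]
      simp only [hg, sub_add_cancel]
      exact cdf_quant hc (by linarith) hu.2
  refine ⟨G, ⟨convex_Ico _ _, ?_⟩, ?_, ?_, ?_, ?_, ?_⟩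
  · intro u hu v hv a b ha hb hab
    simp only [smul_eq_mul]
    set w := a * u + b * v with hw
    have hw1 : w ∈ Ico (1 / 2 : ℝ) 1 := by
      have := (convex_Ico (1 / 2 : ℝ) 1) hu hv ha hb hab
      simpa [smul_eq_mul] using this
    rcases hw1.1.eq_or_lt with h' | h'
    · have h1 : G w = 0 := by
        simp only [hG]
        rw [if_pos h'.ge]
      rw [h1]
      have := mul_nonneg ha (hG0 u hu)
      have := mul_nonneg hb (hG0 v hv)
      linarith
    · rw [hGg w ⟨h', hw1.2⟩]
      have h1 : quant ν w ≤ a * (G u + μ) + b * (G v + μ) := by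
        rw [quant_le_iff hc (by linarith) hw1.2]
        have h2 := hconc.2 (show G u + μ ∈ Ici μ by
            rw [mem_Ici]; linarith [hG0 u hu]) (show G v + μ ∈ Ici μ by
            rw [mem_Ici]; linarith [hG0 v hv]) ha hb hab
        rw [smul_eq_mul, smul_eq_mul, smul_eq_mul, smul_eq_mul, hFG u hu, hFG v hv] at h2
        exact h2
      have h3 : a * μ + b * μ = μ := by rw [← add_mul, hab, one_mul]
      simp only [hg]
      linarith
  · simp only [hG]
    rw [if_pos le_rfl]
  · intro u hu
    exact hG0 u ⟨hu.1.le, hu.2⟩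
  · exact (memLp_congr_ae hGae).mpr (hgLp.mono_measure (Measure.restrict_mono hsub le_rfl))
  · have e0 : ∫ u in Ioo (1 / 2 : ℝ) 1, G u ^ 2 = ∫ u in Ioo (1 / 2 : ℝ) 1, g u ^ 2 := by
      apply setIntegral_congr_fun measurableSet_Ioo
      intro u hu
      simp only [hGg u hu]
    rw [e0, hvar]
    have h1 : IntervalIntegrable (fun u => g u ^ 2) volume 0 1 := by
      rw [intervalIntegrable_iff_integrableOn_Ioo_of_le zero_le_one]
      exact hgLp.integrable_sq
    have h2 : ∫ u, g u ^ 2 ∂UU = ∫ u in (0 : ℝ)..1, g u ^ 2 := by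
      rw [intervalIntegral.integral_of_le zero_le_one, integral_Ioc_eq_integral_Ioo]
    rw [h2, hhalf _ h1, ← integral_const_mul]
    apply toInt
    filter_upwards [hae] with u hu
    rw [hu]
    ring
  · have e0 : ∫ u in Ioo (1 / 2 : ℝ) 1, G u * (f u - f (1 - u)) =
        ∫ u in Ioo (1 / 2 : ℝ) 1, g u * (f u - f (1 - u)) := by
      apply setIntegral_congr_fun measurableSet_Ioo
      intro u hu
      simp only [hGg u hu]
    rw [e0]
    have h1 : IntervalIntegrable (fun u => g u * f u) volume 0 1 := by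
      rw [intervalIntegrable_iff_integrableOn_Ioo_of_le zero_le_one]
      exact hgf
    have h2 : (∫ u in (0 : ℝ)..1, quant ν u * f u) - μ = ∫ u in (0 : ℝ)..1, g u * f u := by
      have h3 : ∫ u in (0 : ℝ)..1, g u * f u =
          ∫ u in (0 : ℝ)..1, (quant ν u * f u - μ * f u) := by
        apply intervalIntegral.integral_congr
        intro u _
        simp only [hg]
        ring
      have h4 : IntervalIntegrable (fun u => quant ν u * f u) volume 0 1 := by
        rw [intervalIntegrable_iff_integrableOn_Ioo_of_le zero_le_one]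
        exact hqf
      rw [h3, intervalIntegral.integral_sub h4 (hfi.const_mul μ),
        intervalIntegral.integral_const_mul, hf1, mul_one]
    rw [h2, hhalf _ h1]
    apply toInt
    filter_upwards [hae] with u hu
    rw [hu]
    ring

end Pool.Agent.H17.KU
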