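import Pool.Agent.H17.KU.Att

/-! The sharp constant for `k = 1`. -/

namespace Pool.Agent.H17.KU

open MeasureTheory ProbabilityTheory Set Filter Topology
open V11309.KRec

lemma dens_one (n : ℕ) (x : ℝ) :
    dens 1 n x = 1 / (n.factorial : ℝ) * (-Real.log (1 - x)) ^ n := by
  unfold dens
  simp

lemma dens_one_sq (n : ℕ) (x : ℝ) :
    dens 1 n x ^ 2 = (((2 * n).factorial : ℝ) / (n.factorial : ℝ) ^ 2) * dens 1 (2 * n) x := by
  rw [dens_one, dens_one]
  have h1 : ((2 * n).factorial : ℝ) ≠ 0 := by positivity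
  have h2 : (n.factorial : ℝ) ≠ 0 := by positivity
  field_simp
  ring

lemma cont_prim (n : ℕ) : ContinuousOn (fun x => -HH 1 n (1 - x)) (Icc 0 1) := by
  apply ContinuousOn.neg
  refine (continuousOn_HH 1 n le_rfl).comp (by fun_prop) ?_
  intro x hx
  exact mem_Ici.mpr (by linarith [hx.2])

lemma deriv_prim (n : ℕ) : ∀ x ∈ Ioo (0 : ℝ) 1,
    HasDerivAt (fun x => -HH 1 n (1 - x)) (dens 1 n x) x := by
  intro x hx
  have h2 : HasDerivAt (fun u : ℝ => 1 - u) (-1) x := by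
    simpa using (hasDerivAt_id x).const_sub 1
  have h3 := (HasDerivAt.comp (h₂ := HH 1 n) (h := fun u : ℝ => 1 - u) x
    (hasDerivAt_HH 1 n le_rfl (by linarith [hx.2])) h2).neg
  refine HasDerivAt.congr_deriv h3 ?_
  unfold dens
  ring

lemma dens_one_int (n : ℕ) : IntegrableOn (dens 1 n) (Ioc 0 1) := by
  apply intervalIntegral.integrableOn_deriv_of_nonneg (cont_prim n) (deriv_prim n)
  intro x hx
  rw [dens_one]
  have := a_pos (u := 1 - x) (by linarith [hx.2]) (by linarith [hx.1])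
  positivity

lemma dens_one_II (n : ℕ) : IntervalIntegrable (dens 1 n) volume 0 1 := by
  rw [intervalIntegrable_iff_integrableOn_Ioc_of_le zero_le_one]
  exact dens_one_int n

lemma integral_dens_1 (n : ℕ) : ∫ x in (0 : ℝ)..1, dens 1 n x = 1 := by
  rw [intervalIntegral.integral_eq_sub_of_hasDerivAt_of_le zero_le_one (cont_prim n) (deriv_prim n)
    (dens_one_II n)]
  simp only [sub_self, sub_zero]
  rw [HH_zero 1 n le_rfl, HH_one]
  ring

lemma dens_one_meas (n : ℕ) : Measurable (dens 1 n) := by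
  unfold dens
  fun_prop

lemma memLp_dens_one (n : ℕ) : MemLp (dens 1 n) 2 UU := by
  rw [memLp_two_iff_integrable_sq (dens_one_meas n).aestronglyMeasurable]
  have h1 : IntegrableOn (dens 1 (2 * n)) (Ioo 0 1) :=
    (dens_one_int (2 * n)).mono_set Ioo_subset_Ioc_self
  have h2 : Integrable (fun x => (((2 * n).factorial : ℝ) / (n.factorial : ℝ) ^ 2) *
      dens 1 (2 * n) x) UU := Integrable.const_mul h1 _
  apply h2.congr
  exact Eventually.of_forall fun x => (dens_one_sq n x).symm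

lemma memLp_dens_one' (n : ℕ) : MemLp (fun x => dens 1 n (1 - x)) 2 UU := by
  have hmm : Measurable fun x => dens 1 n (1 - x) := (dens_one_meas n).comp (by fun_prop)
  rw [memLp_two_iff_integrable_sq hmm.aestronglyMeasurable]
  have h0 : IntervalIntegrable (fun x => dens 1 n x ^ 2) volume 0 1 := by
    rw [intervalIntegrable_iff_integrableOn_Ioo_of_le zero_le_one]
    exact (memLp_dens_one n).integrable_sq
  have h1 : IntervalIntegrable (fun x => dens 1 n (1 - x) ^ 2) volume 0 1 := by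
    have := (h0.comp_sub_left 1).symm
    simpa using this
  rw [intervalIntegrable_iff_integrableOn_Ioo_of_le zero_le_one] at h1
  exact h1

lemma memLp_sfun_one (n : ℕ) : MemLp (sfun 1 n) 2 UU :=
  (memLp_dens_one n).sub (memLp_dens_one' n)

/-- `A v = (-log v)^m / v`. -/
noncomputable def AA (m : ℕ) (v : ℝ) : ℝ := (-Real.log v) ^ m * v⁻¹

lemma AA_pos (m : ℕ) {v : ℝ} (h0 : 0 < v) (h1 : v < 1) : 0 < AA m v := by
  have := a_pos h0 h1
  unfold AA
  positivity

lemma AA_convex (m : ℕ) : ConvexOn ℝ (Ioo 0 1) (AA m) := by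
  have h1 : ConvexOn ℝ (Ioo (0 : ℝ) 1) (fun v => -Real.log v) := by
    have := strictConcaveOn_log_Ioi.concaveOn.neg
    exact this.subset Ioo_subset_Ioi_self (convex_Ioo _ _)
  have h0 : ∀ x ∈ Ioo (0 : ℝ) 1, 0 ≤ -Real.log x := fun x hx => (a_pos hx.1 hx.2).le
  have h2 : ConvexOn ℝ (Ioo (0 : ℝ) 1) (fun v => (-Real.log v) ^ m) := h1.pow h0 m
  have h3 : ConvexOn ℝ (Ioo (0 : ℝ) 1) (fun v => v⁻¹) := by
    have := (convexOn_zpow (-1)).subset Ioo_subset_Ioi_self (convex_Ioo (0 : ℝ) 1)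
    simpa using this
  have a1 : AntitoneOn (fun v => (-Real.log v) ^ m) (Ioo (0 : ℝ) 1) := by
    intro x hx y hy hxy
    apply pow_le_pow_left₀ (h0 y hy)
    have := Real.log_le_log hx.1 hxy
    linarith
  have a2 : AntitoneOn (fun v : ℝ => v⁻¹) (Ioo (0 : ℝ) 1) := by
    intro x hx y hy hxy
    exact inv_anti₀ hx.1 hxy
  exact h2.mul h3 (fun x hx => pow_nonneg (h0 x hx) m) (fun x hx => inv_nonneg.mpr hx.1.le)
    (a1.monovaryOn a2)

/-- derivative of `s` for `k = 1`. -/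
noncomputable def d1 (m : ℕ) (x : ℝ) : ℝ := 1 / (m.factorial : ℝ) * (AA m (1 - x) + AA m x)

lemma hasDerivAt_sfun_one (m : ℕ) {x : ℝ} (h0 : 0 < x) (h1 : x < 1) :
    HasDerivAt (sfun 1 (m + 1)) (d1 m x) x := by
  have h2 : sfun 1 (m + 1) = fun x => 1 / ((m + 1).factorial : ℝ) * (-Real.log (1 - x)) ^ (m + 1) -
      1 / ((m + 1).factorial : ℝ) * (-Real.log x) ^ (m + 1) := by
    ext y
    unfold sfun
    rw [dens_one, dens_one, sub_sub_cancel]
  rw [h2]
  have h3 := (((hasDerivAt_b h1).pow (m + 1)).const_mul (1 / ((m + 1).factorial : ℝ))).sub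
    (((hasDerivAt_a h0).pow (m + 1)).const_mul (1 / ((m + 1).factorial : ℝ)))
  refine HasDerivAt.congr_deriv h3 ?_
  unfold d1 AA
  simp only [Nat.add_sub_cancel, Nat.factorial_succ]
  have hm : (m.factorial : ℝ) ≠ 0 := by positivity
  have hm1 : (m : ℝ) + 1 ≠ 0 := by positivity
  push_cast
  field_simp
  ring

lemma d1_mono (m : ℕ) : MonotoneOn (d1 m) (Ioo (1 / 2) 1) := by
  intro x hx y hy hxy
  unfold d1
  apply mul_le_mul_of_nonneg_left _ (by positivity)
  have hc := AA_convex m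
  have hy1 : y ∈ Ioo (0 : ℝ) 1 := ⟨by linarith [hy.1], hy.2⟩
  have hy2 : 1 - y ∈ Ioo (0 : ℝ) 1 := ⟨by linarith [hy.2], by linarith [hy1.1]⟩
  have hpos : 0 < 2 * y - 1 := by linarith [hy.1]
  have hne : 2 * y - 1 ≠ 0 := hpos.ne'
  have t0 : 0 ≤ (x - (1 - y)) / (2 * y - 1) := div_nonneg (by linarith [hx.1, hy.1]) hpos.le
  have t1 : 0 ≤ (y - x) / (2 * y - 1) := div_nonneg (by linarith) hpos.le
  have t2 : (x - (1 - y)) / (2 * y - 1) + (y - x) / (2 * y - 1) = 1 := by
    rw [← add_div, div_eq_iff hne]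
    ring
  have e1 := hc.2 hy1 hy2 t0 t1 t2
  have e2 := hc.2 hy2 hy1 t0 t1 t2
  simp only [smul_eq_mul] at e1 e2
  have q1 : (x - (1 - y)) / (2 * y - 1) * y + (y - x) / (2 * y - 1) * (1 - y) = x := by
    rw [div_mul_eq_mul_div, div_mul_eq_mul_div, ← add_div, div_eq_iff hne]
    ring
  have q2 : (x - (1 - y)) / (2 * y - 1) * (1 - y) + (y - x) / (2 * y - 1) * y = 1 - x := by
    rw [div_mul_eq_mul_div, div_mul_eq_mul_div, ← add_div, div_eq_iff hne]
    ring
  rw [q1] at e1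
  rw [q2] at e2
  have e3 : AA m (1 - x) + AA m x ≤
      ((x - (1 - y)) / (2 * y - 1) + (y - x) / (2 * y - 1)) * (AA m (1 - y) + AA m y) := by
    linarith
  rw [t2, one_mul] at e3
  exact e3

lemma d1_pos (m : ℕ) {x : ℝ} (h0 : 0 < x) (h1 : x < 1) : 0 < d1 m x := by
  have := AA_pos m h0 h1
  have := AA_pos m (v := 1 - x) (by linarith) (by linarith)
  unfold d1
  positivity

lemma d1_meas (m : ℕ) : Measurable (d1 m) := by
  unfold d1 AA
  fun_prop

theorem case_one (m : ℕ) : IsGreatest (uratios 1 (m + 1))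
    (√((∫ x in (1 / 2)..1, sfun 1 (m + 1) x ^ 2) / 2)) := by
  set s := sfun 1 (m + 1) with hs
  have hf := memLp_dens_one (m + 1)
  have hf1 := integral_dens_1 (m + 1)
  have hfs : ∀ u, dens 1 (m + 1) u - dens 1 (m + 1) (1 - u) = s u := fun u => rfl
  have hsLp : MemLp s 2 UU := memLp_sfun_one (m + 1)
  have hd : ∀ u ∈ Ioo (0 : ℝ) 1, HasDerivAt s (d1 m u) u :=
    fun u hu => hasDerivAt_sfun_one m hu.1 hu.2
  have hc : ContinuousOn s (Ioo 0 1) :=
    fun u hu => (hd u hu).continuousAt.continuousWithinAt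
  have hm : StrictMonoOn s (Ioo 0 1) := by
    apply strictMonoOn_of_deriv_pos (convex_Ioo _ _) hc
    intro u hu
    rw [interior_Ioo] at hu
    rw [(hd u hu).deriv]
    exact d1_pos m hu.1 hu.2
  have h12 : s (1 / 2) = 0 := by
    have h1 := sfun_symm 1 (m + 1) (1 / 2)
    rw [show (1 : ℝ) - 1 / 2 = 1 / 2 by norm_num] at h1
    rw [hs]
    linarith
  rw [toIoo (by norm_num)]
  have hhalfLp := memLp_half hsLp
  have hQ : 0 < ∫ u in Ioo (1 / 2 : ℝ) 1, s u ^ 2 := by
    rw [integral_pos_iff_support_of_nonneg (fun u => sq_nonneg _) hhalfLp.integrable_sq]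
    have h1 : Ioo (1 / 2 : ℝ) 1 ⊆ Function.support fun u => s u ^ 2 := by
      intro u hu
      have h2 := hm (a := 1 / 2) (b := u) ⟨by norm_num, by norm_num⟩ ⟨by linarith [hu.1], hu.2⟩ hu.1
      rw [h12] at h2
      rw [Function.mem_support]
      positivity
    refine lt_of_lt_of_le ?_ (measure_mono h1)
    rw [Measure.restrict_apply measurableSet_Ioo, inter_self, Real.volume_Ioo]
    norm_num
  constructor
  · obtain ⟨ν, n1, n2, n3, n4⟩ := realizeU (g := s) (G' := d1 m) (f := dens 1 (m + 1))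
      (F := {1 / 2}) (by simp) hm hc (fun u _ => sfun_symm 1 (m + 1) u) hsLp
      (fun u hu _ => hd u hu) (by simp) (d1_meas m)
      (fun u hu => d1_pos m (by linarith [hu.1]) hu.2)
      (d1_pos m (by norm_num) (by norm_num)).le
      (fun u _ => by
        unfold d1
        rw [sub_sub_cancel, add_comm]) (d1_mono m) hf hQ
    refine ⟨ν, n1, ?_⟩
    have hrec : recMean 1 (m + 1) ν = ∫ u in Ioo (1 / 2 : ℝ) 1, s u * s u := n4
    rw [hrec, n2, n3, sub_zero]
    have e1 : ∫ u in Ioo (1 / 2 : ℝ) 1, s u * s u = ∫ u in Ioo (1 / 2 : ℝ) 1, s u ^ 2 := by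
      apply setIntegral_congr_fun measurableSet_Ioo
      intro u _
      simp only
      ring
    rw [e1]
    set Q := ∫ u in Ioo (1 / 2 : ℝ) 1, s u ^ 2
    symm
    rw [div_eq_iff (Real.sqrt_pos.mpr (by positivity)).ne', ← Real.sqrt_mul (by positivity)]
    have e6 : Q / 2 * (2 * Q) = Q ^ 2 := by ring
    rw [e6, Real.sqrt_sq hQ.le]
  · rintro r ⟨ν, hν, rfl⟩
    exact ratio_le hf hf1 hfs hhalfLp hQ (fun g _ _ _ _ => le_rfl) hν

end Pool.Agent.H17.KU
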