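import Mathlib

/-! A rearrangement inequality for convex functions (two crossings). -/

namespace Pool.Agent.H17.KU

open MeasureTheory Set Filter Topology

lemma twoCross {b : ℝ} {g h : ℝ → ℝ} (hb1 : b < 1) (hg : ConvexOn ℝ (Ico b 1) g)
    (hcont : ContinuousOn h (Ioo b 1))
    (hord : ∀ u v w, b < u → u < v → v < w → w < 1 → 0 < h u → 0 < h w → 0 < h v)
    (hend : ∃ d0 < 1, ∀ x, d0 < x → x < 1 → h x ≤ 0)
    (hh : IntegrableOn h (Ioo b 1)) (hgh : IntegrableOn (fun x => g x * h x) (Ioo b 1))
    (hxh : IntegrableOn (fun x => (x - b) * h x) (Ioo b 1))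
    (h0 : 0 ≤ ∫ x in Ioo b 1, h x) (h0g : g b * ∫ x in Ioo b 1, h x ≤ 0)
    (h1 : ∫ x in Ioo b 1, (x - b) * h x = 0) : ∫ x in Ioo b 1, g x * h x ≤ 0 := by
  by_cases hP : ∃ x ∈ Ioo b 1, 0 < h x
  · obtain ⟨x0, hx0, hx0'⟩ := hP
    set P := {x | x ∈ Ioo b 1 ∧ 0 < h x} with hPdef
    have hx0P : x0 ∈ P := ⟨hx0, hx0'⟩
    obtain ⟨d0, hd0, hd0'⟩ := hend
    have hPb : ∀ x ∈ P, x ≤ d0 := by
      intro x hx
      by_contra hcon
      push Not at hcon
      have := hd0' x hcon hx.1.2
      linarith [hx.2]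
    have hbdA : BddAbove P := ⟨d0, hPb⟩
    have hbdB : BddBelow P := ⟨b, fun x hx => hx.1.1.le⟩
    set c := sInf P with hc
    set d := sSup P with hd
    have hbc : b ≤ c := le_csInf ⟨x0, hx0P⟩ fun x hx => hx.1.1.le
    have hd1 : d < 1 := (csSup_le ⟨x0, hx0P⟩ hPb).trans_lt hd0
    -- `P` contains two points
    have hcd : c < d := by
      have h2 : ContinuousAt h x0 := hcont.continuousAt (Ioo_mem_nhds hx0.1 hx0.2)
      have h3 : ∀ᶠ x in 𝓝 x0, 0 < h x := h2.eventually (lt_mem_nhds hx0')
      have h4 : ∀ᶠ x in 𝓝 x0, x ∈ Ioo b 1 := Ioo_mem_nhds hx0.1 hx0.2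
      have h5 : ∀ᶠ x in 𝓝[>] x0, (0 < h x ∧ x ∈ Ioo b 1) ∧ x0 < x :=
        ((h3.and h4).filter_mono nhdsWithin_le_nhds).and self_mem_nhdsWithin
      obtain ⟨x1, hx1, hx1'⟩ := h5.exists
      have h6 : c ≤ x0 := csInf_le hbdB hx0P
      have h7 : x1 ≤ d := le_csSup hbdA ⟨hx1.2, hx1.1⟩
      linarith
    have hin : ∀ x, c < x → x < d → 0 < h x := by
      intro x hcx hxd
      obtain ⟨u, hu, hux⟩ := exists_lt_of_csInf_lt ⟨x0, hx0P⟩ hcx
      obtain ⟨w, hw, hxw⟩ := exists_lt_of_lt_csSup ⟨x0, hx0P⟩ hxd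
      exact hord u x w hu.1.1 hux hxw hw.1.2 hu.2 hw.2
    have hout : ∀ x ∈ Ioo b 1, (x < c ∨ d < x) → h x ≤ 0 := by
      intro x hx hor
      by_contra hcon
      push Not at hcon
      have hxP : x ∈ P := ⟨hx, hcon⟩
      rcases hor with h' | h'
      · have := csInf_le hbdB hxP
        linarith
      · have := le_csSup hbdA hxP
        linarith
    have hcm : c ∈ Ico b 1 := ⟨hbc, by linarith⟩
    have hdm : d ∈ Ico b 1 := ⟨by linarith, hd1⟩
    set σ := (g d - g c) / (d - c) with hσ
    have hdc : 0 < d - c := by linarith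
    have hσ' : g d = g c + σ * (d - c) := by
      rw [hσ]
      field_simp
      ring
    have hlow : ∀ x ∈ Ico b 1, x < c → g c + σ * (x - c) ≤ g x := by
      intro x hx hxc
      have h2 := hg.slope_mono_adjacent hx hdm hxc hcd
      rw [← hσ, div_le_iff₀ (by linarith)] at h2
      linarith
    have hpt : ∀ x ∈ Ioo b 1, (g x - (g c + σ * (x - c))) * h x ≤ 0 := by
      intro x hx
      have hxm : x ∈ Ico b 1 := ⟨hx.1.le, hx.2⟩
      rcases lt_trichotomy x c with hxc | hxc | hxc
      · have h2 := hlow x hxm hxc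
        exact mul_nonpos_of_nonneg_of_nonpos (by linarith) (hout x hx (Or.inl hxc))
      · rw [hxc]
        simp
      · rcases lt_trichotomy x d with hxd | hxd | hxd
        · have h2 := hg.slope_mono_adjacent hcm hdm hxc hxd
          rw [div_le_div_iff₀ (by linarith) (by linarith)] at h2
          have h3 : (g x - (g c + σ * (x - c))) * (d - c) ≤ 0 := by
            have e : (g x - (g c + σ * (x - c))) * (d - c) =
                (g x - g c) * (d - x) - (g c + σ * (d - c) - g x) * (x - c) := by ring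
            rw [e, ← hσ']
            linarith
          have h4 : g x - (g c + σ * (x - c)) ≤ 0 := by
            by_contra hcon
            push Not at hcon
            have := mul_pos hcon hdc
            linarith
          exact mul_nonpos_of_nonpos_of_nonneg h4 (hin x hxc hxd).le
        · have : g x - (g c + σ * (x - c)) = 0 := by
            rw [hxd]
            linarith
          rw [this, zero_mul]
        · have h2 := hg.slope_mono_adjacent hcm hxm hcd hxd
          rw [← hσ, le_div_iff₀ (by linarith)] at h2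
          exact mul_nonpos_of_nonneg_of_nonpos (by nlinarith) (hout x hx (Or.inr hxd))
    have hAb : g c + σ * (b - c) ≤ g b := by
      rcases hbc.eq_or_lt with h' | h'
      · rw [← h']
        simp
      · exact hlow b ⟨le_rfl, hb1⟩ h'
    have i1 : IntegrableOn (fun x => (g c + σ * (b - c)) * h x) (Ioo b 1) := hh.const_mul _
    have i2 : IntegrableOn (fun x => σ * ((x - b) * h x)) (Ioo b 1) := hxh.const_mul _
    have e0 : ∫ x in Ioo b 1, g x * h x = (∫ x in Ioo b 1, (g x - (g c + σ * (x - c))) * h x) +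
        ((g c + σ * (b - c)) * ∫ x in Ioo b 1, h x) := by
      have e1 : ∀ x, (g x - (g c + σ * (x - c))) * h x =
          (g x * h x - (g c + σ * (b - c)) * h x) - σ * ((x - b) * h x) := fun x => by ring
      simp only [e1]
      have i3 : IntegrableOn (fun x => g x * h x - (g c + σ * (b - c)) * h x) (Ioo b 1) :=
        hgh.sub i1
      rw [integral_sub i3 i2, integral_sub hgh i1, integral_const_mul, integral_const_mul, h1]
      ring
    have e2 : ∫ x in Ioo b 1, (g x - (g c + σ * (x - c))) * h x ≤ 0 :=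
      setIntegral_nonpos measurableSet_Ioo hpt
    have e3 : (g c + σ * (b - c)) * ∫ x in Ioo b 1, h x ≤ g b * ∫ x in Ioo b 1, h x :=
      mul_le_mul_of_nonneg_right hAb h0
    linarith
  · push Not at hP
    have h2 : ∫ x in Ioo b 1, h x ≤ 0 := setIntegral_nonpos measurableSet_Ioo hP
    have h3 : ∫ x in Ioo b 1, -h x = 0 := by
      rw [integral_neg]
      linarith
    have h4 : (-h) =ᵐ[volume.restrict (Ioo b 1)] 0 := by
      rw [← setIntegral_eq_zero_iff_of_nonneg_ae _ hh.neg]
      · exact h3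
      · refine (ae_restrict_iff' measurableSet_Ioo).mpr (Eventually.of_forall ?_)
        intro x hx
        have := hP x hx
        simp only [Pi.zero_apply, Pi.neg_apply]
        linarith
    have h5 : ∫ x in Ioo b 1, g x * h x = 0 := by
      rw [integral_eq_zero_of_ae]
      filter_upwards [h4] with x hx
      simp only [Pi.zero_apply, Pi.neg_apply, neg_eq_zero] at hx
      rw [hx]
      simp
    rw [h5]

end Pool.Agent.H17.KU
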