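import Pool.Graph.R_pool_sql_team_seeded_843ab51a.V11309.KRec.Sfun
import Pool.Agent.H17.KU.Opt1

/-! Level sets of `s - ℓ` for lines `ℓ` of nonnegative slope touching the graph of `s`. -/

namespace Pool.Agent.H17.KU

open MeasureTheory Set Filter Topology
open V11309.KRec (Neg Hump pattern lemM)

/-- Shape data of the function `s`. -/
structure Shp (s : ℝ → ℝ) (xi z : ℝ) : Prop where
  cont : ContinuousOn s (Icc 0 1)
  half : s (1 / 2) = 0
  one : s 1 = 0
  hxi : 1 / 2 ≤ xi
  hxz : xi ≤ z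
  hz1 : 1 / 2 < z
  hz2 : z < 1
  mono : StrictMonoOn s (Icc (1 / 2) z)
  right : ∀ x y, z ≤ x → x < y → y < 1 → 0 ≤ s y → s y < s x
  conv : ConvexOn ℝ (Icc (1 / 2) xi) s
  conc : ConcaveOn ℝ (Icc xi z) s

variable {s : ℝ → ℝ} {xi z : ℝ}

lemma Shp.shape (H : Shp s xi z) : Neg s ∨ ∃ z, Hump s z :=
  Or.inr ⟨z, H.hz1, H.hz2, H.mono, H.right⟩

lemma Shp.nonneg (H : Shp s xi z) {b : ℝ} (h1 : 1 / 2 ≤ b) (h2 : b ≤ z) : 0 ≤ s b := by
  have := H.mono.monotoneOn ⟨le_rfl, H.hz1.le⟩ ⟨h1, h2⟩ h1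
  rw [H.half] at this
  exact this

lemma Shp.pos (H : Shp s xi z) {b : ℝ} (h1 : 1 / 2 < b) (h2 : b ≤ z) : 0 < s b := by
  have := H.mono ⟨le_rfl, H.hz1.le⟩ ⟨h1.le, h2⟩ h1
  rw [H.half] at this
  exact this

/-- on the concave part: above the smaller value of a function minus a line. -/
lemma conc_min {u w : ℝ} {l : ℝ → ℝ} {S : Set ℝ} (hc : ConcaveOn ℝ S s) (β γ : ℝ)
    (hl : ∀ x, l x = β + γ * x) (hu : u ∈ S) (hw : w ∈ S) (h1 : 0 < s u - l u)
    (h2 : 0 < s w - l w) {v : ℝ} (huv : u < v) (hvw : v < w) : 0 < s v - l v := by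
  have h3 := hc.2 hu hw 
    (show 0 ≤ (w - v) / (w - u) from div_nonneg (by linarith) (by linarith))
    (show 0 ≤ (v - u) / (w - u) from div_nonneg (by linarith) (by linarith))
    (by
      have : w - u ≠ 0 := by linarith
      field_simp
      ring)
  have hwu : 0 < w - u := by linarith
  have e : ((w - v) / (w - u)) • u + ((v - u) / (w - u)) • w = v := by
    simp only [smul_eq_mul]
    field_simp
    ring
  rw [e, smul_eq_mul, smul_eq_mul] at h3
  have p1 : 0 < (w - v) / (w - u) := div_pos (by linarith) hwu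
  have p2 : 0 < (v - u) / (w - u) := div_pos (by linarith) hwu
  have e2 : l v = (w - v) / (w - u) * l u + (v - u) / (w - u) * l w := by
    rw [hl, hl, hl]
    field_simp
    ring
  rw [e2]
  have q1 := mul_pos p1 h1
  have q2 := mul_pos p2 h2
  linarith

lemma conc_nonneg {u w : ℝ} {l : ℝ → ℝ} {S : Set ℝ} (hc : ConcaveOn ℝ S s) (β γ : ℝ)
    (hl : ∀ x, l x = β + γ * x) (hu : u ∈ S) (hw : w ∈ S) (h1 : 0 ≤ s u - l u)
    (h2 : 0 ≤ s w - l w) {v : ℝ} (huv : u < v) (hvw : v < w) : 0 ≤ s v - l v := by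
  have h3 := hc.2 hu hw 
    (show 0 ≤ (w - v) / (w - u) from div_nonneg (by linarith) (by linarith))
    (show 0 ≤ (v - u) / (w - u) from div_nonneg (by linarith) (by linarith))
    (by
      have : w - u ≠ 0 := by linarith
      field_simp
      ring)
  have hwu : 0 < w - u := by linarith
  have e : ((w - v) / (w - u)) • u + ((v - u) / (w - u)) • w = v := by
    simp only [smul_eq_mul]
    field_simp
    ring
  rw [e, smul_eq_mul, smul_eq_mul] at h3
  have p1 : 0 < (w - v) / (w - u) := div_pos (by linarith) hwu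
  have p2 : 0 < (v - u) / (w - u) := div_pos (by linarith) hwu
  have e2 : l v = (w - v) / (w - u) * l u + (v - u) / (w - u) * l w := by
    rw [hl, hl, hl]
    field_simp
    ring
  rw [e2]
  have q1 := mul_nonneg p1.le h1
  have q2 := mul_nonneg p2.le h2
  linarith

/-- the convex part: once positive, stays positive. -/
lemma conv_pos {b u v : ℝ} {l : ℝ → ℝ} {S : Set ℝ} (hc : ConvexOn ℝ S s) (β γ : ℝ)
    (hl : ∀ x, l x = β + γ * x) (hb : b ∈ S) (hv : v ∈ S) (h1 : s b - l b = 0)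
    (h2 : 0 < s u - l u) (hbu : b < u) (huv : u < v) : 0 < s v - l v := by
  have h3 := hc.2 hb hv 
    (show 0 ≤ (v - u) / (v - b) from div_nonneg (by linarith) (by linarith))
    (show 0 ≤ (u - b) / (v - b) from div_nonneg (by linarith) (by linarith))
    (by
      have : v - b ≠ 0 := by linarith
      field_simp
      ring)
  have hvb : 0 < v - b := by linarith
  have e : ((v - u) / (v - b)) • b + ((u - b) / (v - b)) • v = u := by
    simp only [smul_eq_mul]
    field_simp
    ring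
  rw [e, smul_eq_mul, smul_eq_mul] at h3
  have p2 : 0 < (u - b) / (v - b) := div_pos (by linarith) hvb
  have e2 : l u = (v - u) / (v - b) * l b + (u - b) / (v - b) * l v := by
    rw [hl, hl, hl]
    field_simp
    ring
  have e3 : s b = l b := by linarith
  rw [e2] at h2
  rw [e3] at h3
  have : 0 < (u - b) / (v - b) * (s v - l v) := by linarith
  exact pos_of_mul_pos_right this p2.le


/-- Claim P: the set where `s` is above the line is an interval. -/
lemma Shp.ord (H : Shp s xi z) {b lam : ℝ} (h1 : 1 / 2 ≤ b) (h2 : b ≤ xi) (hlam : 0 ≤ lam) :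
    ∀ u v w, b < u → u < v → v < w → w < 1 → 0 < s u - (s b + lam * (u - b)) →
      0 < s w - (s b + lam * (w - b)) → 0 < s v - (s b + lam * (v - b)) := by
  have hb0 : 0 ≤ s b := H.nonneg h1 (h2.trans H.hxz)
  have hl : ∀ x, (fun x => s b + lam * (x - b)) x = (s b - lam * b) + lam * x := by
    intro x
    ring
  have hlpos : ∀ x, b ≤ x → 0 ≤ s b + lam * (x - b) := by
    intro x hx
    have := mul_nonneg hlam (by linarith : 0 ≤ x - b)
    linarith
  -- the case `w ≤ z`
  have key : ∀ u v w, b < u → u < v → v < w → w ≤ z → 0 < s u - (s b + lam * (u - b)) →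
      0 < s w - (s b + lam * (w - b)) → 0 < s v - (s b + lam * (v - b)) := by
    intro u v w hbu huv hvw hwz hu hw
    rcases le_or_gt xi u with hxu | hxu
    · exact conc_min H.conc _ _ hl (⟨hxu, by linarith⟩ : u ∈ Icc xi z)
        (⟨by linarith, hwz⟩ : w ∈ Icc xi z) hu hw huv hvw
    · have hpos : ∀ y, u < y → y ≤ xi → 0 < s y - (s b + lam * (y - b)) := by
        intro y huy hyx
        exact conv_pos H.conv _ _ hl (⟨h1, h2⟩ : b ∈ Icc (1 / 2) xi)
          (⟨by linarith, hyx⟩ : y ∈ Icc (1 / 2) xi) (by ring) hu hbu huy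
      rcases le_or_gt v xi with hvx | hvx
      · exact hpos v huv hvx
      · exact conc_min H.conc _ _ hl (⟨le_rfl, H.hxz⟩ : xi ∈ Icc xi z)
          (⟨by linarith, hwz⟩ : w ∈ Icc xi z) (hpos xi hxu le_rfl) hw hvx hvw
  intro u v w hbu huv hvw hw1 hu hw
  rcases le_or_gt w z with hwz | hwz
  · exact key u v w hbu huv hvw hwz hu hw
  · have hsw : 0 ≤ s w := by
      have := hlpos w (by linarith)
      linarith
    rcases le_or_gt z v with hzv | hzv
    · have h3 := H.right v w hzv hvw hw1 hsw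
      have h4 : lam * (v - b) ≤ lam * (w - b) := mul_le_mul_of_nonneg_left (by linarith) hlam
      linarith
    · have h3 := H.right z w le_rfl hwz hw1 hsw
      have h4 : lam * (z - b) ≤ lam * (w - b) := mul_le_mul_of_nonneg_left (by linarith) hlam
      exact key u v z hbu huv hzv le_rfl hu (by linarith)

/-- Pattern above a line through a point of the concave part. -/
lemma Shp.pat (H : Shp s xi z) {lam : ℝ} (hlam : 0 ≤ lam) :
    ∀ x ∈ Ioo xi 1, ∀ y ∈ Ioo xi 1, x < y → 0 ≤ s y - (s xi + lam * (y - xi)) →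
      0 ≤ s x - (s xi + lam * (x - xi)) := by
  have hb0 : 0 ≤ s xi := H.nonneg H.hxi H.hxz
  have hl : ∀ x, (fun x => s xi + lam * (x - xi)) x = (s xi - lam * xi) + lam * x := by
    intro x
    ring
  have key : ∀ x y, xi < x → x < y → y ≤ z → 0 ≤ s y - (s xi + lam * (y - xi)) →
      0 ≤ s x - (s xi + lam * (x - xi)) := by
    intro x y hx hxy hyz hy
    exact conc_nonneg H.conc _ _ hl (⟨le_rfl, H.hxz⟩ : xi ∈ Icc xi z)
      (⟨by linarith, hyz⟩ : y ∈ Icc xi z) (by ring_nf; rfl) hy hx hxy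
  intro x hx y hy hxy h
  rcases le_or_gt y z with hyz | hyz
  · exact key x y hx.1 hxy hyz h
  · have hsy : 0 ≤ s y := by
      have := mul_nonneg hlam (by linarith [hy.1] : 0 ≤ y - xi)
      linarith
    rcases le_or_gt z x with hzx | hzx
    · have h3 := H.right x y hzx hxy hy.2 hsy
      have h4 : lam * (x - xi) ≤ lam * (y - xi) := mul_le_mul_of_nonneg_left (by linarith) hlam
      linarith
    · have h3 := H.right z y le_rfl hyz hy.2 hsy
      have h4 : lam * (z - xi) ≤ lam * (y - xi) := mul_le_mul_of_nonneg_left (by linarith) hlam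
      exact key x z hx.1 hzx le_rfl (by linarith)

/-- Near `1` the function is below the line. -/
lemma Shp.end_neg (H : Shp s xi z) {β γ : ℝ} (h : 0 < β + γ) :
    ∃ d0 < 1, ∀ x, d0 < x → x < 1 → s x - (β + γ * x) ≤ 0 := by
  have hc : ContinuousWithinAt (fun x => s x - (β + γ * x)) (Icc 0 1) 1 :=
    (H.cont 1 ⟨zero_le_one, le_rfl⟩).sub (by fun_prop)
  have h1 : s 1 - (β + γ * 1) < 0 := by
    rw [H.one]
    linarith
  have h2 : ∀ᶠ x in 𝓝[Icc 0 1] (1 : ℝ), s x - (β + γ * x) < 0 := hc.eventually (gt_mem_nhds h1)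
  have h3 : 𝓝[<] (1 : ℝ) ≤ 𝓝[Icc 0 1] 1 := by
    rw [← nhdsWithin_Ioo_eq_nhdsLT (zero_lt_one : (0 : ℝ) < 1)]
    exact nhdsWithin_mono _ Ioo_subset_Icc_self
  have h4 := h2.filter_mono h3
  obtain ⟨d0, hd0, hd1⟩ := (mem_nhdsLT_iff_exists_Ioo_subset).mp h4
  exact ⟨d0, hd0, fun x hx1 hx2 => le_of_lt (hd1 ⟨hx1, hx2⟩)⟩

end Pool.Agent.H17.KU
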