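import Pool.Agent.H17.KU.Opt2

/-! The auxiliary function `Φ` and the breaking point `b`. -/

namespace Pool.Agent.H17.KU

open MeasureTheory Set Filter Topology
open V11309.KRec (Neg Hump pattern lemM)

/-- the slope `λ(b)` of the line through `(b, s b)` with `∫_b^1 (s - line) = 0`. -/
noncomputable def lam (s : ℝ → ℝ) (b : ℝ) : ℝ :=
  2 * ((∫ x in b..1, s x) - (1 - b) * s b) / (1 - b) ^ 2

/-- the function `Φ`. -/
noncomputable def Phi (s : ℝ → ℝ) (b : ℝ) : ℝ :=
  (∫ x in b..1, (x - b) * s x) - 2 / 3 * (1 - b) * (∫ x in b..1, s x) + (1 - b) ^ 2 / 6 * s b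

variable {s : ℝ → ℝ} {xi z : ℝ}

lemma ii_of_cont {f : ℝ → ℝ} (hf : ContinuousOn f (Icc 0 1)) {a b : ℝ} (ha : a ∈ Icc (0 : ℝ) 1)
    (hb : b ∈ Icc (0 : ℝ) 1) : IntervalIntegrable f volume a b := by
  apply ContinuousOn.intervalIntegrable
  exact hf.mono (ordConnected_Icc.uIcc_subset ha hb)

lemma int_lin (b β γ : ℝ) : ∫ x in b..1, (β + γ * (x - b)) = β * (1 - b) + γ * (1 - b) ^ 2 / 2 := by
  have h : ∀ x ∈ uIcc b 1, HasDerivAt (fun x : ℝ => β * x + γ * (x - b) ^ 2 / 2)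
      (β + γ * (x - b)) x := by
    intro x _
    have h1 := (((hasDerivAt_id x).const_mul β)).add
      (((((hasDerivAt_id x).sub_const b).pow 2).const_mul γ).div_const 2)
    refine HasDerivAt.congr_deriv h1 ?_
    simp only [id]
    push_cast
    ring
  rw [intervalIntegral.integral_eq_sub_of_hasDerivAt h
    ((by fun_prop : Continuous fun x : ℝ => β + γ * (x - b)).intervalIntegrable _ _)]
  ring

lemma int_lin2 (b β γ : ℝ) : ∫ x in b..1, (x - b) * (β + γ * (x - b)) =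
    β * (1 - b) ^ 2 / 2 + γ * (1 - b) ^ 3 / 3 := by
  have h : ∀ x ∈ uIcc b 1, HasDerivAt (fun x : ℝ => β * (x - b) ^ 2 / 2 + γ * (x - b) ^ 3 / 3)
      ((x - b) * (β + γ * (x - b))) x := by
    intro x _
    have h1 := (((((hasDerivAt_id x).sub_const b).pow 2).const_mul β).div_const 2).add
      (((((hasDerivAt_id x).sub_const b).pow 3).const_mul γ).div_const 3)
    refine HasDerivAt.congr_deriv h1 ?_
    simp only [id]
    push_cast
    ring
  rw [intervalIntegral.integral_eq_sub_of_hasDerivAt h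
    ((by fun_prop : Continuous fun x : ℝ => (x - b) * (β + γ * (x - b))).intervalIntegrable _ _)]
  ring

lemma int_lin3 (b β γ : ℝ) : ∫ x in b..1, (β + γ * (x - b)) ^ 2 =
    β ^ 2 * (1 - b) + β * γ * (1 - b) ^ 2 + γ ^ 2 * (1 - b) ^ 3 / 3 := by
  have h : ∀ x ∈ uIcc b 1, HasDerivAt
      (fun x : ℝ => β ^ 2 * (x - b) + β * γ * (x - b) ^ 2 + γ ^ 2 * (x - b) ^ 3 / 3)
      ((β + γ * (x - b)) ^ 2) x := by
    intro x _
    have h1 := ((((hasDerivAt_id x).sub_const b).const_mul (β ^ 2)).add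
      ((((hasDerivAt_id x).sub_const b).pow 2).const_mul (β * γ))).add
      (((((hasDerivAt_id x).sub_const b).pow 3).const_mul (γ ^ 2)).div_const 3)
    refine HasDerivAt.congr_deriv h1 ?_
    simp only [id]
    push_cast
    ring
  rw [intervalIntegral.integral_eq_sub_of_hasDerivAt h
    ((by fun_prop : Continuous fun x : ℝ => (β + γ * (x - b)) ^ 2).intervalIntegrable _ _)]
  ring

lemma int_h0 (hs : ContinuousOn s (Icc 0 1)) {b : ℝ} (hb0 : 0 ≤ b) (hb1 : b ≤ 1) (β γ : ℝ) :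
    ∫ x in b..1, (s x - (β + γ * (x - b))) =
      (∫ x in b..1, s x) - (β * (1 - b) + γ * (1 - b) ^ 2 / 2) := by
  rw [intervalIntegral.integral_sub (ii_of_cont hs ⟨hb0, hb1⟩ ⟨zero_le_one, le_rfl⟩)
    ((by fun_prop : Continuous fun x : ℝ => β + γ * (x - b)).intervalIntegrable _ _), int_lin]

lemma int_h1 (hs : ContinuousOn s (Icc 0 1)) {b : ℝ} (hb0 : 0 ≤ b) (hb1 : b ≤ 1) (β γ : ℝ) :
    ∫ x in b..1, (x - b) * (s x - (β + γ * (x - b))) =
      (∫ x in b..1, (x - b) * s x) - (β * (1 - b) ^ 2 / 2 + γ * (1 - b) ^ 3 / 3) := by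
  have e : ∀ x, (x - b) * (s x - (β + γ * (x - b))) =
      (x - b) * s x - (x - b) * (β + γ * (x - b)) := fun x => by ring
  simp only [e]
  have i1 : IntervalIntegrable (fun x => (x - b) * s x) volume b 1 :=
    ii_of_cont ((by fun_prop : ContinuousOn (fun x : ℝ => x - b)
    (Icc 0 1)).mul hs) ⟨hb0, hb1⟩ ⟨zero_le_one, le_rfl⟩
  rw [intervalIntegral.integral_sub i1
    ((by fun_prop : Continuous fun x : ℝ => (x - b) * (β + γ * (x - b))).intervalIntegrable _ _),
    int_lin2]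

lemma int_h0_lam (hs : ContinuousOn s (Icc 0 1)) {b : ℝ} (hb0 : 0 ≤ b) (hb1 : b < 1) :
    ∫ x in b..1, (s x - (s b + lam s b * (x - b))) = 0 := by
  rw [int_h0 hs hb0 hb1.le]
  have : 1 - b ≠ 0 := by linarith
  unfold lam
  field_simp
  ring

lemma int_h1_lam (hs : ContinuousOn s (Icc 0 1)) {b : ℝ} (hb0 : 0 ≤ b) (hb1 : b < 1) :
    ∫ x in b..1, (x - b) * (s x - (s b + lam s b * (x - b))) = Phi s b := by
  rw [int_h1 hs hb0 hb1.le]
  have : 1 - b ≠ 0 := by linarith
  unfold lam Phi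
  field_simp
  ring

lemma Phi_eq (hs : ContinuousOn s (Icc 0 1)) {b : ℝ} (hb0 : 0 ≤ b) (hb1 : b ≤ 1) :
    Phi s b = (∫ x in b..1, x * s x) - b * (∫ x in b..1, s x) -
      2 / 3 * (1 - b) * (∫ x in b..1, s x) + (1 - b) ^ 2 / 6 * s b := by
  have e : ∀ x, (x - b) * s x = x * s x - b * s x := fun x => by ring
  unfold Phi
  simp only [e]
  have i1 : IntervalIntegrable (fun x => x * s x) volume b 1 :=
    ii_of_cont ((by fun_prop : ContinuousOn (fun x : ℝ => x)
    (Icc 0 1)).mul hs) ⟨hb0, hb1⟩ ⟨zero_le_one, le_rfl⟩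
  rw [intervalIntegral.integral_sub i1
    ((ii_of_cont hs ⟨hb0, hb1⟩ ⟨zero_le_one, le_rfl⟩).const_mul b),
    intervalIntegral.integral_const_mul]

lemma cont_J (f : ℝ → ℝ) (hf : ContinuousOn f (Icc 0 1)) :
    ContinuousOn (fun b => ∫ x in b..1, f x) (Icc 0 1) := by
  have h1 : ContinuousOn (fun a => ∫ x in (1 : ℝ)..a, f x) (uIcc 1 0) := by
    apply intervalIntegral.continuousOn_primitive_interval
    rw [uIcc_of_ge zero_le_one]
    exact hf.integrableOn_Icc
  rw [uIcc_of_ge zero_le_one] at h1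
  exact h1.neg.congr fun a _ => intervalIntegral.integral_symm _ _

lemma cont_Phi (hs : ContinuousOn s (Icc 0 1)) : ContinuousOn (Phi s) (Icc 0 1) := by
  have h1 := cont_J s hs
  have h2 := cont_J (fun x => x * s x) ((by fun_prop : ContinuousOn (fun x : ℝ => x)
    (Icc 0 1)).mul hs)
  have h3 : ContinuousOn (fun b => (∫ x in b..1, x * s x) - b * (∫ x in b..1, s x) -
      2 / 3 * (1 - b) * (∫ x in b..1, s x) + (1 - b) ^ 2 / 6 * s b) (Icc 0 1) := by
    apply ContinuousOn.add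
    · apply ContinuousOn.sub
      · exact h2.sub (continuousOn_id.mul h1)
      · exact (by fun_prop : ContinuousOn (fun b : ℝ => 2 / 3 * (1 - b)) (Icc 0 1)).mul h1
    · exact (by fun_prop : ContinuousOn (fun b : ℝ => (1 - b) ^ 2 / 6) (Icc 0 1)).mul hs
  exact h3.congr fun b hb => Phi_eq hs hb.1 hb.2

lemma cont_lam (hs : ContinuousOn s (Icc 0 1)) : ContinuousOn (lam s) (Ico 0 1) := by
  unfold lam
  have h1 := (cont_J s hs).mono Ico_subset_Icc_self
  have h2 := hs.mono Ico_subset_Icc_self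
  apply ContinuousOn.div
  · apply ContinuousOn.mul continuousOn_const
    apply h1.sub
    exact (by fun_prop : ContinuousOn (fun b : ℝ => 1 - b) (Ico 0 1)).mul h2
  · fun_prop
  · intro x hx
    have : 0 < 1 - x := by linarith [hx.2]
    positivity

lemma deriv_J (f : ℝ → ℝ) (hf : ContinuousOn f (Icc 0 1)) {b : ℝ} (hb0 : 0 < b) (hb1 : b < 1) :
    HasDerivAt (fun b => ∫ x in b..1, f x) (-f b) b := by
  have hc : ContinuousAt f b := hf.continuousAt (Icc_mem_nhds hb0 hb1)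
  apply intervalIntegral.integral_hasDerivAt_left
    (ii_of_cont hf ⟨hb0.le, hb1.le⟩ ⟨zero_le_one, le_rfl⟩) _ hc
  exact (hf.mono Ioo_subset_Icc_self).stronglyMeasurableAtFilter isOpen_Ioo b ⟨hb0, hb1⟩

lemma deriv_Phi (hs : ContinuousOn s (Icc 0 1)) {b d : ℝ} (hb0 : 0 < b) (hb1 : b < 1)
    (hd : HasDerivAt s d b) : HasDerivAt (Phi s) ((1 - b) ^ 2 / 6 * (d - lam s b)) b := by
  have h1 := deriv_J s hs hb0 hb1
  have h2 := deriv_J (fun x => x * s x) ((by fun_prop : ContinuousOn (fun x : ℝ => x)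
    (Icc 0 1)).mul hs) hb0 hb1
  have hsub : HasDerivAt (fun b : ℝ => 1 - b) (-1) b := by
    simpa using (hasDerivAt_id b).const_sub 1
  have h3 := ((h2.sub ((hasDerivAt_id b).mul h1)).sub ((hsub.const_mul (2 / 3)).mul h1)).add
    (((hsub.pow 2).div_const 6).mul hd)
  have h4 : HasDerivAt (fun b => (∫ x in b..1, x * s x) - b * (∫ x in b..1, s x) -
      2 / 3 * (1 - b) * (∫ x in b..1, s x) + (1 - b) ^ 2 / 6 * s b)
      ((1 - b) ^ 2 / 6 * (d - lam s b)) b := by
    refine HasDerivAt.congr_deriv h3 ?_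
    simp only [id, Pi.pow_apply]
    have : 1 - b ≠ 0 := by linarith
    unfold lam
    push_cast
    field_simp
    ring
  apply h4.congr_of_eventuallyEq
  filter_upwards [Icc_mem_nhds hb0 hb1] with x hx
  exact Phi_eq hs hx.1 hx.2

/-- slope condition at the first zero of `Φ`. -/
lemma lam_ge (hs : ContinuousOn s (Icc 0 1)) {b d : ℝ} (hb0 : 1 / 2 < b) (hb1 : b < 1)
    (hd : HasDerivAt s d b) (h0 : Phi s b = 0) (hpos : ∀ x, 1 / 2 ≤ x → x < b → 0 < Phi s x) :
    d ≤ lam s b := by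
  by_contra hcon
  push Not at hcon
  have h1 := (deriv_Phi hs (by linarith) hb1 hd).neg
  have h2 : 0 < (1 - b) ^ 2 / 6 * (d - lam s b) := by
    have : 0 < 1 - b := by linarith
    have h3 : 0 < d - lam s b := by linarith
    positivity
  obtain ⟨w, w1, w2, w3⟩ := V11309.KRec.exists_left h1 (by linarith) hb0
  have := hpos w w1.le w2
  simp only [Pi.neg_apply] at w3
  linarith

end Pool.Agent.H17.KU
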