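import Pool.Agent.H17.KU.Cls

/-! Realisation of convex antisymmetric functions as quantile functions of laws in `𝒮𝒰`. -/

namespace Pool.Agent.H17.KU

open MeasureTheory ProbabilityTheory Set Filter Topology
open V11309.KRec

lemma meas_inter {g : ℝ → ℝ} (hgc : ContinuousOn g (Ioo 0 1)) {B : Set ℝ} (hB : MeasurableSet B) :
    MeasurableSet (Ioo (0 : ℝ) 1 ∩ g ⁻¹' B) := by
  classical
  have h1 : Measurable ((Ioo (0 : ℝ) 1).piecewise g (fun _ => (0 : ℝ))) :=
    ContinuousOn.measurable_piecewise hgc continuousOn_const measurableSet_Ioo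
  have h2 : Ioo (0 : ℝ) 1 ∩ g ⁻¹' B =
      Ioo (0 : ℝ) 1 ∩ ((Ioo (0 : ℝ) 1).piecewise g (fun _ => (0 : ℝ))) ⁻¹' B := by
    ext x
    constructor
    · rintro ⟨hx, hx2⟩
      refine ⟨hx, ?_⟩
      rw [mem_preimage, piecewise_eq_of_mem _ _ _ hx]
      exact hx2
    · rintro ⟨hx, hx2⟩
      refine ⟨hx, ?_⟩
      rw [mem_preimage, piecewise_eq_of_mem _ _ _ hx] at hx2
      exact hx2
  rw [h2]
  exact measurableSet_Ioo.inter (h1 hB)

/-- Realisation of an increasing function as a quantile function, with a unimodal density. -/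
theorem realizeU {g G' f : ℝ → ℝ} {F : Set ℝ} (hF : F.Finite)
    (hgm : StrictMonoOn g (Ioo 0 1)) (hgc : ContinuousOn g (Ioo 0 1))
    (hgs : ∀ u ∈ Ioo (0 : ℝ) 1, g (1 - u) = - g u) (hLp : MemLp g 2 UU)
    (hd : ∀ u ∈ Ioo (0 : ℝ) 1, u ∉ F → HasDerivAt g (G' u) u) (hF12 : (1 / 2 : ℝ) ∈ F)
    (hGm : Measurable G') (hGpos : ∀ u ∈ Ioo (1 / 2 : ℝ) 1, 0 < G' u) (hG12 : 0 ≤ G' (1 / 2))
    (hGs : ∀ u ∈ Ioo (0 : ℝ) 1, G' (1 - u) = G' u) (hGmono : MonotoneOn G' (Ioo (1 / 2) 1))
    (hf : MemLp f 2 UU) (hpos : 0 < ∫ u in Ioo (1 / 2 : ℝ) 1, g u ^ 2) :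
    ∃ ν : Measure ℝ, UniParent ν ∧ mean ν = 0 ∧
      var ν = 2 * (∫ u in Ioo (1 / 2 : ℝ) 1, g u ^ 2) ∧
      (∫ u in (0 : ℝ)..1, quant ν u * f u) =
        ∫ u in Ioo (1 / 2 : ℝ) 1, g u * (f u - f (1 - u)) := by
  have hmeas : AEMeasurable g UU := (hgc.aestronglyMeasurable measurableSet_Ioo).aemeasurable
  set ν := UU.map g with hν
  have hprob : IsProbabilityMeasure ν := Measure.isProbabilityMeasure_map hmeas
  have hin : ∀ᵐ u ∂UU, u ∈ Ioo (0 : ℝ) 1 := ae_restrict_mem measurableSet_Ioo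
  have hg12 : g (1 / 2) = 0 := by
    have h1 := hgs (1 / 2) ⟨by norm_num, by norm_num⟩
    rw [show (1 : ℝ) - 1 / 2 = 1 / 2 by norm_num] at h1
    linarith
  -- cdf at `g u`
  have hcdf : ∀ u ∈ Ioo (0 : ℝ) 1, cdf ν (g u) = u := by
    intro u hu
    have h1 : ν (Iic (g u)) = ENNReal.ofReal u := by
      rw [hν, Measure.map_apply_of_aemeasurable hmeas measurableSet_Iic, ← vol_Iic hu.2.le]
      apply measure_congr
      filter_upwards [hin] with v hv
      apply propext
      exact hgm.le_iff_le hv hu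
    rw [cdf_eq_real, Measure.real, h1, ENNReal.toReal_ofReal hu.1.le]
  -- quantile
  have hquant : ∀ u ∈ Ioo (0 : ℝ) 1, quant ν u = g u := by
    intro u hu
    have h1 : {x : ℝ | u ≤ cdf ν x} = Ici (g u) := by
      ext x
      simp only [mem_ofPred_eq, mem_Ici]
      constructor
      · intro h
        by_contra hcon
        push Not at hcon
        have h2 : ContinuousAt g u := hgc.continuousAt (Ioo_mem_nhds hu.1 hu.2)
        have h3 : ∀ᶠ v in 𝓝[<] u, x < g v :=
          (h2.tendsto.mono_left nhdsWithin_le_nhds).eventually (lt_mem_nhds hcon)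
        have h4 : ∀ᶠ v in 𝓝[<] u, v ∈ Ioo 0 u := Ioo_mem_nhdsLT hu.1
        obtain ⟨v, hv1, hv2⟩ := (h3.and h4).exists
        have h5 := monotone_cdf ν hv1.le
        rw [hcdf v ⟨hv2.1, hv2.2.trans hu.2⟩] at h5
        linarith [hv2.2]
      · intro h
        have := monotone_cdf ν h
        rwa [hcdf u hu] at this
    rw [quant, h1, csInf_Ici]
  -- no atoms
  have hatom : ∀ a, ν {a} = 0 := by
    intro a
    rw [hν, Measure.map_apply_of_aemeasurable hmeas (measurableSet_singleton a), UU,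
      Measure.restrict_apply₀' measurableSet_Ioo.nullMeasurableSet]
    apply Set.Subsingleton.measure_zero
    rintro x ⟨hx1, hx2⟩ y ⟨hy1, hy2⟩
    apply hgm.injOn hx2 hy2
    rw [mem_preimage, mem_singleton_iff] at hx1 hy1
    rw [hx1, hy1]
  have hcont : Continuous (cdf ν) := by
    rw [continuous_iff_continuousAt]
    intro a
    rw [(monotone_cdf ν).continuousAt_iff_leftLim_eq_rightLim, StieltjesFunction.rightLim_eq]
    apply le_antisymm ((monotone_cdf ν).leftLim_le le_rfl)
    have h1 : (cdf ν).measure {a} = 0 := by rw [measure_cdf, hatom]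
    rw [StieltjesFunction.measure_singleton, ENNReal.ofReal_eq_zero] at h1
    linarith
  have hII : IntervalIntegrable g volume 0 1 := by
    rw [intervalIntegrable_iff_integrableOn_Ioo_of_le zero_le_one]
    exact hLp.integrable (by norm_num)
  have hII2 : IntervalIntegrable (fun u => g u ^ 2) volume 0 1 := by
    rw [intervalIntegrable_iff_integrableOn_Ioo_of_le zero_le_one]
    exact hLp.integrable_sq
  have hsub : Ioo (1 / 2 : ℝ) 1 ⊆ Ioo 0 1 := Ioo_subset_Ioo (by norm_num) le_rfl
  have toInt : ∀ G H : ℝ → ℝ, (∀ u ∈ Ioo (1 / 2 : ℝ) 1, G u = H u) →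
      ∫ u in (1 / 2 : ℝ)..1, G u = ∫ u in Ioo (1 / 2 : ℝ) 1, H u := by
    intro G H hGH
    rw [intervalIntegral.integral_of_le (by norm_num), integral_Ioc_eq_integral_Ioo]
    exact setIntegral_congr_fun measurableSet_Ioo hGH
  have hmean : mean ν = 0 := by
    rw [mean, hν, integral_map hmeas (f := fun x => x) aestronglyMeasurable_id]
    have h2 : ∫ u, g u ∂UU = ∫ u in (0 : ℝ)..1, g u := by
      rw [intervalIntegral.integral_of_le zero_le_one, integral_Ioc_eq_integral_Ioo]
    rw [h2, hhalf _ hII, toInt _ (fun _ => 0)]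
    · simp
    · intro u hu
      rw [hgs u (hsub hu)]
      ring
  have hvar : var ν = 2 * (∫ u in Ioo (1 / 2 : ℝ) 1, g u ^ 2) := by
    rw [var, hmean, hν, integral_map hmeas (by fun_prop)]
    have h2 : ∫ u, (g u - 0) ^ 2 ∂UU = ∫ u in (0 : ℝ)..1, g u ^ 2 := by
      rw [intervalIntegral.integral_of_le zero_le_one, integral_Ioc_eq_integral_Ioo]
      simp
    rw [h2, hhalf _ hII2, ← integral_const_mul]
    apply toInt
    intro u hu
    rw [hgs u (hsub hu)]
    ring
  -- the range
  set R := g '' Ioo (0 : ℝ) 1 with hR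
  have hRoc : R.OrdConnected := (isPreconnected_Ioo.image g hgc).ordConnected
  have hRm : MeasurableSet R := hRoc.measurableSet
  have hRneg : ∀ y ∈ R, -y ∈ R := by
    rintro y ⟨u, hu, rfl⟩
    exact ⟨1 - u, ⟨by linarith [hu.2], by linarith [hu.1]⟩, hgs u hu⟩
  have hR0 : (0 : ℝ) ∈ R := ⟨1 / 2, ⟨by norm_num, by norm_num⟩, hg12⟩
  have hsymm : ∀ t, cdf ν t + cdf ν (-t) = 1 := by
    have hkey : ∀ t, 0 ≤ t → cdf ν t + cdf ν (-t) = 1 := by
      intro t ht
      by_cases htR : t ∈ R
      · obtain ⟨u, hu, rfl⟩ := htR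
        rw [← hgs u hu, hcdf u hu, hcdf (1 - u) ⟨by linarith [hu.2], by linarith [hu.1]⟩]
        ring
      · have hlt : ∀ u ∈ Ioo (0 : ℝ) 1, g u < t := by
          intro u hu
          by_contra hcon
          push Not at hcon
          exact htR (hRoc.out hR0 ⟨u, hu, rfl⟩ ⟨ht, hcon⟩)
        have hgt : ∀ u ∈ Ioo (0 : ℝ) 1, -t < g u := by
          intro u hu
          have h1 := hlt (1 - u) ⟨by linarith [hu.2], by linarith [hu.1]⟩
          rw [hgs u hu] at h1
          linarith
        have h2 : ν (Iic t) = 1 := by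
          rw [hν, Measure.map_apply_of_aemeasurable hmeas measurableSet_Iic,
            ← prob_compl_eq_zero_iff₀]
          · apply measure_mono_null (t := (Ioo (0 : ℝ) 1)ᶜ)
            · intro v hv hv2
              exact hv (hlt v hv2).le
            · rw [← mem_ae_iff]
              exact hin
          · exact hmeas.nullMeasurableSet_preimage measurableSet_Iic
        have h3 : ν (Iic (-t)) = 0 := by
          rw [hν, Measure.map_apply_of_aemeasurable hmeas measurableSet_Iic]
          apply measure_mono_null (t := (Ioo (0 : ℝ) 1)ᶜ)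
          · intro v hv hv2
            have h4 := hgt v hv2
            have h6 : g v ≤ -t := hv
            linarith
          · rw [← mem_ae_iff]
            exact hin
        rw [cdf_eq_real, cdf_eq_real, Measure.real, Measure.real, h2, h3]
        simp
    intro t
    rcases le_total 0 t with ht | ht
    · exact hkey t ht
    · have := hkey (-t) (by linarith)
      rw [neg_neg] at this
      linarith
  have hGpos' : ∀ u ∈ Ioo (0 : ℝ) 1, u ≠ 1 / 2 → 0 < G' u := by
    intro u hu hne
    rcases lt_or_gt_of_ne hne with h | h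
    · rw [← hGs u hu]
      exact hGpos (1 - u) ⟨by linarith, by linarith [hu.1]⟩
    · exact hGpos u ⟨h, hu.2⟩
  have hGnn : ∀ u ∈ Ioo (0 : ℝ) 1, 0 ≤ G' u := by
    intro u hu
    by_cases hne : u = 1 / 2
    · rw [hne]
      exact hG12
    · exact (hGpos' u hu hne).le
  -- the density
  classical
  set p : ℝ → ℝ := fun y => if y ∈ R then (G' (cdf ν y))⁻¹ else 0 with hp
  have hpR : ∀ u ∈ Ioo (0 : ℝ) 1, p (g u) = (G' u)⁻¹ := by
    intro u hu
    simp only [hp]
    rw [if_pos ⟨u, hu, rfl⟩, hcdf u hu]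
  have hpm : Measurable p := by
    apply Measurable.ite hRm _ measurable_const
    exact (hGm.comp (monotone_cdf ν).measurable).inv
  have hp0 : ∀ y, 0 ≤ p y := by
    intro y
    by_cases hy : y ∈ R
    · obtain ⟨u, hu, rfl⟩ := hy
      rw [hpR u hu]
      exact inv_nonneg.mpr (hGnn u hu)
    · simp only [hp]
      rw [if_neg hy]
  have hpneg : ∀ y, p (-y) = p y := by
    intro y
    by_cases hy : y ∈ R
    · obtain ⟨u, hu, rfl⟩ := hy
      rw [← hgs u hu, hpR u hu, hpR (1 - u) ⟨by linarith [hu.2], by linarith [hu.1]⟩, hGs u hu]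
    · have hy' : -y ∉ R := by
        intro hcon
        have := hRneg _ hcon
        rw [neg_neg] at this
        exact hy this
      simp only [hp]
      rw [if_neg hy, if_neg hy']
  have hanti : AntitoneOn p (Ioi 0) := by
    intro x hx y hy hxy
    by_cases hyR : y ∈ R
    · have hxR : x ∈ R := hRoc.out hR0 hyR ⟨le_of_lt hx, hxy⟩
      obtain ⟨u, hu, rfl⟩ := hyR
      obtain ⟨v, hv, rfl⟩ := hxR
      rw [hpR u hu, hpR v hv]
      have hv2 : 1 / 2 < v := by
        by_contra hcon
        push Not at hcon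
        have h1 := hgm.monotoneOn hv ⟨by norm_num, by norm_num⟩ hcon
        rw [hg12] at h1
        have : 0 < g v := hx
        linarith
      have huv : v ≤ u := (hgm.le_iff_le hv hu).mp hxy
      apply inv_anti₀ (hGpos v ⟨hv2, hv.2⟩)
      exact hGmono ⟨hv2, hv.2⟩ ⟨by linarith, hu.2⟩ huv
    · have : p y = 0 := by
        simp only [hp]
        rw [if_neg hyR]
      rw [this]
      exact hp0 x
  have hmono : MonotoneOn p (Iio 0) := by
    intro x hx y hy hxy
    rw [← hpneg x, ← hpneg y]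
    have hx' : x < 0 := hx
    have hy' : y < 0 := hy
    exact hanti (show (0 : ℝ) < -y by linarith) (show (0 : ℝ) < -x by linarith) (by linarith)
  have hdens : ν = volume.withDensity (fun x => ENNReal.ofReal (p x)) := by
    ext B hB
    rw [withDensity_apply _ hB]
    set U := Ioo (0 : ℝ) 1 \ F with hU
    have hVm : MeasurableSet (U ∩ g ⁻¹' B) := by
      have : U ∩ g ⁻¹' B = (Ioo (0 : ℝ) 1 ∩ g ⁻¹' B) \ F := by
        ext x
        simp only [hU, mem_inter_iff, Set.mem_sdiff]
        tauto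
      rw [this]
      exact (meas_inter hgc hB).diff hF.measurableSet
    have h1 : ∫⁻ y in g '' (U ∩ g ⁻¹' B), ENNReal.ofReal (p y) = volume (U ∩ g ⁻¹' B) := by
      rw [lintegral_image_eq_lintegral_abs_deriv_mul hVm (f' := G')
        (fun x hx => (hd x hx.1.1 hx.1.2).hasDerivWithinAt)
        (hgm.injOn.mono fun x hx => hx.1.1)]
      have h2 : ∀ x ∈ U ∩ g ⁻¹' B, ENNReal.ofReal |G' x| * ENNReal.ofReal (p (g x)) = 1 := by
        intro x hx
        have hx1 : x ≠ 1 / 2 := by
          intro hcon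
          apply hx.1.2
          rw [hcon]
          exact hF12
        have h3 := hGpos' x hx.1.1 hx1
        rw [hpR x hx.1.1, ← ENNReal.ofReal_mul (abs_nonneg _), abs_of_pos h3,
          mul_inv_cancel₀ h3.ne', ENNReal.ofReal_one]
      rw [setLIntegral_congr_fun hVm h2]
      simp
    have hset : g '' (U ∩ g ⁻¹' B) = (g '' U) ∩ B := image_inter_preimage g U B
    have hRae : (g '' U ∩ B : Set ℝ) =ᵐ[volume] (R ∩ B : Set ℝ) := by
      have h4 : (R ∩ B) \ (g '' U ∩ B) ⊆ g '' F := by
        rintro y ⟨⟨⟨u, hu, rfl⟩, hyB⟩, hy⟩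
        by_cases huF : u ∈ F
        · exact ⟨u, huF, rfl⟩
        · exact absurd ⟨⟨u, ⟨hu, huF⟩, rfl⟩, hyB⟩ hy
      have h5 : volume ((R ∩ B) \ (g '' U ∩ B)) = 0 :=
        measure_mono_null h4 ((hF.image g).measure_zero _)
      have h6 : g '' U ∩ B ⊆ R ∩ B := inter_subset_inter_left _ (image_mono sdiff_subset)
      apply Filter.EventuallyLE.antisymm
      · exact Eventually.of_forall fun x hx => h6 hx
      · rw [ae_le_set]
        exact h5
    have h7 : ∫⁻ y in B, ENNReal.ofReal (p y) = ∫⁻ y in R ∩ B, ENNReal.ofReal (p y) := by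
      rw [← setLIntegral_indicator hRm]
      apply lintegral_congr
      intro y
      by_cases hy : y ∈ R
      · rw [indicator_of_mem hy]
      · rw [indicator_of_notMem hy]
        simp only [hp]
        rw [if_neg hy, ENNReal.ofReal_zero]
    rw [h7, ← setLIntegral_congr hRae, ← hset, h1, hν,
      Measure.map_apply_of_aemeasurable hmeas hB, UU,
      Measure.restrict_apply₀' measurableSet_Ioo.nullMeasurableSet]
    apply le_antisymm
    · have h8 : g ⁻¹' B ∩ Ioo 0 1 ⊆ (U ∩ g ⁻¹' B) ∪ F := by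
        rintro x ⟨hx1, hx2⟩
        by_cases hxF : x ∈ F
        · exact Or.inr hxF
        · exact Or.inl ⟨⟨hx2, hxF⟩, hx1⟩
      calc volume (g ⁻¹' B ∩ Ioo 0 1) ≤ volume ((U ∩ g ⁻¹' B) ∪ F) := measure_mono h8
        _ ≤ volume (U ∩ g ⁻¹' B) + volume F := measure_union_le _ _
        _ = volume (U ∩ g ⁻¹' B) := by rw [hF.measure_zero, add_zero]
    · apply measure_mono
      rintro x ⟨hx1, hx2⟩
      exact ⟨hx2, hx1.1⟩
  refine ⟨ν, ⟨⟨hprob, hcont, ?_, ?_, ?_⟩, ⟨p, hpm, hp0, hdens, ?_, ?_⟩⟩, hmean, hvar, ?_⟩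
  · rw [hν, integrable_map_measure (by fun_prop) hmeas]
    rw [intervalIntegrable_iff_integrableOn_Ioo_of_le zero_le_one] at hII2
    exact hII2
  · rw [hvar]
    linarith
  · intro t
    rw [hmean, zero_add, zero_sub]
    exact hsymm t
  · rw [hmean]
    exact hmono
  · rw [hmean]
    exact hanti
  · have h1 : ∫ u in (0 : ℝ)..1, quant ν u * f u = ∫ u in (0 : ℝ)..1, g u * f u := by
      rw [intervalIntegral.integral_of_le zero_le_one, integral_Ioc_eq_integral_Ioo,
        intervalIntegral.integral_of_le zero_le_one, integral_Ioc_eq_integral_Ioo]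
      apply setIntegral_congr_fun measurableSet_Ioo
      intro u hu
      simp only [hquant u hu]
    have h2 : IntervalIntegrable (fun u => g u * f u) volume 0 1 := by
      rw [intervalIntegrable_iff_integrableOn_Ioo_of_le zero_le_one]
      exact hLp.integrable_mul hf
    rw [h1, hhalf _ h2]
    apply toInt
    intro u hu
    rw [hgs u (hsub hu)]
    ring

end Pool.Agent.H17.KU
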