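import Pool.Agent.H17.KU.Att

/-! The sharp constants for `k ≥ 2`. -/

namespace Pool.Agent.H17.KU

open MeasureTheory ProbabilityTheory Set Filter Topology
open V11309.KRec

lemma dsf_symm (N M : ℕ) (x : ℝ) : dsf N M (1 - x) = dsf N M x := by
  unfold dsf dSS
  rw [show (1 : ℝ) - (1 - x) = x by ring]
  ring

lemma dsf_meas (N M : ℕ) : Measurable (dsf N M) := by
  unfold dsf dSS
  fun_prop

lemma Shp.b_lt_z {s ds : ℝ → ℝ} {xi z : ℝ} (H : Shp s xi z) (HD : ShpD s ds xi z) {b : ℝ}
    (h2 : b ≤ xi) : b < z := by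
  rcases (h2.trans H.hxz).eq_or_lt with h | h
  · exfalso
    have hxz : xi = z := le_antisymm H.hxz (h ▸ h2)
    have h3 : 0 < ds z := by
      have h4 := HD.dpos (1 / 2) le_rfl H.hz1
      have h5 := HD.dmono ⟨le_rfl, H.hxi⟩ ⟨H.hz1.le, hxz.ge⟩ H.hz1.le
      linarith
    obtain ⟨w, w1, w2, w3⟩ := exists_right (HD.hd z (by linarith [H.hz1]) H.hz2) h3 H.hz2
    have h6 : 0 ≤ s w := (H.nonneg H.hz1.le le_rfl).trans w3.le
    have := H.right z w le_rfl w1 w2 h6
    linarith
  · exact h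

/-- common part of the two attained cases -/
theorem greatest_gen (N M : ℕ) {xi z : ℝ} (H : Shp (sfun (M + 2) (N + 1)) xi z)
    (HD : ShpD (sfun (M + 2) (N + 1)) (dsf N M) xi z) {b γ : ℝ} (h1 : 1 / 2 ≤ b)
    (h2 : b ≤ xi) (hγ : 0 < γ) (hle : ∀ u, 1 / 2 < u → u ≤ b → dsf N M u ≤ γ)
    (hI0 : 0 ≤ ∫ x in b..1,
      (sfun (M + 2) (N + 1) x - (sfun (M + 2) (N + 1) b + γ * (x - b))))
    (hI0' : sfun (M + 2) (N + 1) b * ∫ x in b..1,
      (sfun (M + 2) (N + 1) x - (sfun (M + 2) (N + 1) b + γ * (x - b))) = 0)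
    (hI0'' : b = 1 / 2 ∨ ∫ x in b..1,
      (sfun (M + 2) (N + 1) x - (sfun (M + 2) (N + 1) b + γ * (x - b))) = 0)
    (hI1 : ∫ x in b..1, (x - b) *
      (sfun (M + 2) (N + 1) x - (sfun (M + 2) (N + 1) b + γ * (x - b))) = 0) :
    IsGreatest (uratios (M + 2) (N + 1))
      (√(((∫ x in (1 / 2)..b, sfun (M + 2) (N + 1) x ^ 2) +
        ∫ x in b..1, (sfun (M + 2) (N + 1) b + γ * (x - b)) ^ 2) / 2)) := by
  set s := sfun (M + 2) (N + 1) with hs
  have hbz := H.b_lt_z HD h2
  have hb1 : b < 1 := hbz.trans H.hz2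
  have hf : MemLp (dens (M + 2) (N + 1)) 2 UU := memLp_cont (continuousOn_dens N M)
  have hfs : ∀ u, dens (M + 2) (N + 1) u - dens (M + 2) (N + 1) (1 - u) = s u := fun u => rfl
  have hsb : 0 ≤ s b := H.nonneg h1 hbz.le
  rw [← norm_gz H.cont h1 hb1]
  have hQ : 0 < ∫ u in Ioo (1 / 2 : ℝ) 1, gz s b γ u ^ 2 := by
    rw [norm_gz H.cont h1 hb1, int_lin3]
    have e1 : 0 ≤ ∫ x in (1 / 2)..b, s x ^ 2 :=
      intervalIntegral.integral_nonneg h1 fun x _ => sq_nonneg _
    have e2 : 0 < 1 - b := by linarith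
    positivity
  constructor
  · obtain ⟨ν, n1, n2⟩ := attain H HD (sfun_symm _ _) (dsf_meas N M) (dsf_symm N M) h1 h2 hbz hγ
      hle hf hfs hI0' hI1 hQ
    exact ⟨ν, n1, n2.symm⟩
  · rintro r ⟨ν, hν, rfl⟩
    apply ratio_le hf (integral_dens_one N M) hfs
      (memLp_half (memLp_cont (cont_gz (γ := γ) H.cont (by linarith) hb1.le))) hQ _ hν
    intro g g1 g2 g3 g4
    apply upper_gen H h1 h2 hγ.le _ hI0 hI1 (g1.subset (Ico_subset_Ico h1 le_rfl) (convex_Ico _ _))
      g4
    · rcases hI0'' with h | h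
      · rw [h, g2, zero_mul]
      · rw [h, mul_zero]
    · have := mul_pos hγ (by linarith : 0 < 1 - b)
      linarith

/-- the third case: the breaking point is the least zero of `Φ`. -/
theorem case_N (N M : ℕ) (hnz : (((M : ℝ) + 2) / (M + 3)) ^ (N + 2) < 1 / 2)
    (hΦ : 0 < Phi (sfun (M + 2) (N + 1)) (1 / 2)) :
    ∃ b, 1 / 2 < b ∧ b < 1 ∧ Phi (sfun (M + 2) (N + 1)) b = 0 ∧
      (∀ x, 1 / 2 ≤ x → x < b → 0 < Phi (sfun (M + 2) (N + 1)) x) ∧
      IsGreatest (uratios (M + 2) (N + 1))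
        (√(((∫ x in (1 / 2)..b, sfun (M + 2) (N + 1) x ^ 2) +
          ∫ x in b..1, (sfun (M + 2) (N + 1) b +
            lam (sfun (M + 2) (N + 1)) b * (x - b)) ^ 2) / 2)) := by
  obtain ⟨xi, z, H, HD⟩ := shp N M hnz
  have hM : 0 < ∫ x in (1 / 2)..1, (x - 1 / 2) * sfun (M + 2) (N + 1) x := by
    rw [M1_eq]
    linarith
  obtain ⟨b, b1, b2, b3, b4⟩ := exists_b H hM hΦ
  have hbz := H.b_lt_z HD b2
  have hb1 : b < 1 := hbz.trans H.hz2
  have hlam := lam_ge H.cont b1 hb1 (HD.hd b (by linarith) hb1) b3 b4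
  have hI0 := int_h0_lam H.cont (b := b) (by linarith) hb1
  have hI1 := int_h1_lam H.cont (b := b) (by linarith) hb1
  refine ⟨b, b1, hb1, b3, b4, ?_⟩
  apply greatest_gen N M H HD b1.le b2
  · have h4 := HD.dpos (1 / 2) le_rfl H.hz1
    have h5 := HD.dmono ⟨le_rfl, H.hxi⟩ ⟨b1.le, b2⟩ b1.le
    linarith
  · intro u hu hub
    exact (HD.dmono ⟨hu.le, hub.trans b2⟩ ⟨b1.le, b2⟩ hub).trans hlam
  · exact hI0.ge
  · rw [hI0, mul_zero]
  · exact Or.inr hI0
  · rw [hI1, b3]

/-- the second case: the uniform law is optimal. -/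
theorem case_L (N M : ℕ) (hnz : (((M : ℝ) + 2) / (M + 3)) ^ (N + 2) < 1 / 2)
    (hΦ : Phi (sfun (M + 2) (N + 1)) (1 / 2) ≤ 0) :
    IsGreatest (uratios (M + 2) (N + 1))
      (√3 * (1 - 2 * (((M : ℝ) + 2) / (M + 3)) ^ (N + 2))) := by
  obtain ⟨xi, z, H, HD⟩ := shp N M hnz
  have hM := M1_eq N M
  set q := (((M : ℝ) + 2) / (M + 3)) ^ (N + 2) with hq
  set s := sfun (M + 2) (N + 1) with hs
  have hγ : 0 < 24 * (1 / 2 - q) := by linarith
  have hI0 := int_h0 H.cont (b := 1 / 2) (by norm_num) (by norm_num) (s (1 / 2))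
    (24 * (1 / 2 - q))
  have hI1 := int_h1 H.cont (b := 1 / 2) (by norm_num) (by norm_num) (s (1 / 2))
    (24 * (1 / 2 - q))
  have key := greatest_gen N M H HD (b := 1 / 2) (γ := 24 * (1 / 2 - q)) le_rfl H.hxi hγ
    (fun u h1 h2 => by linarith) ?_ ?_ (Or.inl rfl) ?_
  · have e1 : √(((∫ x in (1 / 2 : ℝ)..(1 / 2), s x ^ 2) +
        ∫ x in (1 / 2 : ℝ)..1, (s (1 / 2) + 24 * (1 / 2 - q) * (x - 1 / 2)) ^ 2) / 2) =
        √3 * (1 - 2 * q) := by
      rw [intervalIntegral.integral_same, int_lin3, H.half]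
      have e2 : (0 + (0 ^ 2 * (1 - 1 / 2) + 0 * (24 * (1 / 2 - q)) * (1 - 1 / 2) ^ 2 +
          (24 * (1 / 2 - q)) ^ 2 * (1 - 1 / 2) ^ 3 / 3)) / 2 = 3 * (1 - 2 * q) ^ 2 := by ring
      rw [e2, Real.sqrt_mul (by norm_num), Real.sqrt_sq (by linarith)]
    rw [← e1]
    exact key
  · rw [hI0, H.half]
    unfold Phi at hΦ
    rw [H.half, hM] at hΦ
    linarith
  · show s (1 / 2) * _ = 0
    rw [H.half, zero_mul]
  · rw [hI1, H.half, hM]
    ring

/-- the first case. -/
theorem case_Z (N M : ℕ) (hz : 1 / 2 ≤ (((M : ℝ) + 2) / (M + 3)) ^ (N + 2)) :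
    IsLUB (uratios (M + 2) (N + 1)) 0 := by
  set s := sfun (M + 2) (N + 1) with hsdef
  have hs : ContinuousOn s (Icc 0 1) := continuousOn_sfun N M
  have hshape := shape N M
  rw [← hsdef] at hshape
  have hsub' : Ioo (1 / 2 : ℝ) 1 ⊆ Icc 0 1 := fun x hx => ⟨by linarith [hx.1], hx.2.le⟩
  have hf : MemLp (dens (M + 2) (N + 1)) 2 UU := memLp_cont (continuousOn_dens N M)
  obtain ⟨C, hC⟩ := isCompact_Icc.exists_bound_of_continuousOn hs
  have hM := M1_eq N M
  rw [toIoo (by norm_num)] at hM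
  constructor
  · rintro r ⟨ν, hν, rfl⟩
    obtain ⟨g, g1, g2, g3, g4, g5, g6⟩ := reduceU hν hf (integral_dens_one N M)
    have hrec : recMean (M + 2) (N + 1) ν - mean ν = ∫ u in Ioo (1 / 2 : ℝ) 1, g u * s u := g6
    rw [hrec]
    apply div_nonpos_of_nonpos_of_nonneg _ (Real.sqrt_nonneg _)
    have hs0 : s (1 / 2) = 0 := sfun_half N M
    have e1 : ∫ u in Ioo (1 / 2 : ℝ) 1, g u * s u =
        ∫ u in Ioo (1 / 2 : ℝ) 1, (g u / (u - 1 / 2)) * ((u - 1 / 2) * s u) := by
      apply setIntegral_congr_fun measurableSet_Ioo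
      intro u hu
      have : u - 1 / 2 ≠ 0 := by linarith [hu.1]
      simp only
      rw [← mul_assoc, div_mul_cancel₀ _ this]
    rw [e1]
    apply lemM (g := fun u => g u / (u - 1 / 2)) (h := fun u => (u - 1 / 2) * s u)
    · intro u hu v hv huv
      rcases huv.eq_or_lt with h | h
      · rw [h]
      · have h3 := g1.secant_mono (a := 1 / 2) (x := u) (y := v) ⟨le_rfl, by norm_num⟩
          ⟨hu.1.le, hu.2⟩ ⟨hv.1.le, hv.2⟩ (by linarith [hu.1]) (by linarith [hv.1]) huv
        rw [g2, sub_zero, sub_zero] at h3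
        exact h3
    · intro u hu
      exact div_nonneg (g3 u hu) (by linarith [hu.1])
    · intro x hx y hy hxy h
      have h1 := pattern hshape le_rfl (by rw [hs0]) x hx y hy hxy
      rw [hs0, sub_zero, sub_zero] at h1
      have h2 : 0 ≤ s y := by
        have h3 : 0 < y - 1 / 2 := by linarith [hy.1]
        exact nonneg_of_mul_nonneg_right h h3
      exact mul_nonneg (by linarith [hx.1]) (h1 h2)
    · exact io_of_cont ((by fun_prop : ContinuousOn (fun x : ℝ => x - 1 / 2) (Icc 0 1)).mul hs)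
        (by norm_num)
    · apply (int_mul g4 hs).congr_fun _ measurableSet_Ioo
      intro u hu
      have : u - 1 / 2 ≠ 0 := by linarith [hu.1]
      simp only
      rw [← mul_assoc, div_mul_cancel₀ _ this]
    · rw [hM]
      linarith
  · intro b hb
    have hpow : ∀ j : ℕ, ∫ u in Ioo (1 / 2 : ℝ) 1, (2 * u - 1) ^ j = 1 / (2 * ((j : ℝ) + 1)) := by
      intro j
      rw [← integral_Ioc_eq_integral_Ioo, ← intervalIntegral.integral_of_le (by norm_num)]
      have := intervalIntegral.integral_comp_mul_sub (a := 1 / 2) (b := 1)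
        (fun x : ℝ => x ^ j) (c := 2) (by norm_num) 1
      rw [this]
      norm_num
      field_simp
    have hkey : ∀ j : ℕ, -(C / √((j : ℝ) + 1)) ≤ b := by
      intro j
      set g : ℝ → ℝ := fun u => (2 * u - 1) ^ (2 * j + 1) with hg
      have hgc : ContinuousOn g (Icc 0 1) := by
        rw [hg]
        fun_prop
      have hodd : Odd (2 * j + 1) := ⟨j, rfl⟩
      have hgm : StrictMonoOn g (Icc 0 1) := by
        intro u _ v _ huv
        exact hodd.strictMono_pow (by linarith)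
      have hgs : ∀ u ∈ Icc (0 : ℝ) 1, g (1 - u) = - g u := by
        intro u _
        simp only [hg]
        rw [← hodd.neg_pow]
        congr 1
        ring
      have hsq : ∫ u in Ioo (1 / 2 : ℝ) 1, g u ^ 2 = 1 / (2 * ((4 * (j : ℝ) + 2) + 1)) := by
        have := hpow (4 * j + 2)
        push_cast at this
        rw [← this]
        apply setIntegral_congr_fun measurableSet_Ioo
        intro u _
        simp only [hg]
        rw [← pow_mul]
        congr 1
        ring
      have heven : ∀ u : ℝ, 0 ≤ (2 * u - 1) ^ (2 * j) := fun u => by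
        rw [pow_mul]
        positivity
      obtain ⟨ν, n1, n2, n3, n4⟩ := realizeU (g := g)
        (G' := fun u => 2 * (2 * (j : ℝ) + 1) * (2 * u - 1) ^ (2 * j))
        (F := {1 / 2}) (f := dens (M + 2) (N + 1)) (by simp)
        (hgm.mono Ioo_subset_Icc_self) (hgc.mono Ioo_subset_Icc_self)
        (fun u hu => hgs u ⟨hu.1.le, hu.2.le⟩) (memLp_cont hgc)
        (by
          intro u _ _
          have h1 := (((hasDerivAt_id u).const_mul 2).sub_const 1).pow (2 * j + 1)
          refine HasDerivAt.congr_deriv h1 ?_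
          simp only [id, Nat.add_sub_cancel]
          push_cast
          ring)
        (by simp) (by fun_prop)
        (by
          intro u hu
          have : 0 < 2 * u - 1 := by linarith [hu.1]
          positivity)
        (mul_nonneg (by positivity) (heven _))
        (by
          intro u _
          have e : (2 * (1 - u) - 1) = -(2 * u - 1) := by ring
          rw [e, (even_two_mul j).neg_pow])
        (by
          intro u hu v hv huv
          apply mul_le_mul_of_nonneg_left _ (by positivity)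
          exact pow_le_pow_left₀ (by linarith [hu.1]) (by linarith) _)
        hf (by rw [hsq]; positivity)
      have hmem := hb ⟨ν, n1, rfl⟩
      refine le_trans ?_ hmem
      have hrec : recMean (M + 2) (N + 1) ν = ∫ u in Ioo (1 / 2 : ℝ) 1, g u * s u := n4
      rw [hrec, n2, n3, hsq, sub_zero]
      have hlow : -(C * (1 / (2 * ((2 * (j : ℝ) + 1) + 1)))) ≤
          ∫ u in Ioo (1 / 2 : ℝ) 1, g u * s u := by
        have h5 := hpow (2 * j + 1)
        push_cast at h5
        rw [← h5, ← integral_const_mul, ← integral_neg]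
        apply setIntegral_mono_on
        · exact setint_cont (by fun_prop)
        · exact setint_cont (hgc.mul hs)
        · exact measurableSet_Ioo
        · intro u hu
          have h6 : 0 ≤ (2 * u - 1) ^ (2 * j + 1) := pow_nonneg (by linarith [hu.1]) _
          have h7 := hC u (hsub' hu)
          rw [Real.norm_eq_abs, abs_le] at h7
          simp only [hg]
          nlinarith [h7.1]
      have hC0 : 0 ≤ C := (norm_nonneg _).trans (hC 0 ⟨le_rfl, zero_le_one⟩)
      rw [le_div_iff₀ (Real.sqrt_pos.mpr (by positivity))]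
      refine le_trans ?_ hlow
      rw [neg_mul, neg_le_neg_iff, div_mul_eq_mul_div, mul_div_assoc]
      apply mul_le_mul_of_nonneg_left _ hC0
      rw [← Real.sqrt_div (by positivity)]
      apply Real.le_sqrt_of_sq_le
      have e1 : (1 / (2 * ((2 * (j : ℝ) + 1) + 1))) ^ 2 = 1 / (16 * ((j : ℝ) + 1) ^ 2) := by
        field_simp
        ring
      have e2 : 2 * (1 / (2 * ((4 * (j : ℝ) + 2) + 1))) / (j + 1) =
          1 / ((4 * (j : ℝ) + 3) * (j + 1)) := by
        field_simp
        ring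
      rw [e2, e1]
      apply one_div_le_one_div_of_le (by positivity)
      have hj : (0 : ℝ) ≤ j := Nat.cast_nonneg j
      nlinarith
    have hlim : Tendsto (fun j : ℕ => -(C / √((j : ℝ) + 1))) atTop (𝓝 (-0)) := by
      apply Tendsto.neg
      apply Tendsto.const_div_atTop
      apply Real.tendsto_sqrt_atTop.comp
      exact tendsto_atTop_add_const_right _ _ tendsto_natCast_atTop_atTop
    rw [neg_zero] at hlim
    exact le_of_tendsto' hlim hkey

end Pool.Agent.H17.KU
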