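import Pool.Agent.H17.KU.One
import Pool.Agent.H17.KU.Two

/-! Closed forms. -/

namespace Pool.Agent.H17.KU

open MeasureTheory ProbabilityTheory Set Filter Topology
open V11309.KRec

lemma sq_value (n : ℕ) : ∫ x in (1 / 2 : ℝ)..1, sfun 1 n x ^ 2 =
    ((2 * n).choose n : ℝ) -
      (∫ x in (0 : ℝ)..1, Real.log x ^ n * Real.log (1 - x) ^ n) / (n.factorial : ℝ) ^ 2 := by
  have hLp := memLp_dens_one n
  have hLp' := memLp_dens_one' n
  have i1 : IntervalIntegrable (fun x => dens 1 n x ^ 2) volume 0 1 := by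
    rw [intervalIntegrable_iff_integrableOn_Ioo_of_le zero_le_one]
    exact hLp.integrable_sq
  have i2 : IntervalIntegrable (fun x => dens 1 n x * dens 1 n (1 - x)) volume 0 1 := by
    rw [intervalIntegrable_iff_integrableOn_Ioo_of_le zero_le_one]
    exact hLp.integrable_mul hLp'
  have h1 := hhalf _ (i1.sub i2)
  have h2 : ∫ x in (1 / 2 : ℝ)..1, sfun 1 n x ^ 2 = ∫ u in (1 / 2 : ℝ)..1,
      ((dens 1 n u ^ 2 - dens 1 n u * dens 1 n (1 - u)) +
        (dens 1 n (1 - u) ^ 2 - dens 1 n (1 - u) * dens 1 n (1 - (1 - u)))) := by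
    apply intervalIntegral.integral_congr
    intro u _
    simp only
    unfold sfun
    rw [sub_sub_cancel]
    ring
  rw [h2, ← h1, intervalIntegral.integral_sub i1 i2]
  congr 1
  · have h3 : ∫ x in (0 : ℝ)..1, dens 1 n x ^ 2 =
        ∫ x in (0 : ℝ)..1, (((2 * n).factorial : ℝ) / (n.factorial : ℝ) ^ 2) * dens 1 (2 * n) x := by
      apply intervalIntegral.integral_congr
      intro u _
      simp only
      exact dens_one_sq n u
    rw [h3, intervalIntegral.integral_const_mul, integral_dens_1, mul_one,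
      Nat.cast_choose ℝ (by omega : n ≤ 2 * n), show 2 * n - n = n by omega, pow_two]
  · have h3 : ∫ x in (0 : ℝ)..1, dens 1 n x * dens 1 n (1 - x) =
        ∫ x in (0 : ℝ)..1, (1 / (n.factorial : ℝ) ^ 2) *
          (Real.log x ^ n * Real.log (1 - x) ^ n) := by
      apply intervalIntegral.integral_congr
      intro u _
      simp only
      rw [dens_one, dens_one, sub_sub_cancel]
      have e : (-Real.log (1 - u)) ^ n * (-Real.log u) ^ n = Real.log u ^ n * Real.log (1 - u) ^ n := by
        rw [← mul_pow, ← mul_pow, neg_mul_neg, mul_comm]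
      calc 1 / (n.factorial : ℝ) * (-Real.log (1 - u)) ^ n *
            (1 / (n.factorial : ℝ) * (-Real.log u) ^ n)
          = 1 / (n.factorial : ℝ) ^ 2 * ((-Real.log (1 - u)) ^ n * (-Real.log u) ^ n) := by
            field_simp
        _ = _ := by rw [e]
    rw [h3, intervalIntegral.integral_const_mul]
    ring

/-- `Φ(1/2)` in closed form. -/
lemma Phi_half (N M : ℕ) : Phi (sfun (M + 2) (N + 1)) (1 / 2) =
    (5 / 2 - 3 * (((M : ℝ) + 2) / (M + 3)) ^ (N + 2) -
      (∑ j ∈ Finset.range (N + 2), (((M + 2 : ℕ) : ℝ) * Real.log 2) ^ j / (j.factorial : ℝ)) /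
        2 ^ (M + 1)) / 3 := by
  unfold Phi
  rw [M1_eq, integral_sfun, sfun_half]
  ring

end Pool.Agent.H17.KU
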